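import Mathlib

/-!
# Disproof of the Erdos jump conjecture at r!/r^r : definitions

`lag E y` is the Lagrange polynomial of a (finite) hypergraph.  `Vert G D` is the vertex type of the
construction: `inl none = 1`, `inl (some g) = j_g`, `inr (inl none) = 2`, `inr (inl (some g)) = k_g`,
`inr (inr (inl 0)) = s`, `1 = h`, `2 = z`, and for each index `i : Idx D` a set of `sz i` heavy vertices
(`inl false = {a,b}`, `inl true = {c,d}`, `inr (false,c) = R_c`, `inr (true,c) = R'_c`).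
-/

namespace Pool.Agent.H62.Jump

open Finset

/-- Lagrange polynomial of a hypergraph. -/
noncomputable def lag {V : Type*} (E : Finset (Finset V)) (y : V → ℝ) : ℝ := ∑ e ∈ E, ∏ v ∈ e, y v

abbrev Idx (D : ℕ) := Bool ⊕ (Bool × Fin D)

def sz {D : ℕ} : Idx D → ℕ
  | Sum.inl _ => 2
  | Sum.inr _ => 3

abbrev Vert (G : Type) (D : ℕ) := Option G ⊕ (Option G ⊕ (Fin 3 ⊕ (Σ i : Idx D, Fin (sz i))))

section poly
variable {G : Type} [Fintype G] {D : ℕ}

def y1 (y : Vert G D → ℝ) : ℝ := y (Sum.inl none)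
def xx (y : Vert G D → ℝ) (g : G) : ℝ := y (Sum.inl (some g))
def y2 (y : Vert G D → ℝ) : ℝ := y (Sum.inr (Sum.inl none))
def ww (y : Vert G D → ℝ) (g : G) : ℝ := y (Sum.inr (Sum.inl (some g)))
def ys (y : Vert G D → ℝ) : ℝ := y (Sum.inr (Sum.inr (Sum.inl 0)))
def yh (y : Vert G D → ℝ) : ℝ := y (Sum.inr (Sum.inr (Sum.inl 1)))
def yz (y : Vert G D → ℝ) : ℝ := y (Sum.inr (Sum.inr (Sum.inl 2)))
def su (y : Vert G D → ℝ) (i : Idx D) (l : Fin (sz i)) : ℝ := y (Sum.inr (Sum.inr (Sum.inr ⟨i, l⟩)))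
/-- product of the weights of the i-th heavy set -/
def rho (y : Vert G D → ℝ) (i : Idx D) : ℝ := ∏ l, su y i l
def X (y : Vert G D → ℝ) : ℝ := ∑ g, xx y g
def W (y : Vert G D → ℝ) : ℝ := ∑ g, ww y g
def Pc (π : Fin D → Equiv.Perm G) (y : Vert G D → ℝ) (c : Fin D) : ℝ := ∑ g, xx y g * ww y (π c g)
def PP (π : Fin D → Equiv.Perm G) (y : Vert G D → ℝ) : ℝ := ∑ c, Pc π y c
/-- main part: `V s (h+z) + (U - P) h (s+z)`, `V = y1 y2`, `U = (y1+X)(y2+W) - V`. -/
def F0 (π : Fin D → Equiv.Perm G) (y : Vert G D → ℝ) : ℝ :=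
  y1 y * y2 y * ys y * (yh y + yz y)
    + ((y1 y + X y) * (y2 y + W y) - y1 y * y2 y - PP π y) * (yh y * (ys y + yz y))
/-- reward parts, one for each heavy set. -/
def bb (π : Fin D → Equiv.Perm G) (y : Vert G D → ℝ) : Idx D → ℝ
  | Sum.inl false => y1 y * y2 y * PP π y * (yh y * (ys y + yz y))
  | Sum.inl true => y1 y * y2 y * PP π y * (yh y * yz y)
  | Sum.inr (false, c) => y1 y * y2 y * (yh y * (ys y + yz y)) *
      ∑ g, xx y g * ww y (π c g) * (X y - xx y g)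
  | Sum.inr (true, c) => y1 y * y2 y * (yh y * (ys y + yz y)) *
      ∑ g, xx y g * ww y (π c g) * (W y - ww y (π c g))

end poly

end Pool.Agent.H62.Jump
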