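import Mathlib

/-! Polynomial inequalities (Bernstein certificates), machine generated. -/

namespace Pool.Agent.H62.Jump

theorem pB2_0 (x y : ℝ) (hx0 : (7/5:ℝ) ≤ x) (hy0 : (0:ℝ) ≤ y) (hy1 : y ≤ (1/4:ℝ)) :
    0 ≤ ((4451/2000:ℝ) * (1 + 2*(x - 7/5) + (2*(x - 7/5))^2/2 + (2*(x - 7/5))^3/6 + (2*(x - 7/5))^4/24 + (2*(x - 7/5))^5/120 + (2*(x - 7/5))^6/720 + (2*(x - 7/5))^7/5040)) - x^2 + (y*x)^2 - (y*x)^2*((1-y)*x)^2*(1 + 64/25*(y*x) + (y*x)/2*(25/32*x - 1)) := by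
  obtain ⟨u, hu⟩ : ∃ u : ℝ, x = (7/5:ℝ) + u := ⟨(x - (7/5:ℝ)), by ring⟩
  obtain ⟨v, hv⟩ : ∃ v : ℝ, y = (0:ℝ) + (1/4:ℝ)*v := ⟨(y - (0:ℝ))/(1/4:ℝ), by ring⟩
  have hu0 : 0 ≤ u := by linarith
  have hv0 : 0 ≤ v := by linarith
  obtain ⟨v', hv'⟩ : ∃ v' : ℝ, v' = 1 - v := ⟨_, rfl⟩
  have hv1 : 0 ≤ v' := by linarith
  have key : ((4451/2000:ℝ) * (1 + 2*(x - 7/5) + (2*(x - 7/5))^2/2 + (2*(x - 7/5))^3/6 + (2*(x - 7/5))^4/24 + (2*(x - 7/5))^5/120 + (2*(x - 7/5))^6/720 + (2*(x - 7/5))^7/5040)) - x^2 + (y*x)^2 - (y*x)^2*((1-y)*x)^2*(1 + 64/25*(y*x) + (y*x)/2*(25/32*x - 1)) =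
      (531/2000:ℝ)*v'^5 + (531/400:ℝ)*v^1*v'^4 + (12687/5000:ℝ)*v^2*v'^3 + (705018003/320000000:ℝ)*v^3*v'^2 + (557562009/640000000:ℝ)*v^4*v'^1 + (664154027/5120000000:ℝ)*v^5 + (1651/1000:ℝ)*u^1*v'^5 + (1651/200:ℝ)*u^1*v^1*v'^4 + (15999/1000:ℝ)*u^1*v^2*v'^3 + (92830627/6400000:ℝ)*u^1*v^3*v'^2 + (78621481/12800000:ℝ)*u^1*v^4*v'^1 + (100512443/102400000:ℝ)*u^1*v^5 + (3451/1000:ℝ)*u^2*v'^5 + (3451/200:ℝ)*u^2*v^1*v'^4 + (2707/80:ℝ)*u^2*v^2*v'^3 + (80960169/2560000:ℝ)*u^2*v^3*v'^2 + (72059707/5120000:ℝ)*u^2*v^4*v'^1 + (98525681/40960000:ℝ)*u^2*v^5 + (4451/1500:ℝ)*u^3*v'^5 + (4451/300:ℝ)*u^3*v^1*v'^4 + (8797/300:ℝ)*u^3*v^2*v'^3 + (10687679/384000:ℝ)*u^3*v^3*v'^2 + (9727517/768000:ℝ)*u^3*v^4*v'^1 + (13683767/6144000:ℝ)*u^3*v^5 + (4451/3000:ℝ)*u^4*v'^5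 + (4451/600:ℝ)*u^4*v^1*v'^4 + (17729/1200:ℝ)*u^4*v^2*v'^3 + (4385483/307200:ℝ)*u^4*v^3*v'^2 + (4105601/614400:ℝ)*u^4*v^4*v'^1 + (30003247/24576000:ℝ)*u^4*v^5 + (4451/7500:ℝ)*u^5*v'^5 + (4451/1500:ℝ)*u^5*v^1*v'^4 + (4451/750:ℝ)*u^5*v^2*v'^3 + (4493729/768000:ℝ)*u^5*v^3*v'^2 + (4365539/1536000:ℝ)*u^5*v^4*v'^1 + (33578317/61440000:ℝ)*u^5*v^5 + (4451/22500:ℝ)*u^6*v'^5 + (4451/4500:ℝ)*u^6*v^1*v'^4 + (4451/2250:ℝ)*u^6*v^2*v'^3 + (9087523/4608000:ℝ)*u^6*v^3*v'^2 + (9031273/9216000:ℝ)*u^6*v^4*v'^1 + (71659559/368640000:ℝ)*u^6*v^5 + (4451/78750:ℝ)*u^7*v'^5 + (4451/15750:ℝ)*u^7*v^1*v'^4 + (4451/7875:ℝ)*u^7*v^2*v'^3 + (4451/7875:ℝ)*u^7*v^3*v'^2 + (4451/15750:ℝ)*u^7*v^4*v'^1 + (4451/78750:ℝ)*u^7*v^5 := by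
    rw [hv', hu, hv]; ring
  rw [key]; positivity

theorem pB2_1 (x y : ℝ) (hx0 : (7/5:ℝ) ≤ x) (hy0 : (1/4:ℝ) ≤ y) (hy1 : y ≤ (1/2:ℝ)) :
    0 ≤ ((4451/2000:ℝ) * (1 + 2*(x - 7/5) + (2*(x - 7/5))^2/2 + (2*(x - 7/5))^3/6 + (2*(x - 7/5))^4/24 + (2*(x - 7/5))^5/120 + (2*(x - 7/5))^6/720 + (2*(x - 7/5))^7/5040)) - x^2 + (y*x)^2 - (y*x)^2*((1-y)*x)^2*(1 + 64/25*(y*x) + (y*x)/2*(25/32*x - 1)) := by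
  obtain ⟨u, hu⟩ : ∃ u : ℝ, x = (7/5:ℝ) + u := ⟨(x - (7/5:ℝ)), by ring⟩
  obtain ⟨v, hv⟩ : ∃ v : ℝ, y = (1/4:ℝ) + (1/4:ℝ)*v := ⟨(y - (1/4:ℝ))/(1/4:ℝ), by ring⟩
  have hu0 : 0 ≤ u := by linarith
  have hv0 : 0 ≤ v := by linarith
  obtain ⟨v', hv'⟩ : ∃ v' : ℝ, v' = 1 - v := ⟨_, rfl⟩
  have hv1 : 0 ≤ v' := by linarith
  have key : ((4451/2000:ℝ) * (1 + 2*(x - 7/5) + (2*(x - 7/5))^2/2 + (2*(x - 7/5))^3/6 + (2*(x - 7/5))^4/24 + (2*(x - 7/5))^5/120 + (2*(x - 7/5))^6/720 + (2*(x - 7/5))^7/5040)) - x^2 + (y*x)^2 - (y*x)^2*((1-y)*x)^2*(1 + 64/25*(y*x) + (y*x)/2*(25/32*x - 1)) =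
      (664154027/5120000000:ℝ)*v'^5 + (1090522099/2560000000:ℝ)*v^1*v'^4 + (270310069/640000000:ℝ)*v^2*v'^3 + (9633209/64000000:ℝ)*v^3*v'^2 + (36922027/320000000:ℝ)*v^4*v'^1 + (12362003/160000000:ℝ)*v^5 + (100512443/102400000:ℝ)*u^1*v'^5 + (188076291/51200000:ℝ)*u^1*v^1*v'^4 + (59251621/12800000:ℝ)*u^1*v^2*v'^3 + (2738921/1280000:ℝ)*u^1*v^3*v'^2 + (1843643/6400000:ℝ)*u^1*v^4*v'^1 + (110627/3200000:ℝ)*u^1*v^5 + (98525681/40960000:ℝ)*u^2*v'^5 + (204389577/20480000:ℝ)*u^2*v^1*v'^4 + (78071087/5120000:ℝ)*u^2*v^2*v'^3 + (5409787/512000:ℝ)*u^2*v^3*v'^2 + (8871921/2560000:ℝ)*u^2*v^4*v'^1 + (635049/1280000:ℝ)*u^2*v^5 + (13683767/6144000:ℝ)*u^3*v'^5 + (29508767/3072000:ℝ)*u^3*v^1*v'^4 + (11974057/768000:ℝ)*u^3*v^2*v'^3 + (910909/76800:ℝ)*u^3*v^3*v'^2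 + (1687351/384000:ℝ)*u^3*v^4*v'^1 + (131647/192000:ℝ)*u^3*v^5 + (30003247/24576000:ℝ)*u^4*v'^5 + (13580843/2457600:ℝ)*u^4*v^1*v'^4 + (1185881/122880:ℝ)*u^4*v^2*v'^3 + (2510309/307200:ℝ)*u^4*v^3*v'^2 + (1063843/307200:ℝ)*u^4*v^4*v'^1 + (469751/768000:ℝ)*u^4*v^5 + (33578317/61440000:ℝ)*u^5*v'^5 + (16116161/6144000:ℝ)*u^5*v^1*v'^4 + (7641463/1536000:ℝ)*u^5*v^2*v'^3 + (3596399/768000:ℝ)*u^5*v^3*v'^2 + (1702057/768000:ℝ)*u^5*v^4*v'^1 + (818981/1920000:ℝ)*u^5*v^5 + (71659559/368640000:ℝ)*u^6*v'^5 + (35534467/36864000:ℝ)*u^6*v^1*v'^4 + (17584421/9216000:ℝ)*u^6*v^2*v'^3 + (8693773/4608000:ℝ)*u^6*v^3*v'^2 + (4304699/4608000:ℝ)*u^6*v^4*v'^1 + (2138287/11520000:ℝ)*u^6*v^5 + (4451/78750:ℝ)*u^7*v'^5 + (4451/15750:ℝ)*u^7*v^1*v'^4 + (4451/7875:ℝ)*u^7*v^2*v'^3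 + (4451/7875:ℝ)*u^7*v^3*v'^2 + (4451/15750:ℝ)*u^7*v^4*v'^1 + (4451/78750:ℝ)*u^7*v^5 := by
    rw [hv', hu, hv]; ring
  rw [key]; positivity

theorem pB2_2 (x y : ℝ) (hx0 : (7/5:ℝ) ≤ x) (hy0 : (1/2:ℝ) ≤ y) (hy1 : y ≤ (3/4:ℝ)) :
    0 ≤ ((4451/2000:ℝ) * (1 + 2*(x - 7/5) + (2*(x - 7/5))^2/2 + (2*(x - 7/5))^3/6 + (2*(x - 7/5))^4/24 + (2*(x - 7/5))^5/120 + (2*(x - 7/5))^6/720 + (2*(x - 7/5))^7/5040)) - x^2 + (y*x)^2 - (y*x)^2*((1-y)*x)^2*(1 + 64/25*(y*x) + (y*x)/2*(25/32*x - 1)) := by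
  obtain ⟨u, hu⟩ : ∃ u : ℝ, x = (7/5:ℝ) + u := ⟨(x - (7/5:ℝ)), by ring⟩
  obtain ⟨v, hv⟩ : ∃ v : ℝ, y = (1/2:ℝ) + (1/4:ℝ)*v := ⟨(y - (1/2:ℝ))/(1/4:ℝ), by ring⟩
  have hu0 : 0 ≤ u := by linarith
  have hv0 : 0 ≤ v := by linarith
  obtain ⟨v', hv'⟩ : ∃ v' : ℝ, v' = 1 - v := ⟨_, rfl⟩
  have hv1 : 0 ≤ v' := by linarith
  have key : ((4451/2000:ℝ) * (1 + 2*(x - 7/5) + (2*(x - 7/5))^2/2 + (2*(x - 7/5))^3/6 + (2*(x - 7/5))^4/24 + (2*(x - 7/5))^5/120 + (2*(x - 7/5))^6/720 + (2*(x - 7/5))^7/5040)) - x^2 + (y*x)^2 - (y*x)^2*((1-y)*x)^2*(1 + 64/25*(y*x) + (y*x)/2*(25/32*x - 1)) =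
      (12362003/160000000:ℝ)*v'^5 + (210318033/320000000:ℝ)*v^1*v'^4 + (741750069/320000000:ℝ)*v^2*v'^3 + (498253227/128000000:ℝ)*v^3*v'^2 + (7760826243/2560000000:ℝ)*v^4*v'^1 + (4419918081/5120000000:ℝ)*v^5 + (110627/3200000:ℝ)*u^1*v'^5 + (368897/6400000:ℝ)*u^1*v^1*v'^4 + (7795621/6400000:ℝ)*u^1*v^2*v'^3 + (10397883/2560000:ℝ)*u^1*v^3*v'^2 + (224362387/51200000:ℝ)*u^1*v^4*v'^1 + (149959729/102400000:ℝ)*u^1*v^5 + (635049/1280000:ℝ)*u^2*v'^5 + (3829059/2560000:ℝ)*u^2*v^1*v'^4 + (6877487/2560000:ℝ)*u^2*v^2*v'^3 + (4775921/1024000:ℝ)*u^2*v^3*v'^2 + (93600889/20480000:ℝ)*u^2*v^4*v'^1 + (62099923/40960000:ℝ)*u^2*v^5 + (131647/192000:ℝ)*u^3*v'^5 + (945589/384000:ℝ)*u^3*v^1*v'^4 + (1587497/384000:ℝ)*u^3*v^2*v'^3 + (152587/30720:ℝ)*u^3*v^3*v'^2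 + (11706479/3072000:ℝ)*u^3*v^4*v'^1 + (7007909/6144000:ℝ)*u^3*v^5 + (469751/768000:ℝ)*u^4*v'^5 + (815161/307200:ℝ)*u^4*v^1*v'^4 + (1515581/307200:ℝ)*u^4*v^2*v'^3 + (3193903/614400:ℝ)*u^4*v^3*v'^2 + (304499/98304:ℝ)*u^4*v^4*v'^1 + (18812557/24576000:ℝ)*u^4*v^5 + (818981/1920000:ℝ)*u^5*v'^5 + (1573867/768000:ℝ)*u^5*v^1*v'^4 + (3083639/768000:ℝ)*u^5*v^2*v'^3 + (6231373/1536000:ℝ)*u^5*v^3*v'^2 + (13039601/6144000:ℝ)*u^5*v^4*v'^1 + (27809767/61440000:ℝ)*u^5*v^5 + (2138287/11520000:ℝ)*u^6*v'^5 + (4248449/4608000:ℝ)*u^6*v^1*v'^4 + (8468773/4608000:ℝ)*u^6*v^2*v'^3 + (16965671/9216000:ℝ)*u^6*v^3*v'^2 + (34184467/36864000:ℝ)*u^6*v^4*v'^1 + (69128309/368640000:ℝ)*u^6*v^5 + (4451/78750:ℝ)*u^7*v'^5 + (4451/15750:ℝ)*u^7*v^1*v'^4 + (4451/7875:ℝ)*u^7*v^2*v'^3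 + (4451/7875:ℝ)*u^7*v^3*v'^2 + (4451/15750:ℝ)*u^7*v^4*v'^1 + (4451/78750:ℝ)*u^7*v^5 := by
    rw [hv', hu, hv]; ring
  rw [key]; positivity

theorem pB2_3 (x y : ℝ) (hx0 : (7/5:ℝ) ≤ x) (hy0 : (3/4:ℝ) ≤ y) (hy1 : y ≤ (1:ℝ)) :
    0 ≤ ((4451/2000:ℝ) * (1 + 2*(x - 7/5) + (2*(x - 7/5))^2/2 + (2*(x - 7/5))^3/6 + (2*(x - 7/5))^4/24 + (2*(x - 7/5))^5/120 + (2*(x - 7/5))^6/720 + (2*(x - 7/5))^7/5040)) - x^2 + (y*x)^2 - (y*x)^2*((1-y)*x)^2*(1 + 64/25*(y*x) + (y*x)/2*(25/32*x - 1)) := by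
  obtain ⟨u, hu⟩ : ∃ u : ℝ, x = (7/5:ℝ) + u := ⟨(x - (7/5:ℝ)), by ring⟩
  obtain ⟨v, hv⟩ : ∃ v : ℝ, y = (3/4:ℝ) + (1/4:ℝ)*v := ⟨(y - (3/4:ℝ))/(1/4:ℝ), by ring⟩
  have hu0 : 0 ≤ u := by linarith
  have hv0 : 0 ≤ v := by linarith
  obtain ⟨v', hv'⟩ : ∃ v' : ℝ, v' = 1 - v := ⟨_, rfl⟩
  have hv1 : 0 ≤ v' := by linarith
  have key : ((4451/2000:ℝ) * (1 + 2*(x - 7/5) + (2*(x - 7/5))^2/2 + (2*(x - 7/5))^3/6 + (2*(x - 7/5))^4/24 + (2*(x - 7/5))^5/120 + (2*(x - 7/5))^6/720 + (2*(x - 7/5))^7/5040)) - x^2 + (y*x)^2 - (y*x)^2*((1-y)*x)^2*(1 + 64/25*(y*x) + (y*x)/2*(25/32*x - 1)) =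
      (4419918081/5120000000:ℝ)*v'^5 + (7169382081/1280000000:ℝ)*v^1*v'^4 + (4534602027/320000000:ℝ)*v^2*v'^3 + (1387290003/80000000:ℝ)*v^3*v'^2 + (4059/400:ℝ)*v^4*v'^1 + (4451/2000:ℝ)*v^5 + (149959729/102400000:ℝ)*u^1*v'^5 + (262718129/25600000:ℝ)*u^1*v^1*v'^4 + (176531643/6400000:ℝ)*u^1*v^2*v'^3 + (56221027/1600000:ℝ)*u^1*v^3*v'^2 + (4171/200:ℝ)*u^1*v^4*v'^1 + (4451/1000:ℝ)*u^1*v^5 + (62099923/40960000:ℝ)*u^2*v'^5 + (108449363/10240000:ℝ)*u^2*v^1*v'^4 + (73588721/2560000:ℝ)*u^2*v^2*v'^3 + (23614569/640000:ℝ)*u^2*v^3*v'^2 + (4351/200:ℝ)*u^2*v^4*v'^1 + (4451/1000:ℝ)*u^2*v^5 + (7007909/6144000:ℝ)*u^3*v'^5 + (11666533/1536000:ℝ)*u^3*v^1*v'^4 + (7720631/384000:ℝ)*u^3*v^2*v'^3 + (2444159/96000:ℝ)*u^3*v^3*v'^2 + (4451/300:ℝ)*u^3*v^4*v'^1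 + (4451/1500:ℝ)*u^3*v^5 + (18812557/24576000:ℝ)*u^4*v'^5 + (5600041/1228800:ℝ)*u^4*v^1*v'^4 + (678151/61440:ℝ)*u^4*v^2*v'^3 + (202063/15360:ℝ)*u^4*v^3*v'^2 + (4451/600:ℝ)*u^4*v^4*v'^1 + (4451/3000:ℝ)*u^4*v^5 + (27809767/61440000:ℝ)*u^5*v'^5 + (7385083/3072000:ℝ)*u^5*v^1*v'^4 + (3980969/768000:ℝ)*u^5*v^2*v'^3 + (1075361/192000:ℝ)*u^5*v^3*v'^2 + (4451/1500:ℝ)*u^5*v^4*v'^1 + (4451/7500:ℝ)*u^5*v^5 + (69128309/368640000:ℝ)*u^6*v'^5 + (17471921/18432000:ℝ)*u^6*v^1*v'^4 + (8862523/4608000:ℝ)*u^6*v^2*v'^3 + (2250787/1152000:ℝ)*u^6*v^3*v'^2 + (4451/4500:ℝ)*u^6*v^4*v'^1 + (4451/22500:ℝ)*u^6*v^5 + (4451/78750:ℝ)*u^7*v'^5 + (4451/15750:ℝ)*u^7*v^1*v'^4 + (4451/7875:ℝ)*u^7*v^2*v'^3 + (4451/7875:ℝ)*u^7*v^3*v'^2 + (4451/15750:ℝ)*u^7*v^4*v'^1 + (4451/78750:ℝ)*u^7*v^5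 := by
    rw [hv', hu, hv]; ring
  rw [key]; positivity

theorem pB1_0 (x y : ℝ) (hx0 : (32/25:ℝ) ≤ x) (hx1 : x ≤ (7/5:ℝ)) (hy0 : (0:ℝ) ≤ y) (hy1 : y ≤ (1/4:ℝ)) :
    0 ≤ ((175067/100000:ℝ) * (1 + 2*(x - 32/25) + (2*(x - 32/25))^2/2 + (2*(x - 32/25))^3/6)) - x^2 + (y*x)^2 - (y*x)^2*((1-y)*x)^2*(1 + 64/25*(y*x) + (y*x)/2*(25/32*x - 1)) := by
  obtain ⟨u, hu⟩ : ∃ u : ℝ, x = (32/25:ℝ) + (3/25:ℝ)*u := ⟨(x - (32/25:ℝ))/(3/25:ℝ), by ring⟩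
  obtain ⟨v, hv⟩ : ∃ v : ℝ, y = (0:ℝ) + (1/4:ℝ)*v := ⟨(y - (0:ℝ))/(1/4:ℝ), by ring⟩
  have hu0 : 0 ≤ u := by linarith
  have hv0 : 0 ≤ v := by linarith
  obtain ⟨u', hu'⟩ : ∃ u' : ℝ, u' = 1 - u := ⟨_, rfl⟩
  obtain ⟨v', hv'⟩ : ∃ v' : ℝ, v' = 1 - v := ⟨_, rfl⟩
  have hu1 : 0 ≤ u' := by linarith
  have hv1 : 0 ≤ v' := by linarith
  have key : ((175067/100000:ℝ) * (1 + 2*(x - 32/25) + (2*(x - 32/25))^2/2 + (2*(x - 32/25))^3/6)) - x^2 + (y*x)^2 - (y*x)^2*((1-y)*x)^2*(1 + 64/25*(y*x) + (y*x)/2*(25/32*x - 1)) =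
      (11227/100000:ℝ)*u'^6*v'^5 + (11227/20000:ℝ)*u'^6*v^1*v'^4 + (6608299/6250000:ℝ)*u'^6*v^2*v'^3 + (3410275963/3906250000:ℝ)*u'^6*v^3*v'^2 + (2471574139/7812500000:ℝ)*u'^6*v^4*v'^1 + (335849599/7812500000:ℝ)*u'^6*v^5 + (491613/625000:ℝ)*u^1*u'^5*v'^5 + (491613/125000:ℝ)*u^1*u'^5*v^1*v'^4 + (11609157/1562500:ℝ)*u^1*u'^5*v^2*v'^3 + (6055824597/976562500:ℝ)*u^1*u'^5*v^3*v'^2 + (4473437541/1953125000:ℝ)*u^1*u'^5*v^4*v'^1 + (619237281/1953125000:ℝ)*u^1*u'^5*v^5 + (142804581/62500000:ℝ)*u^2*u'^4*v'^5 + (142804581/12500000:ℝ)*u^2*u'^4*v^1*v'^4 + (13526019/625000:ℝ)*u^2*u'^4*v^2*v'^3 + (178104273/9765625:ℝ)*u^2*u'^4*v^3*v'^2 + (2141011779/312500000:ℝ)*u^2*u'^4*v^4*v'^1 + (301531419/312500000:ℝ)*u^2*u'^4*v^5 + (1376218253/390625000:ℝ)*u^3*u'^3*v'^5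 + (1376218253/78125000:ℝ)*u^3*u'^3*v^1*v'^4 + (653403439/19531250:ℝ)*u^3*u'^3*v^2*v'^3 + (277715612/9765625:ℝ)*u^3*u'^3*v^3*v'^2 + (847279463/78125000:ℝ)*u^3*u'^3*v^4*v'^1 + (606188803/390625000:ℝ)*u^3*u'^3*v^5 + (4752928761/1562500000:ℝ)*u^4*u'^2*v'^5 + (4752928761/312500000:ℝ)*u^4*u'^2*v^1*v'^4 + (2261848443/78125000:ℝ)*u^4*u'^2*v^2*v'^3 + (7750952697/312500000:ℝ)*u^4*u'^2*v^3*v'^2 + (23966364063/2500000000:ℝ)*u^4*u'^2*v^4*v'^1 + (17396769963/12500000000:ℝ)*u^4*u'^2*v^5 + (272383167/195312500:ℝ)*u^5*u'^1*v'^5 + (272383167/39062500:ℝ)*u^5*u'^1*v^1*v'^4 + (1039198293/78125000:ℝ)*u^5*u'^1*v^2*v'^3 + (14344664313/1250000000:ℝ)*u^5*u'^1*v^3*v'^2 + (11221691313/2500000000:ℝ)*u^5*u'^1*v^4*v'^1 + (66023929629/100000000000:ℝ)*u^5*u'^1*v^5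 + (414505687/1562500000:ℝ)*u^6*v'^5 + (414505687/312500000:ℝ)*u^6*v^1*v'^4 + (396130687/156250000:ℝ)*u^6*v^2*v'^3 + (88040706247/40000000000:ℝ)*u^6*v^3*v'^2 + (69608706997/80000000000:ℝ)*u^6*v^4*v'^1 + (414403913851/3200000000000:ℝ)*u^6*v^5 := by
    rw [hu', hv', hu, hv]; ring
  rw [key]; positivity

theorem pB1_1 (x y : ℝ) (hx0 : (32/25:ℝ) ≤ x) (hx1 : x ≤ (7/5:ℝ)) (hy0 : (1/4:ℝ) ≤ y) (hy1 : y ≤ (1/2:ℝ)) :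
    0 ≤ ((175067/100000:ℝ) * (1 + 2*(x - 32/25) + (2*(x - 32/25))^2/2 + (2*(x - 32/25))^3/6)) - x^2 + (y*x)^2 - (y*x)^2*((1-y)*x)^2*(1 + 64/25*(y*x) + (y*x)/2*(25/32*x - 1)) := by
  obtain ⟨u, hu⟩ : ∃ u : ℝ, x = (32/25:ℝ) + (3/25:ℝ)*u := ⟨(x - (32/25:ℝ))/(3/25:ℝ), by ring⟩
  obtain ⟨v, hv⟩ : ∃ v : ℝ, y = (1/4:ℝ) + (1/4:ℝ)*v := ⟨(y - (1/4:ℝ))/(1/4:ℝ), by ring⟩
  have hu0 : 0 ≤ u := by linarith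
  have hv0 : 0 ≤ v := by linarith
  obtain ⟨u', hu'⟩ : ∃ u' : ℝ, u' = 1 - u := ⟨_, rfl⟩
  obtain ⟨v', hv'⟩ : ∃ v' : ℝ, v' = 1 - v := ⟨_, rfl⟩
  have hu1 : 0 ≤ u' := by linarith
  have hv1 : 0 ≤ v' := by linarith
  have key : ((175067/100000:ℝ) * (1 + 2*(x - 32/25) + (2*(x - 32/25))^2/2 + (2*(x - 32/25))^3/6)) - x^2 + (y*x)^2 - (y*x)^2*((1-y)*x)^2*(1 + 64/25*(y*x) + (y*x)/2*(25/32*x - 1)) =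
      (335849599/7812500000:ℝ)*u'^6*v'^5 + (886921851/7812500000:ℝ)*u'^6*v^1*v'^4 + (240971387/3906250000:ℝ)*u'^6*v^2*v'^3 + (21312639/781250000:ℝ)*u'^6*v^3*v'^2 + (968270459/7812500000:ℝ)*u'^6*v^4*v'^1 + (618905727/7812500000:ℝ)*u'^6*v^5 + (619237281/1953125000:ℝ)*u^1*u'^5*v'^5 + (1718935269/1953125000:ℝ)*u^1*u'^5*v^1*v'^4 + (546820053/976562500:ℝ)*u^1*u'^5*v^2*v'^3 + (33493041/195312500:ℝ)*u^1*u'^5*v^3*v'^2 + (1364439621/1953125000:ℝ)*u^1*u'^5*v^4*v'^1 + (914616513/1953125000:ℝ)*u^1*u'^5*v^5 + (301531419/312500000:ℝ)*u^2*u'^4*v'^5 + (874302411/312500000:ℝ)*u^2*u'^4*v^1*v'^4 + (19765602/9765625:ℝ)*u^2*u'^4*v^2*v'^3 + (8562087/15625000:ℝ)*u^2*u'^4*v^3*v'^2 + (520253949/312500000:ℝ)*u^2*u'^4*v^4*v'^1 + (361678977/312500000:ℝ)*u^2*u'^4*v^5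 + (606188803/390625000:ℝ)*u^3*u'^3*v'^5 + (365098143/78125000:ℝ)*u^3*u'^3*v^1*v'^4 + (36624952/9765625:ℝ)*u^3*u'^3*v^2*v'^3 + (20262339/19531250:ℝ)*u^3*u'^3*v^3*v'^2 + (168540013/78125000:ℝ)*u^3*u'^3*v^4*v'^1 + (598369653/390625000:ℝ)*u^3*u'^3*v^5 + (17396769963/12500000000:ℝ)*u^4*u'^2*v'^5 + (10827175863/2500000000:ℝ)*u^4*u'^2*v^1*v'^4 + (1181358597/312500000:ℝ)*u^4*u'^2*v^2*v'^3 + (352770147/312500000:ℝ)*u^4*u'^2*v^3*v'^2 + (502869711/312500000:ℝ)*u^4*u'^2*v^4*v'^1 + (1790030511/1562500000:ℝ)*u^4*u'^2*v^5 + (66023929629/100000000000:ℝ)*u^5*u'^1*v'^5 + (21137164377/10000000000:ℝ)*u^5*u'^1*v^1*v'^4 + (4939727751/2500000000:ℝ)*u^5*u'^1*v^2*v'^3 + (804447063/1250000000:ℝ)*u^5*u'^1*v^3*v'^2 + (820410969/1250000000:ℝ)*u^5*u'^1*v^4*v'^1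 + (1434838797/3125000000:ℝ)*u^5*u'^1*v^5 + (414403913851/3200000000000:ℝ)*u^6*v'^5 + (135969085863/320000000000:ℝ)*u^6*v^1*v'^4 + (33615670369/80000000000:ℝ)*u^6*v^2*v'^3 + (5934211497/40000000000:ℝ)*u^6*v^3*v'^2 + (4571981311/40000000000:ℝ)*u^6*v^4*v'^1 + (7704615843/100000000000:ℝ)*u^6*v^5 := by
    rw [hu', hv', hu, hv]; ring
  rw [key]; positivity

theorem pB1_2 (x y : ℝ) (hx0 : (32/25:ℝ) ≤ x) (hx1 : x ≤ (7/5:ℝ)) (hy0 : (1/2:ℝ) ≤ y) (hy1 : y ≤ (1:ℝ)) :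
    0 ≤ ((175067/100000:ℝ) * (1 + 2*(x - 32/25) + (2*(x - 32/25))^2/2 + (2*(x - 32/25))^3/6)) - x^2 + (y*x)^2 - (y*x)^2*((1-y)*x)^2*(1 + 64/25*(y*x) + (y*x)/2*(25/32*x - 1)) := by
  obtain ⟨u, hu⟩ : ∃ u : ℝ, x = (32/25:ℝ) + (3/25:ℝ)*u := ⟨(x - (32/25:ℝ))/(3/25:ℝ), by ring⟩
  obtain ⟨v, hv⟩ : ∃ v : ℝ, y = (1/2:ℝ) + (1/2:ℝ)*v := ⟨(y - (1/2:ℝ))/(1/2:ℝ), by ring⟩
  have hu0 : 0 ≤ u := by linarith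
  have hv0 : 0 ≤ v := by linarith
  obtain ⟨u', hu'⟩ : ∃ u' : ℝ, u' = 1 - u := ⟨_, rfl⟩
  obtain ⟨v', hv'⟩ : ∃ v' : ℝ, v' = 1 - v := ⟨_, rfl⟩
  have hu1 : 0 ≤ u' := by linarith
  have hv1 : 0 ≤ v' := by linarith
  have key : ((175067/100000:ℝ) * (1 + 2*(x - 32/25) + (2*(x - 32/25))^2/2 + (2*(x - 32/25))^3/6)) - x^2 + (y*x)^2 - (y*x)^2*((1-y)*x)^2*(1 + 64/25*(y*x) + (y*x)/2*(25/32*x - 1)) =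
      (618905727/7812500000:ℝ)*u'^6*v'^5 + (7347044987/7812500000:ℝ)*u'^6*v^1*v'^4 + (16657764987/3906250000:ℝ)*u'^6*v^2*v'^3 + (33174172283/3906250000:ℝ)*u'^6*v^3*v'^2 + (142299/20000:ℝ)*u'^6*v^4*v'^1 + (175067/100000:ℝ)*u'^6*v^5 + (914616513/1953125000:ℝ)*u^1*u'^5*v'^5 + (10990368453/1953125000:ℝ)*u^1*u'^5*v^1*v'^4 + (25454328453/976562500:ℝ)*u^1*u'^5*v^2*v'^3 + (51447676677/976562500:ℝ)*u^1*u'^5*v^3*v'^2 + (5560413/125000:ℝ)*u^1*u'^5*v^4*v'^1 + (6827613/625000:ℝ)*u^1*u'^5*v^5 + (361678977/312500000:ℝ)*u^2*u'^4*v'^5 + (4384676757/312500000:ℝ)*u^2*u'^4*v^1*v'^4 + (10374990057/156250000:ℝ)*u^2*u'^4*v^2*v'^3 + (21285302913/156250000:ℝ)*u^2*u'^4*v^3*v'^2 + (1449124581/12500000:ℝ)*u^2*u'^4*v^4*v'^1 + (1775704581/62500000:ℝ)*u^2*u'^4*v^5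 + (598369653/390625000:ℝ)*u^3*u'^3*v'^5 + (1458028933/78125000:ℝ)*u^3*u'^3*v^1*v'^4 + (3524945433/39062500:ℝ)*u^3*u'^3*v^2*v'^3 + (7341709873/39062500:ℝ)*u^3*u'^3*v^3*v'^2 + (12594218253/78125000:ℝ)*u^3*u'^3*v^4*v'^1 + (15398718253/390625000:ℝ)*u^3*u'^3*v^5 + (1790030511/1562500000:ℝ)*u^4*u'^2*v'^5 + (4364352111/312500000:ℝ)*u^4*u'^2*v^1*v'^4 + (10781378361/156250000:ℝ)*u^4*u'^2*v^2*v'^3 + (22800287661/156250000:ℝ)*u^4*u'^2*v^3*v'^2 + (39420928761/312500000:ℝ)*u^4*u'^2*v^4*v'^1 + (48087928761/1562500000:ℝ)*u^4*u'^2*v^5 + (1434838797/3125000000:ℝ)*u^5*u'^1*v'^5 + (1742052711/312500000:ℝ)*u^5*u'^1*v^1*v'^4 + (4397765211/156250000:ℝ)*u^5*u'^1*v^2*v'^3 + (4722461793/78125000:ℝ)*u^5*u'^1*v^3*v'^2 + (2057383167/39062500:ℝ)*u^5*u'^1*v^4*v'^1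 + (2503633167/195312500:ℝ)*u^5*u'^1*v^5 + (7704615843/100000000000:ℝ)*u^6*v'^5 + (9270933109/10000000000:ℝ)*u^6*v^1*v'^4 + (23921933109/5000000000:ℝ)*u^6*v^2*v'^3 + (26093341367/2500000000:ℝ)*u^6*v^3*v'^2 + (2864505687/312500000:ℝ)*u^6*v^4*v'^1 + (3477005687/1562500000:ℝ)*u^6*v^5 := by
    rw [hu', hv', hu, hv]; ring
  rw [key]; positivity

theorem pC (x y : ℝ) (hx0 : (0:ℝ) ≤ x) (hx1 : x ≤ (7/25:ℝ)) (hy0 : (0:ℝ) ≤ y) (hy1 : y ≤ (1:ℝ)) :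
    0 ≤ x^2 + 4/3*x^3 + (1/2 + y*(x+1/2))^2 - (1/2 + y*(x+1/2))^2*((1-y)*(x+1/2))^2*(1 + 64/25*(1/2 + y*(x+1/2))) := by
  obtain ⟨u, hu⟩ : ∃ u : ℝ, x = (0:ℝ) + (7/25:ℝ)*u := ⟨(x - (0:ℝ))/(7/25:ℝ), by ring⟩
  obtain ⟨v, hv⟩ : ∃ v : ℝ, y = (0:ℝ) + (1:ℝ)*v := ⟨(y - (0:ℝ))/(1:ℝ), by ring⟩
  have hu0 : 0 ≤ u := by linarith
  have hv0 : 0 ≤ v := by linarith
  obtain ⟨u', hu'⟩ : ∃ u' : ℝ, u' = 1 - u := ⟨_, rfl⟩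
  obtain ⟨v', hv'⟩ : ∃ v' : ℝ, v' = 1 - v := ⟨_, rfl⟩
  have hu1 : 0 ≤ u' := by linarith
  have hv1 : 0 ≤ v' := by linarith
  have key : x^2 + 4/3*x^3 + (1/2 + y*(x+1/2))^2 - (1/2 + y*(x+1/2))^2*((1-y)*(x+1/2))^2*(1 + 64/25*(1/2 + y*(x+1/2))) =
      (43/400:ℝ)*u'^5*v'^5 + (383/400:ℝ)*u'^5*v^1*v'^4 + (329/100:ℝ)*u'^5*v^2*v'^3 + (134/25:ℝ)*u'^5*v^3*v'^2 + (4:ℝ)*u'^5*v^4*v'^1 + (1:ℝ)*u'^5*v^5 + (3779/10000:ℝ)*u^1*u'^4*v'^5 + (7951/2000:ℝ)*u^1*u'^4*v^1*v'^4 + (9667/625:ℝ)*u^1*u'^4*v^2*v'^3 + (34557/1250:ℝ)*u^1*u'^4*v^3*v'^2 + (549/25:ℝ)*u^1*u'^4*v^4*v'^1 + (139/25:ℝ)*u^1*u'^4*v^5 + (58789/125000:ℝ)*u^2*u'^3*v'^5 + (780193/125000:ℝ)*u^2*u'^3*v^1*v'^4 + (1777573/62500:ℝ)*u^2*u'^3*v^2*v'^3 + (3549591/62500:ℝ)*u^2*u'^3*v^3*v'^2 + (30292/625:ℝ)*u^2*u'^3*v^4*v'^1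 + (7748/625:ℝ)*u^2*u'^3*v^5 + (92927/375000:ℝ)*u^3*u'^2*v'^5 + (42458239/9375000:ℝ)*u^3*u'^2*v^1*v'^4 + (118932667/4687500:ℝ)*u^3*u'^2*v^2*v'^3 + (2174339/37500:ℝ)*u^3*u'^2*v^3*v'^2 + (504262/9375:ℝ)*u^3*u'^2*v^4*v'^1 + (649672/46875:ℝ)*u^3*u'^2*v^5 + (44081/750000:ℝ)*u^4*u'^1*v'^5 + (27142981/18750000:ℝ)*u^4*u'^1*v^1*v'^4 + (633407299/58593750:ℝ)*u^4*u'^1*v^2*v'^3 + (3433323203/117187500:ℝ)*u^4*u'^1*v^3*v'^2 + (281384/9375:ℝ)*u^4*u'^1*v^4*v'^1 + (364169/46875:ℝ)*u^4*u'^1*v^5 + (8161/750000:ℝ)*u^5*v'^5 + (2667953/18750000:ℝ)*u^5*v^1*v'^4 + (199431673/117187500:ℝ)*u^5*v^2*v'^3 + (17047172299/2929687500:ℝ)*u^5*v^3*v'^2 + (63127/9375:ℝ)*u^5*v^4*v'^1 + (81847/46875:ℝ)*u^5*v^5 := by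
    rw [hu', hv', hu, hv]; ring
  rw [key]; positivity

theorem pI_0 (x y : ℝ) (hx0 : (0:ℝ) ≤ x) (hx1 : x ≤ (7/100:ℝ)) (hy0 : (1/4:ℝ) ≤ y) (hy1 : y ≤ (3/8:ℝ)) :
    0 ≤ x^2 + 4/3*x^3 + y^2 - y^2*(1 + x - y)^2*(1 + 2*y + 7/4*y^2*(1-y)) := by
  obtain ⟨u, hu⟩ : ∃ u : ℝ, x = (0:ℝ) + (7/100:ℝ)*u := ⟨(x - (0:ℝ))/(7/100:ℝ), by ring⟩
  obtain ⟨v, hv⟩ : ∃ v : ℝ, y = (1/4:ℝ) + (1/8:ℝ)*v := ⟨(y - (1/4:ℝ))/(1/8:ℝ), by ring⟩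
  have hu0 : 0 ≤ u := by linarith
  have hv0 : 0 ≤ v := by linarith
  obtain ⟨u', hu'⟩ : ∃ u' : ℝ, u' = 1 - u := ⟨_, rfl⟩
  obtain ⟨v', hv'⟩ : ∃ v' : ℝ, v' = 1 - v := ⟨_, rfl⟩
  have hu1 : 0 ≤ u' := by linarith
  have hv1 : 0 ≤ v' := by linarith
  have key : x^2 + 4/3*x^3 + y^2 - y^2*(1 + x - y)^2*(1 + 2*y + 7/4*y^2*(1-y)) =
      (451/65536:ℝ)*u'^3*v'^7 + (8179/131072:ℝ)*u'^3*v^1*v'^6 + (63151/262144:ℝ)*u'^3*v^2*v'^5 + (268975/524288:ℝ)*u'^3*v^3*v'^4 + (682185/1048576:ℝ)*u'^3*v^4*v'^3 + (1029753/2097152:ℝ)*u'^3*v^5*v'^2 + (856197/4194304:ℝ)*u'^3*v^6*v'^1 + (302373/8388608:ℝ)*u'^3*v^7 + (3363/327680:ℝ)*u^1*u'^2*v'^7 + (340089/3276800:ℝ)*u^1*u'^2*v^1*v'^6 + (2867759/6553600:ℝ)*u^1*u'^2*v^2*v'^5 + (13128017/13107200:ℝ)*u^1*u'^2*v^3*v'^4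 + (7068033/5242880:ℝ)*u^1*u'^2*v^4*v'^3 + (56056643/52428800:ℝ)*u^1*u'^2*v^5*v'^2 + (48581661/104857600:ℝ)*u^1*u'^2*v^6*v'^1 + (3553047/41943040:ℝ)*u^1*u'^2*v^7 + (10999/2560000:ℝ)*u^2*u'^1*v'^7 + (2076587/40960000:ℝ)*u^2*u'^1*v^1*v'^6 + (7912739/32768000:ℝ)*u^2*u'^1*v^2*v'^5 + (7979307/13107200:ℝ)*u^2*u'^1*v^3*v'^4 + (290025659/327680000:ℝ)*u^2*u'^1*v^4*v'^3 + (244762391/327680000:ℝ)*u^2*u'^1*v^5*v'^2 + (892430491/2621440000:ℝ)*u^2*u'^1*v^6*v'^1 + (340124651/5242880000:ℝ)*u^2*u'^1*v^7 + (1054057/768000000:ℝ)*u^3*v'^7 + (9610099/768000000:ℝ)*u^3*v^1*v'^6 + (222815359/4096000000:ℝ)*u^3*v^2*v'^5 + (669550343/4915200000:ℝ)*u^3*v^3*v'^4 + (1000522103/4915200000:ℝ)*u^3*v^4*v'^3 + (2922715861/16384000000:ℝ)*u^3*v^5*v'^2 + (16605314569/196608000000:ℝ)*u^3*v^6*v'^1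 + (6553098359/393216000000:ℝ)*u^3*v^7 := by
    rw [hu', hv', hu, hv]; ring
  rw [key]; positivity

theorem pI_1 (x y : ℝ) (hx0 : (7/100:ℝ) ≤ x) (hx1 : x ≤ (7/50:ℝ)) (hy0 : (1/4:ℝ) ≤ y) (hy1 : y ≤ (3/8:ℝ)) :
    0 ≤ x^2 + 4/3*x^3 + y^2 - y^2*(1 + x - y)^2*(1 + 2*y + 7/4*y^2*(1-y)) := by
  obtain ⟨u, hu⟩ : ∃ u : ℝ, x = (7/100:ℝ) + (7/100:ℝ)*u := ⟨(x - (7/100:ℝ))/(7/100:ℝ), by ring⟩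
  obtain ⟨v, hv⟩ : ∃ v : ℝ, y = (1/4:ℝ) + (1/8:ℝ)*v := ⟨(y - (1/4:ℝ))/(1/8:ℝ), by ring⟩
  have hu0 : 0 ≤ u := by linarith
  have hv0 : 0 ≤ v := by linarith
  obtain ⟨u', hu'⟩ : ∃ u' : ℝ, u' = 1 - u := ⟨_, rfl⟩
  obtain ⟨v', hv'⟩ : ∃ v' : ℝ, v' = 1 - v := ⟨_, rfl⟩
  have hu1 : 0 ≤ u' := by linarith
  have hv1 : 0 ≤ v' := by linarith
  have key : x^2 + 4/3*x^3 + y^2 - y^2*(1 + x - y)^2*(1 + 2*y + 7/4*y^2*(1-y)) =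
      (1054057/768000000:ℝ)*u'^3*v'^7 + (9610099/768000000:ℝ)*u'^3*v^1*v'^6 + (222815359/4096000000:ℝ)*u'^3*v^2*v'^5 + (669550343/4915200000:ℝ)*u'^3*v^3*v'^4 + (1000522103/4915200000:ℝ)*u'^3*v^4*v'^3 + (2922715861/16384000000:ℝ)*u'^3*v^5*v'^2 + (16605314569/196608000000:ℝ)*u'^3*v^6*v'^1 + (6553098359/393216000000:ℝ)*u'^3*v^7 + (504107/128000000:ℝ)*u^1*u'^2*v'^7 + (24966117/1024000000:ℝ)*u^1*u'^2*v^1*v'^6 + (347799779/4096000000:ℝ)*u^1*u'^2*v^2*v'^5 + (341687311/1638400000:ℝ)*u^1*u'^2*v^3*v'^4 + (550915911/1638400000:ℝ)*u^1*u'^2*v^4*v'^3 + (41391997/128000000:ℝ)*u^1*u'^2*v^5*v'^2 + (10899866863/65536000000:ℝ)*u^1*u'^2*v^6*v'^1 + (4603080443/131072000000:ℝ)*u^1*u'^2*v^7 + (9775887/1024000000:ℝ)*u^2*u'^1*v'^7 + (104761393/2048000000:ℝ)*u^2*u'^1*v^1*v'^6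 + (509764183/4096000000:ℝ)*u^2*u'^1*v^2*v'^5 + (329549997/1638400000:ℝ)*u^2*u'^1*v^3*v'^4 + (820671089/3276800000:ℝ)*u^2*u'^1*v^4*v'^3 + (7275626139/32768000000:ℝ)*u^2*u'^1*v^5*v'^2 + (7541747301/65536000000:ℝ)*u^2*u'^1*v^6*v'^1 + (3303200211/131072000000:ℝ)*u^2*u'^1*v^7 + (22850249/3072000000:ℝ)*u^3*v'^7 + (261037261/6144000000:ℝ)*u^3*v^1*v'^6 + (424117747/4096000000:ℝ)*u^3*v^2*v'^5 + (711814369/4915200000:ℝ)*u^3*v^3*v'^4 + (1314913943/9830400000:ℝ)*u^3*v^4*v'^3 + (2839410501/32768000000:ℝ)*u^3*v^5*v'^2 + (7160363627/196608000000:ℝ)*u^3*v^6*v'^1 + (2833288447/393216000000:ℝ)*u^3*v^7 := by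
    rw [hu', hv', hu, hv]; ring
  rw [key]; positivity

theorem pI_2 (x y : ℝ) (hx0 : (0:ℝ) ≤ x) (hx1 : x ≤ (7/50:ℝ)) (hy0 : (3/8:ℝ) ≤ y) (hy1 : y ≤ (1/2:ℝ)) :
    0 ≤ x^2 + 4/3*x^3 + y^2 - y^2*(1 + x - y)^2*(1 + 2*y + 7/4*y^2*(1-y)) := by
  obtain ⟨u, hu⟩ : ∃ u : ℝ, x = (0:ℝ) + (7/50:ℝ)*u := ⟨(x - (0:ℝ))/(7/50:ℝ), by ring⟩
  obtain ⟨v, hv⟩ : ∃ v : ℝ, y = (3/8:ℝ) + (1/8:ℝ)*v := ⟨(y - (3/8:ℝ))/(1/8:ℝ), by ring⟩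
  have hu0 : 0 ≤ u := by linarith
  have hv0 : 0 ≤ v := by linarith
  obtain ⟨u', hu'⟩ : ∃ u' : ℝ, u' = 1 - u := ⟨_, rfl⟩
  obtain ⟨v', hv'⟩ : ∃ v' : ℝ, v' = 1 - v := ⟨_, rfl⟩
  have hu1 : 0 ≤ u' := by linarith
  have hv1 : 0 ≤ v' := by linarith
  have key : x^2 + 4/3*x^3 + y^2 - y^2*(1 + x - y)^2*(1 + 2*y + 7/4*y^2*(1-y)) =
      (302373/8388608:ℝ)*u'^3*v'^7 + (630207/2097152:ℝ)*u'^3*v^1*v'^6 + (560601/524288:ℝ)*u'^3*v^2*v'^5 + (275835/131072:ℝ)*u'^3*v^3*v'^4 + (81055/32768:ℝ)*u'^3*v^4*v'^3 + (14221/8192:ℝ)*u'^3*v^5*v'^2 + (1379/2048:ℝ)*u'^3*v^6*v'^1 + (57/512:ℝ)*u'^3*v^7 + (2570499/41943040:ℝ)*u^1*u'^2*v'^7 + (28509459/52428800:ℝ)*u^1*u'^2*v^1*v'^6 + (26773231/13107200:ℝ)*u^1*u'^2*v^2*v'^5 + (2762543/655360:ℝ)*u^1*u'^2*v^3*v'^4 +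 (4231349/819200:ℝ)*u^1*u'^2*v^4*v'^3 + (770097/204800:ℝ)*u^1*u'^2*v^5*v'^2 + (77133/51200:ℝ)*u^1*u'^2*v^6*v'^1 + (3281/12800:ℝ)*u^1*u'^2*v^7 + (150924479/5242880000:ℝ)*u^2*u'^1*v'^7 + (369773057/1310720000:ℝ)*u^2*u'^1*v^1*v'^6 + (47161983/40960000:ℝ)*u^2*u'^1*v^2*v'^5 + (104362293/40960000:ℝ)*u^2*u'^1*v^3*v'^4 + (67835927/20480000:ℝ)*u^2*u'^1*v^4*v'^3 + (12984821/5120000:ℝ)*u^2*u'^1*v^5*v'^2 + (679049/640000:ℝ)*u^2*u'^1*v^6*v'^1 + (937/5000:ℝ)*u^2*u'^1*v^7 + (2833288447/393216000000:ℝ)*u^3*v'^7 + (6336327751/98304000000:ℝ)*u^3*v^1*v'^6 + (1043962797/4096000000:ℝ)*u^3*v^2*v'^5 + (347202863/614400000:ℝ)*u^3*v^3*v'^4 + (230011639/307200000:ℝ)*u^3*v^4*v'^3 + (75347521/128000000:ℝ)*u^3*v^5*v'^2 + (380191/1500000:ℝ)*u^3*v^6*v'^1 + (2159/46875:ℝ)*u^3*v^7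 := by
    rw [hu', hv', hu, hv]; ring
  rw [key]; positivity

theorem pI_3 (x y : ℝ) (hx0 : (7/50:ℝ) ≤ x) (hx1 : x ≤ (7/25:ℝ)) (hy0 : (1/4:ℝ) ≤ y) (hy1 : y ≤ (1/2:ℝ)) :
    0 ≤ x^2 + 4/3*x^3 + y^2 - y^2*(1 + x - y)^2*(1 + 2*y + 7/4*y^2*(1-y)) := by
  obtain ⟨u, hu⟩ : ∃ u : ℝ, x = (7/50:ℝ) + (7/50:ℝ)*u := ⟨(x - (7/50:ℝ))/(7/50:ℝ), by ring⟩
  obtain ⟨v, hv⟩ : ∃ v : ℝ, y = (1/4:ℝ) + (1/4:ℝ)*v := ⟨(y - (1/4:ℝ))/(1/4:ℝ), by ring⟩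
  have hu0 : 0 ≤ u := by linarith
  have hv0 : 0 ≤ v := by linarith
  obtain ⟨u', hu'⟩ : ∃ u' : ℝ, u' = 1 - u := ⟨_, rfl⟩
  obtain ⟨v', hv'⟩ : ∃ v' : ℝ, v' = 1 - v := ⟨_, rfl⟩
  have hu1 : 0 ≤ u' := by linarith
  have hv1 : 0 ≤ v' := by linarith
  have key : x^2 + 4/3*x^3 + y^2 - y^2*(1 + x - y)^2*(1 + 2*y + 7/4*y^2*(1-y)) =
      (22850249/3072000000:ℝ)*u'^3*v'^7 + (50542759/1536000000:ℝ)*u'^3*v^1*v'^6 + (7749371/128000000:ℝ)*u'^3*v^2*v'^5 + (3913823/38400000:ℝ)*u'^3*v^3*v'^4 + (8010353/38400000:ℝ)*u'^3*v^4*v'^3 + (8970049/32000000:ℝ)*u'^3*v^5*v'^2 + (138383/750000:ℝ)*u'^3*v^6*v'^1 + (2159/46875:ℝ)*u'^3*v^7 + (48998973/1024000000:ℝ)*u^1*u'^2*v'^7 + (115298093/512000000:ℝ)*u^1*u'^2*v^1*v'^6 + (6015247/16000000:ℝ)*u^1*u'^2*v^2*v'^5 +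 (3536621/12800000:ℝ)*u^1*u'^2*v^3*v'^4 + (2607921/12800000:ℝ)*u^1*u'^2*v^4*v'^3 + (10696369/32000000:ℝ)*u^1*u'^2*v^5*v'^2 + (2374687/8000000:ℝ)*u^1*u'^2*v^6*v'^1 + (11119/125000:ℝ)*u^1*u'^2*v^7 + (104473021/1024000000:ℝ)*u^2*u'^1*v'^7 + (280308211/512000000:ℝ)*u^2*u'^1*v^1*v'^6 + (291894029/256000000:ℝ)*u^2*u'^1*v^2*v'^5 + (29717759/25600000:ℝ)*u^2*u'^1*v^3*v'^4 + (8350147/12800000:ℝ)*u^2*u'^1*v^4*v'^3 + (10210513/32000000:ℝ)*u^2*u'^1*v^5*v'^2 + (3070823/16000000:ℝ)*u^2*u'^1*v^6*v'^1 + (475457/8000000:ℝ)*u^2*u'^1*v^7 + (200511817/3072000000:ℝ)*u^3*v'^7 + (584911097/1536000000:ℝ)*u^3*v^1*v'^6 + (230817811/256000000:ℝ)*u^3*v^2*v'^5 + (85595693/76800000:ℝ)*u^3*v^3*v'^4 + (30154279/38400000:ℝ)*u^3*v^4*v'^3 + (10942817/32000000:ℝ)*u^3*v^5*v'^2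 + (5050171/48000000:ℝ)*u^3*v^6*v'^1 + (484739/24000000:ℝ)*u^3*v^7 := by
    rw [hu', hv', hu, hv]; ring
  rw [key]; positivity

end Pool.Agent.H62.Jump
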