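import Pool.Agent.H62.Jump.Bern

/-! The final two-variable inequality. -/

namespace Pool.Agent.H62.Jump

theorem sq_le_exp (m : ℝ) (hm : 0 ≤ m) : m ^ 2 ≤ Real.exp (2 * (m - 1)) := by
  have h := Real.add_one_le_exp (m - 1)
  have h2 : Real.exp (2 * (m - 1)) = Real.exp (m - 1) ^ 2 := by
    rw [← Real.exp_nat_mul]; norm_num
  rw [h2]
  apply pow_le_pow_left₀ hm; linarith

/-- Taylor lower bounds for exp on nonnegatives -/
theorem exp_T3 (x : ℝ) (hx : 0 ≤ x) : 1 + x + x^2/2 + x^3/6 ≤ Real.exp x := by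
  have h := Real.sum_le_exp_of_nonneg hx 4
  simp only [Finset.sum_range_succ, Finset.sum_range_zero, Nat.factorial] at h
  norm_num at h
  linarith

theorem exp_T4 (x : ℝ) (hx : 0 ≤ x) : 1 + x + x^2/2 + x^3/6 + x^4/24 ≤ Real.exp x := by
  have h := Real.sum_le_exp_of_nonneg hx 5
  simp only [Finset.sum_range_succ, Finset.sum_range_zero, Nat.factorial] at h
  norm_num at h
  linarith

theorem exp_T7 (x : ℝ) (hx : 0 ≤ x) :
    1 + x + x^2/2 + x^3/6 + x^4/24 + x^5/120 + x^6/720 + x^7/5040 ≤ Real.exp x := by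
  have h := Real.sum_le_exp_of_nonneg hx 8
  simp only [Finset.sum_range_succ, Finset.sum_range_zero, Nat.factorial] at h
  norm_num at h
  linarith


theorem pW1 (a : ℝ) (ha : 0 ≤ a) : 0 ≤ 14/25*(1 + 2*a + (2*a)^2/2 + (2*a)^3/6 + (2*a)^4/24 + (2*a)^5/120 + (2*a)^6/720 + (2*a)^7/5040) - a*(7/4+9/4*a^2) := by
  rcases le_total a (5/4) with h | h
  · obtain ⟨u, hu⟩ : ∃ u : ℝ, a = 5/4*u := ⟨a/(5/4), by ring⟩
    have hu0 : 0 ≤ u := by linarith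
    obtain ⟨u', hu'⟩ : ∃ u' : ℝ, u' = 1 - u := ⟨_, rfl⟩
    have hu1 : 0 ≤ u' := by linarith
    have key : 14/25*(1 + 2*a + (2*a)^2/2 + (2*a)^3/6 + (2*a)^4/24 + (2*a)^5/120 + (2*a)^6/720 + (2*a)^7/5040) - a*(7/4+9/4*a^2) = (14/25:ℝ)*u^0*u'^7 + (1253/400:ℝ)*u^1*u'^6 + (1757/200:ℝ)*u^2*u'^5 + (52229/3840:ℝ)*u^3*u'^4 + (631/60:ℝ)*u^4*u'^3 + (7249/2400:ℝ)*u^5*u'^2 + (4139/115200:ℝ)*u^6*u'^1 + (48659/230400:ℝ)*u^7*u'^0 := by
      rw [hu', hu]; ring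
    rw [key]; positivity
  · obtain ⟨u, hu⟩ : ∃ u : ℝ, a = 5/4 + u := ⟨a - 5/4, by ring⟩
    have hu0 : 0 ≤ u := by linarith
    have key : 14/25*(1 + 2*a + (2*a)^2/2 + (2*a)^3/6 + (2*a)^4/24 + (2*a)^5/120 + (2*a)^6/720 + (2*a)^7/5040) - a*(7/4+9/4*a^2) = (48659/230400:ℝ)*u^0 + (66467/57600:ℝ)*u^1 + (22241/4800:ℝ)*u^2 + (21083/3600:ℝ)*u^3 + (3101/900:ℝ)*u^4 + (371/375:ℝ)*u^5 + (196/1125:ℝ)*u^6 + (16/1125:ℝ)*u^7 := by
      rw [hu]; ring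
    rw [key]; positivity

/-- `w(a) ≤ 14/25 a` -/
theorem W1 (a : ℝ) (ha : 0 ≤ a) : a^2*(7/4+9/4*a^2)*Real.exp (-(2*a)) ≤ 14/25*a := by
  have h1 := exp_T7 (2*a) (by linarith)
  have h2 := pW1 a ha
  have h3 : a*(7/4+9/4*a^2) ≤ 14/25*Real.exp (2*a) := by linarith
  have h4 : Real.exp (-(2*a)) * Real.exp (2*a) = 1 := by rw [← Real.exp_add]; simp
  have h5 : 0 < Real.exp (-(2*a)) := Real.exp_pos _
  have h6 : a*(7/4+9/4*a^2)*Real.exp (-(2*a)) ≤ 14/25 := by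
    calc a*(7/4+9/4*a^2)*Real.exp (-(2*a)) ≤ 14/25*Real.exp (2*a)*Real.exp (-(2*a)) :=
          mul_le_mul_of_nonneg_right h3 h5.le
      _ = 14/25 := by rw [mul_assoc, mul_comm (Real.exp (2*a)), h4]; ring
  nlinarith [mul_le_mul_of_nonneg_left h6 ha]

/-- `w(a) ≤ 7/4 a^2 (1-a)` for `a ≤ 1/2` -/
theorem W2 (a : ℝ) (ha : 0 ≤ a) (ha1 : a ≤ 1/2) :
    a^2*(7/4+9/4*a^2)*Real.exp (-(2*a)) ≤ 7/4*a^2*(1-a) := by
  have h1 := exp_T4 (2*a) (by linarith)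
  have h2 : 7/4+9/4*a^2 ≤ 7/4*(1-a)*(1 + 2*a + (2*a)^2/2 + (2*a)^3/6 + (2*a)^4/24) := by
    nlinarith [mul_nonneg ha (by linarith : (0:ℝ) ≤ 1/2 - a), pow_nonneg ha 2, pow_nonneg ha 3,
      pow_nonneg ha 4, mul_nonneg (pow_nonneg ha 2) (by linarith : (0:ℝ) ≤ 1/2 - a),
      mul_nonneg (pow_nonneg ha 3) (by linarith : (0:ℝ) ≤ 1/2 - a),
      mul_nonneg (pow_nonneg ha 4) (by linarith : (0:ℝ) ≤ 1/2 - a)]
  have h3 : 7/4+9/4*a^2 ≤ 7/4*(1-a)*Real.exp (2*a) := by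
    refine h2.trans (mul_le_mul_of_nonneg_left h1 (by linarith))
  have h4 : Real.exp (2*a) * Real.exp (-(2*a)) = 1 := by rw [← Real.exp_add]; simp
  have h5 : 0 < Real.exp (-(2*a)) := Real.exp_pos _
  have h6 : (7/4+9/4*a^2)*Real.exp (-(2*a)) ≤ 7/4*(1-a) := by
    calc (7/4+9/4*a^2)*Real.exp (-(2*a)) ≤ 7/4*(1-a)*Real.exp (2*a)*Real.exp (-(2*a)) :=
          mul_le_mul_of_nonneg_right h3 h5.le
      _ = 7/4*(1-a) := by rw [mul_assoc, h4]; ring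
  nlinarith [mul_le_mul_of_nonneg_left h6 (pow_nonneg ha 2)]

/-- small `a`: discriminant argument -/
theorem small_a (a μ : ℝ) (ha : 0 ≤ a) (ha1 : a ≤ 1/4) (hμ : 0 ≤ μ) :
    a^2*(1 + μ - a)^2*(1 + 2*a + 7/4*a^2*(1-a)) ≤ μ^2 + 4/3*μ^3 + a^2 := by
  set k0 : ℝ := 1 - a^2*(1 + 2*a + 7/4*a^2*(1-a)) with hk0
  set k1 : ℝ := 1 + a - 2*a^2 + 7/4*a^2*(1-a)^2 with hk1
  set k2 : ℝ := 3 - 2*a - 7/4*(1-a)^3 with hk2
  have hd : k1^2 ≤ k0*k2 := by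
    have : k0*k2 - k1^2 = 1/4 + 5/4*a - 7*a^2 + 7/2*a^3 := by rw [hk0, hk1, hk2]; ring
    have h2 : 0 ≤ 1/4 + 5/4*a - 7*a^2 + 7/2*a^3 := by
      nlinarith [mul_nonneg ha (by linarith : (0:ℝ) ≤ 1/4 - a), pow_nonneg ha 3]
    linarith
  have hk0pos : 0 < k0 := by
    have : a^2*(1 + 2*a + 7/4*a^2*(1-a)) ≤ 1/2 := by
      have h1 : a^2 ≤ 1/16 := by nlinarith
      have h2 : 1 + 2*a + 7/4*a^2*(1-a) ≤ 2 := by nlinarith [pow_nonneg ha 3]
      have h3 : 0 ≤ 1 + 2*a + 7/4*a^2*(1-a) := by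
        have : 0 ≤ 7/4*a^2*(1-a) := by apply mul_nonneg <;> nlinarith
        linarith
      nlinarith
    rw [hk0]; linarith
  have hq : 0 ≤ μ^2*k0 - 2*μ*a^2*k1 + a^4*k2 := by
    have h : k0*(μ^2*k0 - 2*μ*a^2*k1 + a^4*k2) = (k0*μ - a^2*k1)^2 + a^4*(k0*k2-k1^2) := by ring
    have h2 : 0 ≤ k0*(μ^2*k0 - 2*μ*a^2*k1 + a^4*k2) := by
      rw [h]; have := sub_nonneg.2 hd; positivity
    exact nonneg_of_mul_nonneg_right h2 hk0pos
  have he : μ^2 + a^2 - a^2*(1 + μ - a)^2*(1 + 2*a + 7/4*a^2*(1-a)) =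
      μ^2*k0 - 2*μ*a^2*k1 + a^4*k2 := by rw [hk0, hk1, hk2]; ring
  have h3 : 0 ≤ 4/3*μ^3 := by positivity
  linarith

/-- `m ≤ 32/25`, `m ≥ 1`, `a ≤ 1/2`. -/
theorem reg_I (a μ : ℝ) (ha : 0 ≤ a) (ha1 : a ≤ 1/2) (hμ : 0 ≤ μ) (hμ1 : μ ≤ 7/25) :
    a^2*(1 + μ - a)^2*(1 + 2*a + 7/4*a^2*(1-a)) ≤ μ^2 + 4/3*μ^3 + a^2 := by
  rcases le_total a (1/4) with h | h
  · exact small_a a μ ha h hμ
  rcases le_total μ (7/50) with h1 | h1
  · rcases le_total a (3/8) with h2 | h2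
    · rcases le_total μ (7/100) with h3 | h3
      · have := pI_0 μ a hμ h3 h h2; linarith
      · have := pI_1 μ a h3 h1 h h2; linarith
    · have := pI_2 μ a hμ h1 h2 ha1; linarith
  · have := pI_3 μ a h1 hμ1 h ha1; linarith

theorem reg_C (a μ : ℝ) (ha : 1/2 ≤ a) (hμ : 0 ≤ μ) (hμ1 : μ ≤ 7/25) (hb : a ≤ 1 + μ) :
    a^2*(1 + μ - a)^2*(1 + 64/25*a) ≤ μ^2 + 4/3*μ^3 + a^2 := by
  have hw : 0 < μ + 1/2 := by linarith
  obtain ⟨ψ, hψ⟩ : ∃ ψ : ℝ, a = 1/2 + ψ*(μ+1/2) :=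
    ⟨(a - 1/2)/(μ+1/2), by field_simp; ring⟩
  have h0 : 0 ≤ ψ := by
    by_contra h; push Not at h; nlinarith
  have h1 : ψ ≤ 1 := by
    by_contra h; push Not at h; nlinarith
  have := pC μ ψ hμ hμ1 h0 h1
  have e : 1 + μ - a = (1-ψ)*(μ+1/2) := by rw [hψ]; ring
  rw [e, hψ]; linarith


theorem reg_B (a b : ℝ) (ha : 0 ≤ a) (hb : 0 ≤ b) (hm : 32/25 ≤ a + b) :
    (a+b)^2 - a^2 + a^2*b^2*(1 + 64/25*a + a/2*(25/32*(a+b)-1)) ≤ Real.exp (2*(a+b-1)) := by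
  set m : ℝ := a + b with hm'
  have hmpos : 0 < m := by linarith
  obtain ⟨θ, hθ⟩ : ∃ θ : ℝ, a = θ*m := ⟨a/m, by field_simp⟩
  have h0 : 0 ≤ θ := by
    by_contra h; push Not at h; nlinarith
  have h1 : θ ≤ 1 := by
    by_contra h; push Not at h; nlinarith
  have hbθ : b = (1-θ)*m := by
    have : b = m - a := by rw [hm']; ring
    rw [this, hθ]; ring
  rw [hbθ, hθ]
  rcases le_total m (7/5) with h2 | h2
  · have e1 : Real.exp (2*(m-1)) = Real.exp (14/25) * Real.exp (2*(m-32/25)) := by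
      rw [← Real.exp_add]; ring_nf
    have e2 : (175067/100000:ℝ) ≤ Real.exp (14/25) := by
      have := exp_T7 (14/25) (by norm_num)
      refine le_trans ?_ this
      norm_num
    have e3 := exp_T3 (2*(m-32/25)) (by linarith)
    have e4 : 0 ≤ 1 + 2*(m-32/25) + (2*(m-32/25))^2/2 + (2*(m-32/25))^3/6 := by
      have : 0 ≤ m - 32/25 := by linarith
      positivity
    have e5 : (175067/100000:ℝ)*(1 + 2*(m-32/25) + (2*(m-32/25))^2/2 + (2*(m-32/25))^3/6)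
        ≤ Real.exp (2*(m-1)) := by
      rw [e1]; exact mul_le_mul e2 e3 e4 (Real.exp_pos _).le
    rcases le_total θ (1/2) with h3 | h3
    · rcases le_total θ (1/4) with h4 | h4
      · have := pB1_0 m θ hm h2 h0 h4; linarith
      · have := pB1_1 m θ hm h2 h4 h3; linarith
    · have := pB1_2 m θ hm h2 h3 h1; linarith
  · have e1 : Real.exp (2*(m-1)) = Real.exp (4/5) * Real.exp (2*(m-7/5)) := by
      rw [← Real.exp_add]; ring_nf
    have e2 : (4451/2000:ℝ) ≤ Real.exp (4/5) := by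
      have := exp_T7 (4/5) (by norm_num)
      refine le_trans ?_ this
      norm_num
    have e3 := exp_T7 (2*(m-7/5)) (by linarith)
    have e4 : 0 ≤ 1 + 2*(m-7/5) + (2*(m-7/5))^2/2 + (2*(m-7/5))^3/6 + (2*(m-7/5))^4/24
        + (2*(m-7/5))^5/120 + (2*(m-7/5))^6/720 + (2*(m-7/5))^7/5040 := by
      have : 0 ≤ m - 7/5 := by linarith
      positivity
    have e5 : (4451/2000:ℝ)*(1 + 2*(m-7/5) + (2*(m-7/5))^2/2 + (2*(m-7/5))^3/6 + (2*(m-7/5))^4/24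
        + (2*(m-7/5))^5/120 + (2*(m-7/5))^6/720 + (2*(m-7/5))^7/5040)
        ≤ Real.exp (2*(m-1)) := by
      rw [e1]; exact mul_le_mul e2 e3 e4 (Real.exp_pos _).le
    rcases le_total θ (1/2) with h3 | h3
    · rcases le_total θ (1/4) with h4 | h4
      · have := pB2_0 m θ h2 h0 h4; linarith
      · have := pB2_1 m θ h2 h4 h3; linarith
    · rcases le_total θ (3/4) with h4 | h4
      · have := pB2_2 m θ h2 h3 h4; linarith
      · have := pB2_3 m θ h2 h4 h1; linarith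

/-- The final two-variable inequality. -/
theorem FI (a b : ℝ) (ha : 0 ≤ a) (hb : 0 ≤ b) :
    (a+b)^2 - a^2 + a^2*b^2*(1 + 2*a + a^2*(7/4+9/4*a^2)*Real.exp (-(2*a))
      + a/2*max 0 (25/32*(a+b)-1)) ≤ Real.exp (2*(a+b-1)) := by
  have hab : 0 ≤ a^2*b^2 := by positivity
  rcases le_total (32/25) (a+b) with hm | hm
  · have hmax : max 0 (25/32*(a+b)-1) = 25/32*(a+b)-1 := max_eq_right (by linarith)
    rw [hmax]
    refine le_trans ?_ (reg_B a b ha hb hm)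
    have := mul_le_mul_of_nonneg_left (W1 a ha) hab
    nlinarith
  · have hmax : max 0 (25/32*(a+b)-1) = 0 := max_eq_left (by linarith)
    rw [hmax, mul_zero, add_zero]
    rcases le_total (a+b) 1 with h1 | h1
    · have hsq := sq_le_exp (a+b) (by linarith)
      have ha1 : a ≤ 1 := by linarith
      have he : Real.exp (-(2*a)) ≤ 1 := Real.exp_le_one_iff.2 (by linarith)
      have hb2 : b^2 ≤ (1-a)^2 := by
        apply pow_le_pow_left₀ hb; linarith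
      have hH : 1 + 2*a + a^2*(7/4+9/4*a^2)*Real.exp (-(2*a)) ≤ 1 + 2*a + a^2*(7/4+9/4*a^2) := by
        have : 0 ≤ a^2*(7/4+9/4*a^2) := by positivity
        nlinarith
      have hHpos : 0 ≤ 1 + 2*a + a^2*(7/4+9/4*a^2)*Real.exp (-(2*a)) := by positivity
      have hpoly : (1-a)^2*(1 + 2*a + a^2*(7/4+9/4*a^2)) ≤ 1 := by
        have h5 : (1-a)^2*(7/4+9/4*a^2) ≤ 3 - 2*a := by
          nlinarith [mul_nonneg ha (by linarith : (0:ℝ) ≤ 1 - a), pow_nonneg ha 3,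
            mul_nonneg (pow_nonneg ha 2) (by linarith : (0:ℝ) ≤ 1 - a),
            mul_nonneg (pow_nonneg ha 3) (by linarith : (0:ℝ) ≤ 1 - a)]
        have h6 : (1-a)^2*(1 + 2*a + a^2*(7/4+9/4*a^2)) =
            1 - a^2*(3-2*a) + a^2*((1-a)^2*(7/4+9/4*a^2)) := by ring
        rw [h6]
        have := mul_le_mul_of_nonneg_left h5 (sq_nonneg a)
        linarith
      have h7 : b^2*(1 + 2*a + a^2*(7/4+9/4*a^2)*Real.exp (-(2*a))) ≤ 1 := by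
        calc b^2*(1 + 2*a + a^2*(7/4+9/4*a^2)*Real.exp (-(2*a)))
            ≤ (1-a)^2*(1 + 2*a + a^2*(7/4+9/4*a^2)) := mul_le_mul hb2 hH hHpos (sq_nonneg _)
          _ ≤ 1 := hpoly
      have h8 := mul_le_mul_of_nonneg_left h7 (sq_nonneg a)
      nlinarith
    · obtain ⟨μ, hμ⟩ : ∃ μ : ℝ, a + b = 1 + μ := ⟨a+b-1, by ring⟩
      have hμ0 : 0 ≤ μ := by linarith
      have hμ1 : μ ≤ 7/25 := by linarith
      have hbe : b = 1 + μ - a := by linarith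
      have hexp := exp_T3 (2*μ) (by linarith)
      have e1 : Real.exp (2*(a+b-1)) = Real.exp (2*μ) := by rw [hμ]; ring_nf
      rw [e1]
      rcases le_total a (1/2) with h2 | h2
      · have h3 := reg_I a μ ha h2 hμ0 hμ1
        have h4 := mul_le_mul_of_nonneg_left (W2 a ha h2) hab
        rw [← hbe] at h3
        have h5 : (a+b)^2 = (1+μ)^2 := by rw [hμ]
        nlinarith
      · have h3 := reg_C a μ h2 hμ0 hμ1 (by linarith)
        have h4 := mul_le_mul_of_nonneg_left (W1 a ha) hab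
        rw [← hbe] at h3
        have h5 : (a+b)^2 = (1+μ)^2 := by rw [hμ]
        nlinarith

end Pool.Agent.H62.Jump
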