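import Pool.Agent.H62.Jump.Basic
import Pool.Agent.H62.Jump.FI

/-! M6: the analytic core. -/

namespace Pool.Agent.H62.Jump

open Finset

theorem le_exp_sub_one (u : ℝ) : u ≤ Real.exp (u - 1) := by
  have := Real.add_one_le_exp (u - 1); linarith

/-- if `p^2 ≤ 4xy`, `x,y ≥ 0` then `p ≤ x+y`. -/
theorem amgm_aux (p x y : ℝ) (hx : 0 ≤ x) (hy : 0 ≤ y) (h : p ^ 2 ≤ 4 * x * y) : p ≤ x + y := by
  by_contra hc
  push Not at hc
  nlinarith [sq_nonneg (x - y)]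

/-- completing squares in `(s,h,z)`. -/
theorem shz_aux (V E2 P K1 K2 s h z : ℝ) (hV : 0 ≤ V) (hE2 : 0 ≤ E2) (hP : 0 ≤ P)
    (hK1 : 0 ≤ K1) (hK2 : 0 ≤ K2) (h1 : (V * P) ^ 2 ≤ V * K1) (h2 : (V * P) ^ 2 ≤ E2 * K2)
    (hs : 0 ≤ s) (hh : 0 ≤ h) (hz : 0 ≤ z) :
    V * (s * (h + z)) + E2 * (h * (s + z)) + 5 / 4 * (V * P) * (h * z) ≤
      ((s + h + z) / 2) ^ 2 * (V + E2 + 25 / 64 * K1 + 25 / 64 * K2) := by
  obtain ⟨τ, hτ⟩ : ∃ τ : ℝ, τ = (s + h + z) / 2 := ⟨_, rfl⟩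
  have hτ0 : 0 ≤ τ := by rw [hτ]; positivity
  obtain ⟨σ, hσ⟩ : ∃ σ : ℝ, σ = τ - s := ⟨_, rfl⟩
  obtain ⟨η, hη⟩ : ∃ η : ℝ, η = τ - h := ⟨_, rfl⟩
  have hse : s = τ - σ := by linarith
  have hhe : h = τ - η := by linarith
  have hze : z = σ + η := by linarith
  have e1 : s * (h + z) = τ ^ 2 - σ ^ 2 := by rw [hse, hhe, hze]; ring
  have e2 : h * (s + z) = τ ^ 2 - η ^ 2 := by rw [hse, hhe, hze]; ring
  rw [← hτ, e1, e2]
  have hVP : 0 ≤ V * P := by positivity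
  -- bounds
  have b1 : 5 / 4 * (V * P) * (τ * σ) ≤ V * σ ^ 2 + 25 / 64 * K1 * τ ^ 2 := by
    apply amgm_aux
    · positivity
    · positivity
    · have : 0 ≤ σ ^ 2 * τ ^ 2 := by positivity
      nlinarith [mul_le_mul_of_nonneg_right h1 this]
  have b2 : 5 / 4 * (V * P) * (τ * η) ≤ E2 * η ^ 2 + 25 / 64 * K2 * τ ^ 2 := by
    apply amgm_aux
    · positivity
    · positivity
    · have : 0 ≤ η ^ 2 * τ ^ 2 := by positivity
      nlinarith [mul_le_mul_of_nonneg_right h2 this]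
  have key : 5 / 4 * (V * P) * (h * z) ≤ V * σ ^ 2 + E2 * η ^ 2 + 25 / 64 * K1 * τ ^ 2
      + 25 / 64 * K2 * τ ^ 2 := by
    have hτ2 : 0 ≤ τ ^ 2 := by positivity
    have p1 : 0 ≤ V * σ ^ 2 := by positivity
    have p2 : 0 ≤ E2 * η ^ 2 := by positivity
    have p3 : 0 ≤ 25 / 64 * K1 * τ ^ 2 := by positivity
    have p4 : 0 ≤ 25 / 64 * K2 * τ ^ 2 := by positivity
    rcases le_total 0 σ with hs1 | hs1
    · rcases le_total 0 η with hh1 | hh1
      · have : h * z ≤ τ * σ + τ * η := by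
          rw [hhe, hze]; nlinarith [mul_nonneg hh1 hs1, mul_nonneg hh1 hh1]
        have := mul_le_mul_of_nonneg_left this (by positivity : 0 ≤ 5 / 4 * (V * P))
        linarith
      · have : h * z ≤ τ * σ := by
          have h3 : 0 ≤ -η := by linarith
          have h4 : 0 ≤ τ - σ := by linarith
          rw [hhe, hze]; nlinarith [mul_nonneg h3 h4, mul_nonneg h3 h3]
        have := mul_le_mul_of_nonneg_left this (by positivity : 0 ≤ 5 / 4 * (V * P))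
        linarith
    · have : h * z ≤ τ * η := by
        have h3 : 0 ≤ -σ := by linarith
        have h4 : 0 ≤ τ - η := by linarith
        rw [hhe, hze]; nlinarith [mul_nonneg h3 h4, sq_nonneg η]
      have := mul_le_mul_of_nonneg_left this (by positivity : 0 ≤ 5 / 4 * (V * P))
      linarith
  nlinarith

theorem core {ι : Type} [Fintype ι] (y1 y2 X Y s h z P S : ℝ) (β : ι → ℝ)
    (h1 : 0 ≤ y1) (h2 : 0 ≤ y2) (hX : 0 ≤ X) (hY : 0 ≤ Y) (hs : 0 ≤ s) (hh : 0 ≤ h) (hz : 0 ≤ z)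
    (hP : 0 ≤ P) (hPXY : P ≤ X * Y) (hS : 0 ≤ S) (hfor : P ^ 2 ≤ (X + Y) * S)
    (hβ : ∀ i, 0 ≤ β i) (hβ1 : ∀ i, β i ≤ X * Y * (X + Y) / 4)
    (hsum : ∑ i, β i = P * (X + Y) - S) :
    (y1 * y2 * s * (h + z) + ((y1 + X) * (y2 + Y) - y1 * y2 - P) * (h * (s + z)))
     + (y1 * y2 * P * (h * (s + z)) + 7 / 4 * (y1 * y2 * P * (h * (s + z))) ^ 2
          / Real.exp (y1 + X + y2 + Y + s + h + z - 4))
     + (y1 * y2 * P * (h * z) + 7 / 4 * (y1 * y2 * P * (h * z)) ^ 2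
          / Real.exp (y1 + X + y2 + Y + s + h + z - 4))
     + ∑ i, (y1 * y2 * (h * (s + z)) * β i + 9 / 4 * (y1 * y2 * (h * (s + z)) * β i) ^ 2
          / Real.exp (y1 + X + y2 + Y + s + h + z - 4))
     ≤ Real.exp (y1 + X + y2 + Y + s + h + z - 4) := by
  obtain ⟨E, hE⟩ : ∃ E : ℝ, E = Real.exp (y1 + X + y2 + Y + s + h + z - 4) := ⟨_, rfl⟩
  obtain ⟨V, hV⟩ : ∃ V : ℝ, V = y1 * y2 := ⟨_, rfl⟩
  obtain ⟨hs', hhs⟩ : ∃ hs' : ℝ, hs' = h * (s + z) := ⟨_, rfl⟩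
  obtain ⟨τ, hτ⟩ : ∃ τ : ℝ, τ = (s + h + z) / 2 := ⟨_, rfl⟩
  obtain ⟨e, he⟩ : ∃ e : ℝ, e = Real.exp (-(X + Y)) := ⟨_, rfl⟩
  obtain ⟨Q, hQ⟩ : ∃ Q : ℝ, Q = Real.exp (y1 + X + y2 + Y - 2) := ⟨_, rfl⟩
  obtain ⟨T, hT⟩ : ∃ T : ℝ, T = Real.exp (s + h + z - 2) := ⟨_, rfl⟩
  have hEpos : 0 < E := hE ▸ Real.exp_pos _
  have hQpos : 0 < Q := hQ ▸ Real.exp_pos _
  have hTpos : 0 < T := hT ▸ Real.exp_pos _
  have hepos : 0 < e := he ▸ Real.exp_pos _
  have hV0 : 0 ≤ V := hV ▸ mul_nonneg h1 h2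
  have hτ0 : 0 ≤ τ := by rw [hτ]; positivity
  have hhs0 : 0 ≤ hs' := by rw [hhs]; positivity
  have hEQT : E = Q * T := by rw [hE, hQ, hT, ← Real.exp_add]; ring_nf
  have hτT : τ ^ 2 ≤ T := by
    have := sq_le_exp τ hτ0
    rw [hT]; convert this using 2; rw [hτ]; ring
  have hhsτ : hs' ≤ τ ^ 2 := by
    rw [hhs, hτ]; nlinarith [sq_nonneg (h - s - z)]
  -- V ≤ exp (y1 + y2 - 2)
  have hVe : V ≤ e * Q := by
    have a1 := le_exp_sub_one y1
    have a2 := le_exp_sub_one y2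
    have : V ≤ Real.exp (y1 - 1) * Real.exp (y2 - 1) := by
      rw [hV]; exact mul_le_mul a1 a2 h2 (Real.exp_pos _).le
    refine this.trans (le_of_eq ?_)
    rw [he, hQ, ← Real.exp_add, ← Real.exp_add]; ring_nf
  have hXY : 0 ≤ X * Y := mul_nonneg hX hY
  rw [← hE, ← hV, ← hhs]
  -- the three error terms
  have t0 : 7 / 4 * (V * P * hs') ^ 2 / E ≤ τ ^ 2 * (7 / 4 * (V * P) * (X * Y * e)) := by
    rw [div_le_iff₀ hEpos, hEQT]
    have a1 : (V * P * hs') ^ 2 ≤ (V * P) ^ 2 * (τ ^ 2 * T) := by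
      have : hs' ^ 2 ≤ τ ^ 2 * T := by
        calc hs' ^ 2 = hs' * hs' := by ring
          _ ≤ τ ^ 2 * T := mul_le_mul hhsτ (hhsτ.trans hτT) hhs0 (by positivity)
      calc (V * P * hs') ^ 2 = (V * P) ^ 2 * hs' ^ 2 := by ring
        _ ≤ _ := mul_le_mul_of_nonneg_left this (by positivity)
    have a2 : (V * P) ^ 2 ≤ (V * P) * (X * Y * (e * Q)) := by
      have : V * P ≤ (e * Q) * (X * Y) := mul_le_mul hVe hPXY hP (by positivity)
      calc (V * P) ^ 2 = (V * P) * (V * P) := by ring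
        _ ≤ (V * P) * (e * Q * (X * Y)) := mul_le_mul_of_nonneg_left this (by positivity)
        _ = _ := by ring
    calc 7 / 4 * (V * P * hs') ^ 2 ≤ 7 / 4 * ((V * P) ^ 2 * (τ ^ 2 * T)) :=
          mul_le_mul_of_nonneg_left a1 (by norm_num)
      _ ≤ 7 / 4 * ((V * P) * (X * Y * (e * Q)) * (τ ^ 2 * T)) :=
          mul_le_mul_of_nonneg_left (mul_le_mul_of_nonneg_right a2 (by positivity)) (by norm_num)
      _ = _ := by ring
  have hVPhz : V * P * (h * z) ≤ 1 / 7 * E := by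
    have a1 := le_exp_sub_one y1
    have a2 := le_exp_sub_one y2
    have a3 := le_exp_sub_one X
    have a4 := le_exp_sub_one Y
    have a5 := le_exp_sub_one h
    have a6 := le_exp_sub_one z
    have b1 : V * (X * Y) * (h * z) ≤ Real.exp (y1 - 1) * Real.exp (y2 - 1) *
        (Real.exp (X - 1) * Real.exp (Y - 1)) * (Real.exp (h - 1) * Real.exp (z - 1)) := by
      rw [hV]
      gcongr
    have b2 : Real.exp (y1 - 1) * Real.exp (y2 - 1) *
        (Real.exp (X - 1) * Real.exp (Y - 1)) * (Real.exp (h - 1) * Real.exp (z - 1)) =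
        E * Real.exp (-2) * Real.exp (-s) := by
      rw [hE]; simp only [← Real.exp_add]; ring_nf
    have b3 : Real.exp (-2) ≤ 1 / 7 := by
      have c1 := exp_T7 2 (by norm_num)
      have c2 : (7:ℝ) ≤ Real.exp 2 := by refine le_trans ?_ c1; norm_num
      rw [Real.exp_neg, one_div]
      exact inv_anti₀ (by norm_num) c2
    have b4 : Real.exp (-s) ≤ 1 := Real.exp_le_one_iff.2 (by linarith)
    have b5 : V * P * (h * z) ≤ V * (X * Y) * (h * z) := by gcongr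
    have b6 : E * Real.exp (-2) * Real.exp (-s) ≤ E * (1 / 7) * 1 := by
      gcongr
    linarith
  have tz : V * P * (h * z) + 7 / 4 * (V * P * (h * z)) ^ 2 / E ≤ 5 / 4 * (V * P) * (h * z) := by
    have a0 : 0 ≤ V * P * (h * z) := by positivity
    have a1 : 7 / 4 * (V * P * (h * z)) ^ 2 / E ≤ 1 / 4 * (V * P * (h * z)) := by
      rw [div_le_iff₀ hEpos]
      calc 7 / 4 * (V * P * (h * z)) ^ 2 = 7 / 4 * ((V * P * (h * z)) * (V * P * (h * z))) := by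
            ring
        _ ≤ 7 / 4 * ((V * P * (h * z)) * (1 / 7 * E)) :=
          mul_le_mul_of_nonneg_left (mul_le_mul_of_nonneg_left hVPhz a0) (by norm_num)
        _ = _ := by ring
    linarith
  obtain ⟨c3, hc3⟩ : ∃ c3 : ℝ, c3 = 9 / 16 * (X * Y * (X + Y)) * e := ⟨_, rfl⟩
  have hc30 : 0 ≤ c3 := by rw [hc3]; positivity
  have tb : ∑ i, (V * hs' * β i + 9 / 4 * (V * hs' * β i) ^ 2 / E) ≤
      V * hs' * (1 + c3) * (P * (X + Y) - S) := by
    rw [← hsum, Finset.mul_sum]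
    apply Finset.sum_le_sum
    intro i _
    have a0 : 0 ≤ V * hs' * β i := by have := hβ i; positivity
    have a1 : V * hs' ≤ e * E := by
      calc V * hs' ≤ (e * Q) * T := mul_le_mul hVe (hhsτ.trans hτT) hhs0 (by positivity)
        _ = e * E := by rw [hEQT]; ring
    have a2 : V * hs' * β i ≤ e * E * (X * Y * (X + Y) / 4) :=
      mul_le_mul a1 (hβ1 i) (hβ i) (by positivity)
    have a3 : 9 / 4 * (V * hs' * β i) ^ 2 / E ≤ c3 * (V * hs' * β i) := by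
      rw [div_le_iff₀ hEpos, hc3]
      calc 9 / 4 * (V * hs' * β i) ^ 2 = 9 / 4 * ((V * hs' * β i) * (V * hs' * β i)) := by ring
        _ ≤ 9 / 4 * ((V * hs' * β i) * (e * E * (X * Y * (X + Y) / 4))) :=
          mul_le_mul_of_nonneg_left (mul_le_mul_of_nonneg_left a2 a0) (by norm_num)
        _ = _ := by ring
    linarith
  -- G = P^2/(X+Y)
  obtain ⟨G, hG0, hG1, hGS, hG4⟩ : ∃ G : ℝ, 0 ≤ G ∧ G * (X + Y) = P ^ 2 ∧ G ≤ S ∧
      G ≤ P * (X + Y) / 4 := by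
    rcases (add_nonneg hX hY).eq_or_lt with h0 | h0
    · have hX0 : X = 0 := by linarith
      have hP0 : P = 0 := by
        apply le_antisymm _ hP; rw [hX0] at hPXY; linarith
      refine ⟨0, le_refl _, ?_, hS, ?_⟩
      · rw [hP0]; ring
      · rw [hP0]; simp
    · refine ⟨P ^ 2 / (X + Y), by positivity, by field_simp, ?_, ?_⟩
      · rw [div_le_iff₀ h0]; linarith
      · rw [div_le_iff₀ h0]
        have : P ≤ (X + Y) ^ 2 / 4 := by nlinarith [sq_nonneg (X - Y)]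
        calc P ^ 2 = P * P := by ring
          _ ≤ P * ((X + Y) ^ 2 / 4) := mul_le_mul_of_nonneg_left this hP
          _ = _ := by ring
  have hΘ : 0 ≤ P * (X + Y) - S := by rw [← hsum]; exact Finset.sum_nonneg fun i _ => hβ i
  obtain ⟨E2, hE2⟩ : ∃ E2 : ℝ, E2 = (y1 + X) * (y2 + Y) - V - P + V * P
      + V * (1 + c3) * (P * (X + Y) - S) := ⟨_, rfl⟩
  have hE3 : X * y2 + Y * y1 ≤ E2 := by
    have b1 : 0 ≤ V * P := by positivity
    have b2 : 0 ≤ V * (1 + c3) * (P * (X + Y) - S) :=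
      mul_nonneg (mul_nonneg hV0 (by linarith)) hΘ
    have b3 : E2 - (X * y2 + Y * y1) = (X * Y - P) + V * P + V * (1 + c3) * (P * (X + Y) - S) := by
      rw [hE2, hV]; ring
    have b4 : 0 ≤ X * Y - P := by linarith
    linarith
  have hE20 : 0 ≤ E2 := le_trans (by positivity) hE3
  have hshz := shz_aux V E2 P (V * (G * (X + Y))) (V * (G * (y1 + y2))) s h z hV0 hE20 hP
    (by positivity) (by positivity)
    (by rw [hG1]; ring_nf; exact le_refl _)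
    (by
      have a1 : V * (X + Y) ≤ E2 * (y1 + y2) := by
        have : V * (X + Y) ≤ (X * y2 + Y * y1) * (y1 + y2) := by
          rw [hV]; nlinarith [mul_nonneg hX (sq_nonneg y2), mul_nonneg hY (sq_nonneg y1)]
        exact this.trans (mul_le_mul_of_nonneg_right hE3 (by positivity))
      have a2 : (V * P) ^ 2 = V * G * (V * (X + Y)) := by
        calc (V * P) ^ 2 = V ^ 2 * P ^ 2 := by ring
          _ = V ^ 2 * (G * (X + Y)) := by rw [hG1]
          _ = _ := by ring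
      rw [a2]
      calc V * G * (V * (X + Y)) ≤ V * G * (E2 * (y1 + y2)) :=
            mul_le_mul_of_nonneg_left a1 (by positivity)
        _ = E2 * (V * (G * (y1 + y2))) := by ring)
    hs hh hz
  rw [← hhs, ← hτ] at hshz
  -- the bracket
  obtain ⟨a, ha⟩ : ∃ a : ℝ, a = (X + Y) / 2 := ⟨_, rfl⟩
  obtain ⟨b, hb⟩ : ∃ b : ℝ, b = (y1 + y2) / 2 := ⟨_, rfl⟩
  have ha0 : 0 ≤ a := by rw [ha]; positivity
  have hb0 : 0 ≤ b := by rw [hb]; positivity
  have hFI := FI a b ha0 hb0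
  have hea : Real.exp (-(2 * a)) = e := by rw [he, ha]; ring_nf
  have hQa : Real.exp (2 * (a + b - 1)) = Q := by rw [hQ, ha, hb]; ring_nf
  rw [hea, hQa] at hFI
  obtain ⟨M, hM⟩ : ∃ M : ℝ, M = max 0 (25 / 32 * (a + b) - 1) := ⟨_, rfl⟩
  rw [← hM] at hFI
  have hM0 : 0 ≤ M := hM ▸ le_max_left _ _
  have hM1 : 25 / 32 * (a + b) - 1 ≤ M := hM ▸ le_max_right _ _
  obtain ⟨H, hH⟩ : ∃ H : ℝ, H = 1 + 2 * a + a ^ 2 * (7 / 4 + 9 / 4 * a ^ 2) * e + a / 2 * M :=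
    ⟨_, rfl⟩
  rw [← hH] at hFI
  obtain ⟨H', hH'⟩ : ∃ H' : ℝ, H' = 1 + (1 + c3) * (X + Y) + 7 / 4 * (X * Y * e)
      + (X + Y) / 4 * M := ⟨_, rfl⟩
  have hXYa : X * Y ≤ a ^ 2 := by
    have h3 : a ^ 2 - X * Y = (X - Y) ^ 2 / 4 := by rw [ha]; ring
    have h4 : 0 ≤ (X - Y) ^ 2 / 4 := by positivity
    linarith
  have hVb : V ≤ b ^ 2 := by
    have h3 : b ^ 2 - V = (y1 - y2) ^ 2 / 4 := by rw [hb, hV]; ring
    have h4 : 0 ≤ (y1 - y2) ^ 2 / 4 := by positivity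
    linarith
  have hX2a : X + Y = 2 * a := by rw [ha]; ring
  have hHH' : H' ≤ H := by
    have a1 : c3 * (X + Y) ≤ 9 / 4 * a ^ 4 * e := by
      rw [hc3, hX2a]
      have : X * Y * (2 * a) * (2 * a) ≤ a ^ 2 * (2 * a) * (2 * a) := by gcongr
      calc 9 / 16 * (X * Y * (2 * a)) * e * (2 * a)
          = 9 / 16 * ((X * Y * (2 * a) * (2 * a)) * e) := by ring
        _ ≤ 9 / 16 * ((a ^ 2 * (2 * a) * (2 * a)) * e) :=
          mul_le_mul_of_nonneg_left (mul_le_mul_of_nonneg_right this hepos.le) (by norm_num)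
        _ = _ := by ring
    have a2 : X * Y * e ≤ a ^ 2 * e := by gcongr
    rw [hH', hH]
    have : (X + Y) / 4 * M = a / 2 * M := by rw [hX2a]; ring
    rw [this, hX2a]
    rw [hX2a] at a1
    linarith
  have hH'0 : 0 ≤ H' := by rw [hH']; positivity
  have hAB : (y1 + X) * (y2 + Y) ≤ (a + b) ^ 2 := by
    have h3 : (a + b) ^ 2 - (y1 + X) * (y2 + Y) = ((y1 + X) - (y2 + Y)) ^ 2 / 4 := by
      rw [ha, hb]; ring
    have h4 : 0 ≤ ((y1 + X) - (y2 + Y)) ^ 2 / 4 := by positivity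
    linarith
  have hbr : V + E2 + 25 / 64 * (V * (G * (X + Y))) + 25 / 64 * (V * (G * (y1 + y2)))
      + 7 / 4 * (V * P) * (X * Y * e) ≤ (y1 + X) * (y2 + Y) + P * (V * H' - 1) := by
    have a1 : (1 + c3) * (P * (X + Y) - S) ≤ (1 + c3) * (P * (X + Y)) - G := by
      have : 0 ≤ c3 * S := mul_nonneg hc30 hS
      linarith
    have a2 := mul_le_mul_of_nonneg_left a1 hV0
    have a3 : V * (G * (25 / 64 * (X + Y + y1 + y2) - 1)) ≤ V * (P * (X + Y) / 4 * M) := by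
      have b1 : 25 / 64 * (X + Y + y1 + y2) - 1 ≤ M := by
        have : X + Y + y1 + y2 = 2 * (a + b) := by rw [ha, hb]; ring
        rw [this]; linarith
      have b2 : G * (25 / 64 * (X + Y + y1 + y2) - 1) ≤ G * M := mul_le_mul_of_nonneg_left b1 hG0
      have b3 : G * M ≤ P * (X + Y) / 4 * M := mul_le_mul_of_nonneg_right hG4 hM0
      exact mul_le_mul_of_nonneg_left (b2.trans b3) hV0
    have hid : (y1 + X) * (y2 + Y) + P * (V * H' - 1) -
        (V + E2 + 25 / 64 * (V * (G * (X + Y))) + 25 / 64 * (V * (G * (y1 + y2)))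
          + 7 / 4 * (V * P) * (X * Y * e)) =
        (V * ((1 + c3) * (P * (X + Y)) - G) - V * ((1 + c3) * (P * (X + Y) - S))) +
        (V * (P * (X + Y) / 4 * M) - V * (G * (25 / 64 * (X + Y + y1 + y2) - 1))) := by
      rw [hE2, hH']; ring
    linarith
  have hfin : (y1 + X) * (y2 + Y) + P * (V * H' - 1) ≤ Q := by
    have hm2 := sq_le_exp (a + b) (by positivity)
    rw [hQa] at hm2
    rcases le_total (V * H' - 1) 0 with hc | hc
    · have : P * (V * H' - 1) ≤ 0 := mul_nonpos_of_nonneg_of_nonpos hP hc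
      linarith
    · have c1 : P * (V * H' - 1) ≤ a ^ 2 * (V * H' - 1) :=
        mul_le_mul_of_nonneg_right (hPXY.trans hXYa) hc
      have c2 : V * H' ≤ b ^ 2 * H := mul_le_mul hVb hHH' hH'0 (sq_nonneg _)
      have c3' := mul_le_mul_of_nonneg_left c2 (sq_nonneg a)
      linarith
  have htot : τ ^ 2 * ((y1 + X) * (y2 + Y) + P * (V * H' - 1)) ≤ E := by
    rw [hEQT]
    calc τ ^ 2 * ((y1 + X) * (y2 + Y) + P * (V * H' - 1)) ≤ τ ^ 2 * Q :=
          mul_le_mul_of_nonneg_left hfin (by positivity)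
      _ ≤ T * Q := mul_le_mul_of_nonneg_right hτT hQpos.le
      _ = Q * T := mul_comm _ _
  have hbr2 := mul_le_mul_of_nonneg_left hbr (by positivity : 0 ≤ τ ^ 2)
  have hE2' : V * s * (h + z) + ((y1 + X) * (y2 + Y) - V - P) * hs' + V * P * hs'
      + V * hs' * (1 + c3) * (P * (X + Y) - S) = V * (s * (h + z)) + E2 * hs' := by
    rw [hE2]; ring
  linarith

end Pool.Agent.H62.Jump
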