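import Pool.Agent.H62.Jump.Basic

/-! M3: properly `D`-edge-coloured `D`-regular bipartite graphs of large girth, and the forest inequality.
The graph has the two sides `G`, `G`; colour class `c` is the perfect matching `g ~ π c g`.
Construction: `T` = reduced words (no two consecutive letters equal) of length `≤ N` over `Fin D`;
`σ c` = the involution of `T` that appends/removes the letter `c` (and fixes a word of length `N` not
beginning with `c`); `G = Equiv.Perm T`, `π c g = g * σ c`. A closed non-backtracking walk of length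
`ℓ ≤ N` would give a reduced word of length `ℓ` in the `σ`'s equal to `1`, but it moves the empty word
to a word of length `ℓ`.  Hence every nonempty set `S` of at most `L` vertices of the bipartite graph has
a vertex with at most one neighbour in `S` (else walk without backtracking inside `S`).  Forest
inequality by induction on the support (remove such a vertex): `P'^2 ≤ W' S'`, `q^2 ≤ x y` imply
`(P'+q)^2 ≤ (W'+x)(S'+y)`. -/

namespace Pool.Agent.H62.Jump

open Finset

namespace Gr

/-- reduced words of length at most `N` -/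
def Wd (D N : ℕ) : Type := {l : List (Fin D) // l.length ≤ N ∧ l.IsChain (· ≠ ·)}

instance (D N : ℕ) : Finite (Wd D N) := by
  have h : {l : List (Fin D) | l.length ≤ N}.Finite := List.finite_length_le (Fin D) N
  have h2 : {l : List (Fin D) | l.length ≤ N ∧ l.IsChain (· ≠ ·)}.Finite :=
    h.subset (fun l hl => hl.1)
  exact h2.to_subtype

/-- add or remove the first letter `c` -/
def sg {D : ℕ} (N : ℕ) (c : Fin D) (l : List (Fin D)) : List (Fin D) :=
  if l.head? = some c then l.tail else if l.length < N then c :: l else l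

lemma sg_mem {D N : ℕ} (c : Fin D) (l : List (Fin D)) (h : l.length ≤ N ∧ l.IsChain (· ≠ ·)) :
    (sg N c l).length ≤ N ∧ (sg N c l).IsChain (· ≠ ·) := by
  unfold sg
  cases l with
  | nil =>
    by_cases hN : 0 < N
    · simp [hN]
      omega
    · simp [hN]
  | cons a t =>
    obtain ⟨h1, h2⟩ := h
    by_cases hac : a = c
    · subst hac
      simp only [List.head?_cons, if_true, List.tail_cons]
      refine ⟨?_, ?_⟩
      · simp at h1; omega
      · exact h2.tail
    · have : ¬ ((a :: t).head? = some c) := by simp [hac]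
      rw [if_neg this]
      by_cases hl : (a :: t).length < N
      · rw [if_pos hl]
        refine ⟨by simp at hl ⊢; omega, ?_⟩
        exact List.IsChain.cons_cons (Ne.symm hac) h2
      · rw [if_neg hl]
        exact ⟨h1, h2⟩

lemma sg_sg {D N : ℕ} (c : Fin D) (l : List (Fin D)) (h : l.length ≤ N ∧ l.IsChain (· ≠ ·)) :
    sg N c (sg N c l) = l := by
  unfold sg
  cases l with
  | nil =>
    by_cases hN : 0 < N
    · simp [hN]
    · simp [hN]
  | cons a t =>
    obtain ⟨h1, h2⟩ := h
    by_cases hac : a = c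
    · subst hac
      simp only [List.head?_cons, if_true, List.tail_cons]
      have h3 : ¬ (t.head? = some a) := by
        cases t with
        | nil => simp
        | cons b s =>
          have := List.IsChain.rel h2
          simp
          exact fun h => this h.symm
      rw [if_neg h3]
      have h4 : t.length < N := by simp at h1; omega
      rw [if_pos h4]
    · have h3 : ¬ ((a :: t).head? = some c) := by simp [hac]
      rw [if_neg h3]
      by_cases hl : (a :: t).length < N
      · rw [if_pos hl]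
        simp
      · rw [if_neg hl, if_neg h3, if_neg hl]

/-- the involution -/
def sp {D N : ℕ} (c : Fin D) : Equiv.Perm (Wd D N) where
  toFun l := ⟨sg N c l.1, sg_mem c l.1 l.2⟩
  invFun l := ⟨sg N c l.1, sg_mem c l.1 l.2⟩
  left_inv l := Subtype.ext (sg_sg c l.1 l.2)
  right_inv l := Subtype.ext (sg_sg c l.1 l.2)

def nilW (D N : ℕ) : Wd D N := ⟨[], by simp⟩

lemma sp_val {D N : ℕ} (c : Fin D) (l : Wd D N) : (sp c l).1 = sg N c l.1 := rfl

lemma sp_inv {D N : ℕ} (c : Fin D) : (sp c : Equiv.Perm (Wd D N))⁻¹ = sp c := by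
  ext l
  rfl

lemma sp_inj {D N : ℕ} (hN : 0 < N) (c c' : Fin D)
    (h : (sp c : Equiv.Perm (Wd D N)) = sp c') : c = c' := by
  have h1 : (sp c (nilW D N)).1 = (sp c' (nilW D N)).1 := by rw [h]
  rw [sp_val, sp_val] at h1
  simp [sg, nilW, hN] at h1
  exact h1

section walk
variable {D N : ℕ} (S : Bool → Finset (Equiv.Perm (Wd D N)))
  (hS : ∀ b g, g ∈ S b → ∀ c : Fin D, ∃ c', c' ≠ c ∧ g * sp c' ∈ S (!b))

/-- states of a walk -/
def St : Type := {p : (Bool × Equiv.Perm (Wd D N)) × Fin D // p.1.2 ∈ S p.1.1}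

noncomputable def nxt (s : St S) : St S :=
  ⟨((!s.1.1.1, s.1.1.2 * sp (hS s.1.1.1 s.1.1.2 s.2 s.1.2).choose),
    (hS s.1.1.1 s.1.1.2 s.2 s.1.2).choose),
    (hS s.1.1.1 s.1.1.2 s.2 s.1.2).choose_spec.2⟩

lemma nxt_ne (s : St S) : (nxt S hS s).1.2 ≠ s.1.2 :=
  (hS s.1.1.1 s.1.1.2 s.2 s.1.2).choose_spec.1

lemma nxt_g (s : St S) : (nxt S hS s).1.1.2 = s.1.1.2 * sp (nxt S hS s).1.2 := rfl

lemma walk (s : St S) (m : ℕ) : m ≤ N → ∀ i : ℕ,
    (((((nxt S hS)^[i] s).1.1.2)⁻¹ * ((nxt S hS)^[i + m] s).1.1.2) (nilW D N)).1.length = m ∧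
    (1 ≤ m → (((((nxt S hS)^[i] s).1.1.2)⁻¹ * ((nxt S hS)^[i + m] s).1.1.2) (nilW D N)).1.head?
      = some ((nxt S hS)^[i + 1] s).1.2) := by
  induction m with
  | zero =>
    intro _ i
    refine ⟨?_, fun h => absurd h (by omega)⟩
    rw [add_zero, inv_mul_cancel]
    rfl
  | succ m ih =>
    intro hm i
    obtain ⟨h1, h2⟩ := ih (by omega) (i + 1)
    have e1 : i + (m + 1) = i + 1 + m := by ring
    have e2 : ((((nxt S hS)^[i] s).1.1.2)⁻¹ * ((nxt S hS)^[i + (m + 1)] s).1.1.2)
        = sp ((nxt S hS)^[i + 1] s).1.2 *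
          ((((nxt S hS)^[i + 1] s).1.1.2)⁻¹ * ((nxt S hS)^[i + 1 + m] s).1.1.2) := by
      rw [e1]
      have e3 : ((nxt S hS)^[i + 1] s).1.1.2
          = ((nxt S hS)^[i] s).1.1.2 * sp ((nxt S hS)^[i + 1] s).1.2 := by
        rw [Function.iterate_succ_apply']
        exact nxt_g S hS _
      have e4 : (((nxt S hS)^[i] s).1.1.2)⁻¹
          = sp ((nxt S hS)^[i + 1] s).1.2 * (((nxt S hS)^[i + 1] s).1.1.2)⁻¹ := by
        rw [e3, mul_inv_rev, mul_inv_cancel_left]
      rw [e4, mul_assoc]
    rw [e2, Equiv.Perm.mul_apply, sp_val]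
    set w := ((((nxt S hS)^[i + 1] s).1.1.2)⁻¹ * ((nxt S hS)^[i + 1 + m] s).1.1.2) (nilW D N)
      with hw
    have hne : ((nxt S hS)^[i + 1 + 1] s).1.2 ≠ ((nxt S hS)^[i + 1] s).1.2 := by
      rw [Function.iterate_succ_apply' (nxt S hS) (i + 1)]
      exact nxt_ne S hS _
    have hh : ¬ (w.1.head? = some ((nxt S hS)^[i + 1] s).1.2) := by
      rcases Nat.eq_zero_or_pos m with h0 | h0
      · have : w.1 = [] := List.length_eq_zero_iff.mp (by rw [h1, h0])
        rw [this]
        simp
      · rw [h2 h0]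
        intro h
        exact hne (Option.some.inj h)
    have hl : w.1.length < N := by rw [h1]; omega
    unfold sg
    rw [if_neg hh, if_pos hl]
    simp [h1]

include hS in
lemma no_closed (hne : ∃ b, (S b).Nonempty) (hcol : Nonempty (Fin D))
    (hcard : (S false).card + (S true).card ≤ N) : False := by
  obtain ⟨b0, g0, hg0⟩ := hne
  obtain ⟨c0⟩ := hcol
  let s : St S := ⟨((b0, g0), c0), hg0⟩
  have hlt : (univ.sigma S).card < (range (N + 1)).card := by
    rw [card_sigma, card_range, Fintype.sum_bool]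
    omega
  obtain ⟨i, hi, j, hj, hij, he⟩ := exists_ne_map_eq_of_card_lt_of_maps_to hlt
    (f := fun k => (⟨((nxt S hS)^[k] s).1.1.1, ((nxt S hS)^[k] s).1.1.2⟩ :
      Σ _ : Bool, Equiv.Perm (Wd D N)))
    (by
      intro k _
      simp only [coe_sigma, Set.mem_sigma_iff, mem_coe, mem_univ, true_and]
      exact ((nxt S hS)^[k] s).2)
  have key : ∀ i j : ℕ, i < j → j < N + 1 →
      ((nxt S hS)^[i] s).1.1.2 = ((nxt S hS)^[j] s).1.1.2 → False := by
    intro i j hij hj hg
    obtain ⟨m, rfl⟩ := Nat.exists_eq_add_of_lt hij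
    have := (walk S hS s (m + 1) (by omega) i).1
    rw [show i + (m + 1) = i + m + 1 by ring, ← hg, inv_mul_cancel] at this
    have h0 : (((1 : Equiv.Perm (Wd D N)) (nilW D N)).1).length = 0 := rfl
    rw [h0] at this
    omega
  have hg : ((nxt S hS)^[i] s).1.1.2 = ((nxt S hS)^[j] s).1.1.2 := by
    have := (Sigma.mk.inj_iff.mp he).2
    exact eq_of_heq this
  rw [mem_range] at hi hj
  rcases lt_or_gt_of_ne hij with h | h
  · exact key i j h hj hg
  · exact key j i h hi hg.symm

end walk

section forest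
variable {G : Type} [Fintype G] [DecidableEq G] {D : ℕ}

def S1 (π : Fin D → Equiv.Perm G) (x w : G → ℝ) : ℝ := ∑ c, ∑ g, x g * w (π c g)
def S2 (π : Fin D → Equiv.Perm G) (x w : G → ℝ) : ℝ :=
  ∑ c, ∑ g, x g * w (π c g) * (x g + w (π c g))

omit [DecidableEq G] in
lemma S1_symm (π : Fin D → Equiv.Perm G) (x w : G → ℝ) :
    S1 (fun c => (π c)⁻¹) w x = S1 π x w := by
  unfold S1
  refine sum_congr rfl (fun c _ => ?_)
  rw [← Equiv.sum_comp (π c)]
  refine sum_congr rfl (fun g _ => ?_)
  simp [mul_comm]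

omit [DecidableEq G] in
lemma S2_symm (π : Fin D → Equiv.Perm G) (x w : G → ℝ) :
    S2 (fun c => (π c)⁻¹) w x = S2 π x w := by
  unfold S2
  refine sum_congr rfl (fun c _ => ?_)
  rw [← Equiv.sum_comp (π c)]
  refine sum_congr rfl (fun g _ => ?_)
  have h : (π c)⁻¹ (π c g) = g := by simp
  rw [h]
  ring

lemma sum_upd (x : G → ℝ) (g0 : G) (h : G → ℝ → ℝ) (h0 : h g0 0 = 0) :
    ∑ g, h g (x g) = ∑ g, h g (Function.update x g0 0 g) + h g0 (x g0) := by
  rw [← add_sum_erase univ (fun g => h g (x g)) (mem_univ g0),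
    ← add_sum_erase univ (fun g => h g (Function.update x g0 0 g)) (mem_univ g0)]
  have : ∑ g ∈ univ.erase g0, h g (Function.update x g0 0 g) = ∑ g ∈ univ.erase g0, h g (x g) := by
    refine sum_congr rfl (fun g hg => ?_)
    rw [Function.update_of_ne (ne_of_mem_erase hg)]
  rw [this, Function.update_self, h0]
  ring

lemma step_alg (P W S q a b : ℝ) (hW : 0 ≤ W) (hS : 0 ≤ S)
    (ha : 0 ≤ a) (hb : 0 ≤ b) (h1 : P ^ 2 ≤ W * S) (h2 : q ^ 2 ≤ a * b) :
    (P + q) ^ 2 ≤ (W + a) * (S + b) := by
  have h3 : (2 * (P * q)) ^ 2 ≤ (W * b + S * a) ^ 2 := by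
    have h4 : P ^ 2 * q ^ 2 ≤ (W * S) * (a * b) :=
      mul_le_mul h1 h2 (sq_nonneg q) (mul_nonneg hW hS)
    nlinarith [sq_nonneg (W * b - S * a)]
  have h5 : 2 * (P * q) ≤ W * b + S * a :=
    (le_abs_self _).trans (abs_le_of_sq_le_sq h3 (by positivity))
  nlinarith

/-- removal of a vertex of the first side with at most one neighbour in the support -/
lemma remove (π : Fin D → Equiv.Perm G) (x w : G → ℝ) (hx : ∀ g, 0 ≤ x g) (hw : ∀ g, 0 ≤ w g)
    (g0 : G) (huniq : ∀ c c', w (π c g0) ≠ 0 → w (π c' g0) ≠ 0 → c = c')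
    (ih : (S1 π (Function.update x g0 0) w) ^ 2 ≤
      (∑ g, Function.update x g0 0 g + ∑ g, w g) * S2 π (Function.update x g0 0) w) :
    (S1 π x w) ^ 2 ≤ (∑ g, x g + ∑ g, w g) * S2 π x w := by
  set x' := Function.update x g0 0 with hx'
  have hx'0 : ∀ g, 0 ≤ x' g := by
    intro g
    by_cases h : g = g0
    · subst h; simp [hx']
    · rw [hx', Function.update_of_ne h]; exact hx g
  have e0 : ∑ g, x g = ∑ g, x' g + x g0 := sum_upd x g0 (fun _ t => t) rfl
  have e1 : S1 π x w = S1 π x' w + x g0 * ∑ c, w (π c g0) := by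
    unfold S1
    rw [mul_sum, ← sum_add_distrib]
    refine sum_congr rfl (fun c _ => ?_)
    exact sum_upd x g0 (fun g t => t * w (π c g)) (by simp)
  have e2 : S2 π x w = S2 π x' w
      + (x g0 ^ 2 * ∑ c, w (π c g0) + x g0 * ∑ c, w (π c g0) ^ 2) := by
    unfold S2
    rw [mul_sum, mul_sum, ← sum_add_distrib, ← sum_add_distrib]
    refine sum_congr rfl (fun c _ => ?_)
    rw [sum_upd x g0 (fun g t => t * w (π c g) * (t + w (π c g))) (by simp)]
    congr 1
    ring
  have hsq : ∑ c, w (π c g0) ^ 2 = (∑ c, w (π c g0)) ^ 2 := by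
    by_cases h : ∃ c, w (π c g0) ≠ 0
    · obtain ⟨c, hc⟩ := h
      have hz : ∀ c', c' ≠ c → w (π c' g0) = 0 := by
        intro c' hc'
        by_contra h'
        exact hc' (huniq c' c h' hc)
      rw [Fintype.sum_eq_single c (fun c' h' => by rw [hz c' h']; simp),
        Fintype.sum_eq_single c (fun c' h' => hz c' h')]
    · push Not at h
      simp [h]
  set s := ∑ c, w (π c g0) with hs
  have hs0 : 0 ≤ s := sum_nonneg (fun c _ => hw _)
  have hS2 : 0 ≤ S2 π x' w :=
    sum_nonneg (fun c _ => sum_nonneg (fun g _ => mul_nonneg (mul_nonneg (hx'0 _) (hw _))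
      (add_nonneg (hx'0 _) (hw _))))
  have hW : 0 ≤ ∑ g, x' g + ∑ g, w g :=
    add_nonneg (sum_nonneg (fun g _ => hx'0 g)) (sum_nonneg (fun g _ => hw g))
  rw [e0, e1, e2, hsq, show ∑ g, x' g + x g0 + ∑ g, w g = (∑ g, x' g + ∑ g, w g) + x g0 by ring]
  refine step_alg _ _ _ _ _ _ hW hS2 (hx g0) ?_ ih ?_
  · exact add_nonneg (mul_nonneg (sq_nonneg _) hs0) (mul_nonneg (hx g0) (sq_nonneg _))
  · have : 0 ≤ x g0 ^ 3 * s := mul_nonneg (pow_nonneg (hx g0) 3) hs0
    nlinarith

lemma card_upd (x : G → ℝ) (g0 : G) (h : x g0 ≠ 0) :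
    (univ.filter (fun g => Function.update x g0 0 g ≠ 0)).card <
      (univ.filter (fun g => x g ≠ 0)).card := by
  refine card_lt_card ⟨?_, ?_⟩
  · intro g hg
    simp only [mem_filter, mem_univ, true_and] at hg ⊢
    by_cases h' : g = g0
    · subst h'; simp at hg
    · rwa [Function.update_of_ne h'] at hg
  · intro hsub
    have : g0 ∈ univ.filter (fun g => Function.update x g0 0 g ≠ 0) := hsub (by simp [h])
    simp at this

/-- forest inequality for a system of permutations in which every small nonempty set of vertices has a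
vertex with at most one neighbour in the set -/
lemma forest (L : ℕ) (π : Fin D → Equiv.Perm G)
    (hπ : ∀ A B : Finset G, (A.Nonempty ∨ B.Nonempty) → A.card + B.card ≤ L →
      (∃ g ∈ A, ∀ c c', π c g ∈ B → π c' g ∈ B → c = c') ∨
      (∃ g ∈ B, ∀ c c', (π c)⁻¹ g ∈ A → (π c')⁻¹ g ∈ A → c = c')) (n : ℕ) :
    ∀ x w : G → ℝ, (∀ g, 0 ≤ x g) → (∀ g, 0 ≤ w g) →
      (univ.filter (fun g => x g ≠ 0)).card + (univ.filter (fun g => w g ≠ 0)).card ≤ L →
      (univ.filter (fun g => x g ≠ 0)).card + (univ.filter (fun g => w g ≠ 0)).card = n →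
      (S1 π x w) ^ 2 ≤ (∑ g, x g + ∑ g, w g) * S2 π x w := by
  induction n using Nat.strong_induction_on with
  | _ n IH =>
  intro x w hx hw hL hn
  by_cases hemp : (univ.filter (fun g => x g ≠ 0)).Nonempty ∨
      (univ.filter (fun g => w g ≠ 0)).Nonempty
  · rcases hπ _ _ hemp hL with ⟨g0, hg0, hu⟩ | ⟨g0, hg0, hu⟩
    · have hg : x g0 ≠ 0 := by simpa using hg0
      have hc := card_upd x g0 hg
      refine remove π x w hx hw g0 ?_ ?_
      · intro c c' h h'
        exact hu c c' (by simp [h]) (by simp [h'])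
      · refine IH _ (by omega) (Function.update x g0 0) w ?_ hw (by omega) rfl
        intro g
        by_cases h : g = g0
        · subst h; simp
        · rw [Function.update_of_ne h]; exact hx g
    · have hg : w g0 ≠ 0 := by simpa using hg0
      have hc := card_upd w g0 hg
      have h1 := remove (fun c => (π c)⁻¹) w x hw hx g0 (by
        intro c c' h h'
        exact hu c c' (by simpa using h) (by simpa using h')) (by
        rw [S1_symm, S2_symm, add_comm]
        refine IH _ (by omega) x (Function.update w g0 0) hx ?_ (by omega) rfl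
        intro g
        by_cases h : g = g0
        · subst h; simp
        · rw [Function.update_of_ne h]; exact hw g)
      rw [S1_symm, S2_symm, add_comm] at h1
      exact h1
  · push Not at hemp
    have hx0 : ∀ g, x g = 0 := by
      intro g
      by_contra h
      have : g ∈ univ.filter (fun g => x g ≠ 0) := by simp [h]
      rw [hemp.1] at this
      simp at this
    have : S1 π x w = 0 := by
      unfold S1
      refine sum_eq_zero (fun c _ => sum_eq_zero (fun g _ => ?_))
      rw [hx0, zero_mul]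
    rw [this]
    have h2 : S2 π x w = 0 := by
      unfold S2
      refine sum_eq_zero (fun c _ => sum_eq_zero (fun g _ => ?_))
      rw [hx0, zero_mul, zero_mul]
    rw [h2]
    simp

end forest

end Gr

open Gr in
theorem exists_graph (D L : ℕ) : ∃ (G : Type) (_ : Fintype G) (_ : DecidableEq G) (_ : Nonempty G)
    (π : Fin D → Equiv.Perm G), (∀ g c c', π c g = π c' g → c = c') ∧
    ∀ x w : G → ℝ, (∀ g, 0 ≤ x g) → (∀ g, 0 ≤ w g) →
      (univ.filter (fun g => x g ≠ 0)).card + (univ.filter (fun g => w g ≠ 0)).card ≤ L →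
      (∑ c, ∑ g, x g * w (π c g)) ^ 2 ≤
        (∑ g, x g + ∑ g, w g) * ∑ c, ∑ g, x g * w (π c g) * (x g + w (π c g)) := by
  classical
  have hfin : Fintype (Equiv.Perm (Wd D (L + 1))) := Fintype.ofFinite _
  refine ⟨Equiv.Perm (Wd D (L + 1)), hfin, Classical.decEq _, ⟨1⟩,
    fun c => Equiv.mulRight (sp c), ?_, ?_⟩
  · intro g c c' h
    simp only [Equiv.coe_mulRight, mul_right_inj] at h
    exact sp_inj (Nat.succ_pos L) c c' h
  · intro x w hx hw hL
    refine forest L (fun c => Equiv.mulRight (sp c)) ?_ _ x w hx hw hL rfl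
    intro A B hne hcard
    by_contra hcon
    push Not at hcon
    obtain ⟨hA, hB⟩ := hcon
    have hinv : ∀ (c : Fin D) (g : Equiv.Perm (Wd D (L + 1))),
        (Equiv.mulRight (sp c : Equiv.Perm (Wd D (L + 1))))⁻¹ g = g * sp c := by
      intro c g
      rw [Equiv.Perm.inv_eq_iff_eq]
      have h : (sp c : Equiv.Perm (Wd D (L + 1))) * sp c = 1 := by
        nth_rewrite 1 [← sp_inv]
        exact inv_mul_cancel _
      change g = (g * sp c) * sp c
      rw [mul_assoc, h, mul_one]
    have hS : ∀ b g, g ∈ (fun b : Bool => if b then B else A) b → ∀ c : Fin D,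
        ∃ c', c' ≠ c ∧ g * sp c' ∈ (fun b : Bool => if b then B else A) (!b) := by
      intro b g hg c
      cases b with
      | false =>
        obtain ⟨c1, c2, h1, h2, h3⟩ := hA g hg
        by_cases h : c1 = c
        · exact ⟨c2, fun h' => h3 (h.trans h'.symm), by simpa using h2⟩
        · exact ⟨c1, h, by simpa using h1⟩
      | true =>
        obtain ⟨c1, c2, h1, h2, h3⟩ := hB g hg
        rw [hinv] at h1 h2
        by_cases h : c1 = c
        · exact ⟨c2, fun h' => h3 (h.trans h'.symm), by simpa using h2⟩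
        · exact ⟨c1, h, by simpa using h1⟩
    refine no_closed (fun b : Bool => if b then B else A) hS ?_ ?_ ?_
    · rcases hne with h | h
      · exact ⟨false, by simpa using h⟩
      · exact ⟨true, by simpa using h⟩
    · rcases hne with ⟨g, hg⟩ | ⟨g, hg⟩
      · obtain ⟨c1, _⟩ := hA g hg
        exact ⟨c1⟩
      · obtain ⟨c1, _⟩ := hB g hg
        exact ⟨c1⟩
    · simp
      omega

end Pool.Agent.H62.Jump
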