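import Pool.Agent.H62.Jump.Basic

/-! M4: the hypergraph. Edges (each one contains all heavy sets except the indicated one):
* (none missing) `{1,2,s,h}`, `{1,2,s,z}`; `{o,o',h,s}`, `{o,o',h,z}` for `(o,o') ∈ J* × K*`,
  `(o,o') ≠ (1,2)`, `(o,o')` not of the form `(j_g, k_{π c g})`;
* (missing `inl false`) `{j_g,k_{π c g},1,2,h,u}`, `u ∈ {s,z}`;
* (missing `inl true`) `{j_g,k_{π c g},1,2,h,z}`;
* (missing `inr (false,c)`) `{j_g,j_g',k_{π c g},1,2,h,u}`, `g' ≠ g`, `u ∈ {s,z}`;
* (missing `inr (true,c)`) `{j_g,k_{π c g},k',1,2,h,u}`, `k' ≠ k_{π c g}`, `u ∈ {s,z}`.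
Suggestion: define a finset of quadruples `(A₁, A₂, A₃, m) : Finset (Option G) × Finset (Option G) ×
Finset (Fin 3) × Option (Idx D)` and map it injectively to `Finset (Vert G D)` by
`A₁.disjSum (A₂.disjSum (A₃.disjSum (univ.filter (fun p => m ≠ some p.1))))`. -/

namespace Pool.Agent.H62.Jump

open Finset

namespace HypAux

variable {G : Type} [Fintype G] [DecidableEq G] {D : ℕ}

/-- triples: part in the first side, part in the second side, part in `{s,h,z}` -/
abbrev Tri (G : Type) := (Finset (Option G) × Finset (Option G)) × Finset (Fin 3)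

/-- the heavy vertices not in the missing set -/
def heavy (m : Option (Idx D)) : Finset (Σ i : Idx D, Fin (sz i)) :=
  univ.filter (fun p => m ≠ some p.1)

/-- the edge with given data -/
def mk (q : Σ _ : Option (Idx D), Tri G) : Finset (Vert G D) :=
  q.2.1.1.disjSum (q.2.1.2.disjSum (q.2.2.disjSum (heavy q.1)))

lemma sz_pos (i : Idx D) : 0 < sz i := by
  rcases i with i | i <;> simp [sz]

lemma heavy_inj {m n : Option (Idx D)} (h : heavy m = heavy n) : m = n := by
  have key : ∀ m n : Option (Idx D), heavy m = heavy n → ∀ i, m = some i → n = some i := by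
    intro m n h i hi
    by_contra hne
    have : (⟨i, ⟨0, sz_pos i⟩⟩ : Σ i : Idx D, Fin (sz i)) ∈ heavy n := by
      simp [heavy, hne]
    rw [← h] at this
    simp [heavy, hi] at this
  rcases m with _ | i
  · rcases n with _ | j
    · rfl
    · have := key _ _ h.symm j rfl
      simp at this
  · exact (key _ _ h i rfl).symm

lemma disjSum_inj' {α β : Type} {a b : Finset α} {c d : Finset β}
    (h : a.disjSum c = b.disjSum d) : a = b ∧ c = d := by
  constructor
  · ext x
    have := congrArg (fun s => Sum.inl x ∈ s) h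
    simpa using this
  · ext x
    have := congrArg (fun s => Sum.inr x ∈ s) h
    simpa using this

lemma mk_inj : Function.Injective (mk : (Σ _ : Option (Idx D), Tri G) → Finset (Vert G D)) := by
  rintro ⟨m, ⟨⟨a, b⟩, c⟩⟩ ⟨n, ⟨⟨a', b'⟩, c'⟩⟩ h
  obtain ⟨h1, h⟩ := disjSum_inj' h
  obtain ⟨h2, h⟩ := disjSum_inj' h
  obtain ⟨h3, h⟩ := disjSum_inj' h
  have h4 := heavy_inj h
  simp only at h1 h2 h3 h4
  subst h1 h2 h3 h4
  rfl

/-- heavy product -/
def hp (y : Vert G D → ℝ) : Option (Idx D) → ℝ
  | none => ∏ i, rho y i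
  | some i => ∏ j ∈ univ.erase i, rho y j

lemma heavy_eq_sigma (m : Option (Idx D)) :
    heavy m = (univ.filter (fun i => m ≠ some i)).sigma (fun i => (univ : Finset (Fin (sz i)))) := by
  ext ⟨i, l⟩
  simp [heavy]

lemma prod_heavy (y : Vert G D → ℝ) (m : Option (Idx D)) :
    ∏ p ∈ heavy m, y (Sum.inr (Sum.inr (Sum.inr p))) = hp y m := by
  rw [heavy_eq_sigma, Finset.prod_sigma]
  rcases m with _ | i
  · simp [hp, rho, su]
  · have : (univ.filter (fun j : Idx D => some i ≠ some j)) = univ.erase i := by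
      ext j
      simp [eq_comm]
    rw [this]
    simp [hp, rho, su]

lemma card_heavy (m : Option (Idx D)) :
    (heavy m).card + (m.elim 0 sz) = 6 * D + 4 := by
  have htot : ∑ i : Idx D, sz i = 6 * D + 4 := by
    rw [Fintype.sum_sum_type, Fintype.sum_prod_type]
    simp [sz]
    ring
  rw [heavy_eq_sigma, Finset.card_sigma]
  simp only [card_univ, Fintype.card_fin]
  rcases m with _ | i
  · simpa using htot
  · have : (univ.filter (fun j : Idx D => some i ≠ some j)) = univ.erase i := by
      ext j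
      simp [eq_comm]
    rw [this]
    simp only [Option.elim]
    rw [← htot]
    exact Finset.sum_erase_add _ _ (mem_univ i)

/-- weight of a triple -/
def val (y : Vert G D → ℝ) (t : Tri G) : ℝ :=
  (∏ o ∈ t.1.1, y (Sum.inl o)) * (∏ o ∈ t.1.2, y (Sum.inr (Sum.inl o))) *
    ∏ a ∈ t.2, y (Sum.inr (Sum.inr (Sum.inl a)))

lemma prod_mkq (y : Vert G D → ℝ) (q : Σ _ : Option (Idx D), Tri G) :
    ∏ v ∈ mk q, y v = val y q.2 * hp y q.1 := by
  rcases q with ⟨m, ⟨⟨a, b⟩, c⟩⟩
  simp only [mk, val]
  rw [Finset.prod_disjSum, Finset.prod_disjSum, Finset.prod_disjSum, prod_heavy]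
  ring

lemma card_mk (q : Σ _ : Option (Idx D), Tri G) :
    (mk q).card + (q.1.elim 0 sz) = q.2.1.1.card + q.2.1.2.card + q.2.2.card + (6 * D + 4) := by
  rcases q with ⟨m, ⟨⟨a, b⟩, c⟩⟩
  simp only [mk, Finset.card_disjSum]
  have := card_heavy m
  omega

variable (π : Fin D → Equiv.Perm G)

/-- pairs of the main part -/
def pairs0 : Finset (Finset (Option G) × Finset (Option G)) :=
  ((univ : Finset (Option G × Option G)).filter
    (fun p => ¬ (p = (none, none) ∨ ∃ q : Fin D × G, (some q.2, some (π q.1 q.2)) = p))).image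
    (fun p => ({p.1}, {p.2}))

def pairs1 : Finset (Finset (Option G) × Finset (Option G)) :=
  (univ : Finset (Fin D × G)).image (fun q => ({none, some q.2}, {none, some (π q.1 q.2)}))

def pairs2 (c : Fin D) : Finset (Finset (Option G) × Finset (Option G)) :=
  ((univ : Finset (G × G)).filter (fun q => q.2 ≠ q.1)).image
    (fun q => ({none, some q.1, some q.2}, {none, some (π c q.1)}))

def pairs3 (c : Fin D) : Finset (Finset (Option G) × Finset (Option G)) :=
  ((univ : Finset (G × G)).filter (fun q => q.2 ≠ π c q.1)).image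
    (fun q => ({none, some q.1}, {none, some (π c q.1), some q.2}))

/-- the triples with missing set `m` -/
def T : Option (Idx D) → Finset (Tri G)
  | none => ({({none}, {none})} ×ˢ {{0, 1}, {0, 2}}) ∪ (pairs0 π ×ˢ {{0, 1}, {1, 2}})
  | some (Sum.inl false) => pairs1 π ×ˢ {{0, 1}, {1, 2}}
  | some (Sum.inl true) => pairs1 π ×ˢ {{1, 2}}
  | some (Sum.inr (false, c)) => pairs2 π c ×ˢ {{0, 1}, {1, 2}}
  | some (Sum.inr (true, c)) => pairs3 π c ×ˢ {{0, 1}, {1, 2}}

/-- weight of a pair -/
def pv (y : Vert G D → ℝ) (t : Finset (Option G) × Finset (Option G)) : ℝ :=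
  (∏ o ∈ t.1, y (Sum.inl o)) * (∏ o ∈ t.2, y (Sum.inr (Sum.inl o)))

lemma sum_prod_val (y : Vert G D → ℝ) (A : Finset (Finset (Option G) × Finset (Option G)))
    (B : Finset (Finset (Fin 3))) :
    ∑ t ∈ A ×ˢ B, val y t =
      (∑ p ∈ A, pv y p) * ∑ b ∈ B, ∏ a ∈ b, y (Sum.inr (Sum.inr (Sum.inl a))) := by
  rw [Finset.sum_product, Finset.sum_mul_sum]
  rfl

lemma sum01_02 (y : Vert G D → ℝ) :
    ∑ b ∈ ({{0, 1}, {0, 2}} : Finset (Finset (Fin 3))), ∏ a ∈ b, y (Sum.inr (Sum.inr (Sum.inl a)))
      = ys y * (yh y + yz y) := by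
  rw [Finset.sum_pair (by decide), Finset.prod_pair (by decide), Finset.prod_pair (by decide)]
  simp only [ys, yh, yz]
  ring

lemma sum01_12 (y : Vert G D → ℝ) :
    ∑ b ∈ ({{0, 1}, {1, 2}} : Finset (Finset (Fin 3))), ∏ a ∈ b, y (Sum.inr (Sum.inr (Sum.inl a)))
      = yh y * (ys y + yz y) := by
  rw [Finset.sum_pair (by decide), Finset.prod_pair (by decide), Finset.prod_pair (by decide)]
  simp only [ys, yh, yz]
  ring

lemma sum12 (y : Vert G D → ℝ) :
    ∑ b ∈ ({{1, 2}} : Finset (Finset (Fin 3))), ∏ a ∈ b, y (Sum.inr (Sum.inr (Sum.inl a)))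
      = yh y * yz y := by
  rw [Finset.sum_singleton, Finset.prod_pair (by decide)]
  simp only [yh, yz]

lemma sum_pairs0 (hπ : ∀ g c c', π c g = π c' g → c = c') (y : Vert G D → ℝ) :
    ∑ p ∈ pairs0 π, pv y p =
      (y1 y + X y) * (y2 y + W y) - y1 y * y2 y - PP π y := by
  have hinj : Set.InjOn (fun p : Option G × Option G =>
      (({p.1}, {p.2}) : Finset (Option G) × Finset (Option G)))
      (((univ : Finset (Option G × Option G)).filter
    (fun p => ¬ (p = (none, none) ∨ ∃ q : Fin D × G, (some q.2, some (π q.1 q.2)) = p))) :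
      Set (Option G × Option G)) := by
    rintro ⟨a, b⟩ _ ⟨a', b'⟩ _ h
    simp only [Prod.mk.injEq, Finset.singleton_inj] at h
    simp [h.1, h.2]
  unfold pairs0
  rw [Finset.sum_image hinj]
  simp only [pv, Finset.prod_singleton]
  have htot : ∑ p : Option G × Option G, y (Sum.inl p.1) * y (Sum.inr (Sum.inl p.2)) =
      (y1 y + X y) * (y2 y + W y) := by
    rw [Fintype.sum_prod_type]
    simp only []
    rw [← Finset.sum_mul_sum]
    rw [Fintype.sum_option, Fintype.sum_option]
    rfl
  have hsplit := Finset.sum_filter_add_sum_filter_not (univ : Finset (Option G × Option G))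
    (fun p => (p = (none, none) ∨ ∃ q : Fin D × G, (some q.2, some (π q.1 q.2)) = p))
    (fun p => y (Sum.inl p.1) * y (Sum.inr (Sum.inl p.2)))
  rw [htot] at hsplit
  have hset : (univ : Finset (Option G × Option G)).filter
      (fun p => (p = (none, none) ∨ ∃ q : Fin D × G, (some q.2, some (π q.1 q.2)) = p)) =
      insert (none, none) ((univ : Finset (Fin D × G)).image
        (fun q => (some q.2, some (π q.1 q.2)))) := by
    ext p
    simp only [mem_filter, mem_univ, true_and, mem_insert, mem_image]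
  rw [hset, Finset.sum_insert (by simp), Finset.sum_image] at hsplit
  · rw [Fintype.sum_prod_type] at hsplit
    have : PP π y = ∑ c : Fin D, ∑ g : G, y (Sum.inl (some g)) * y (Sum.inr (Sum.inl (some (π c g)))) := rfl
    rw [← this] at hsplit
    have h12 : y1 y * y2 y = y (Sum.inl none) * y (Sum.inr (Sum.inl none)) := rfl
    linarith
  · rintro ⟨c, g⟩ _ ⟨c', g'⟩ _ h
    simp only [Prod.mk.injEq, Option.some.injEq] at h
    obtain ⟨h1, h2⟩ := h
    subst h1
    rw [hπ _ _ _ h2]

lemma pair_none_inj {a b : G} (h : ({none, some a} : Finset (Option G)) = {none, some b}) : a = b := by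
  have : some a ∈ ({none, some b} : Finset (Option G)) := by rw [← h]; simp
  simpa using this

lemma sum_pairs1 (hπ : ∀ g c c', π c g = π c' g → c = c') (y : Vert G D → ℝ) :
    ∑ p ∈ pairs1 π, pv y p = y1 y * y2 y * PP π y := by
  unfold pairs1
  rw [Finset.sum_image]
  · rw [Fintype.sum_prod_type]
    unfold PP Pc
    rw [Finset.mul_sum]
    refine Finset.sum_congr rfl fun c _ => ?_
    rw [Finset.mul_sum]
    refine Finset.sum_congr rfl fun g _ => ?_
    simp only [pv]
    rw [Finset.prod_pair (by simp), Finset.prod_pair (by simp)]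
    simp only [y1, y2, xx, ww]
    ring
  · rintro ⟨c, g⟩ _ ⟨c', g'⟩ _ h
    simp only [Prod.mk.injEq] at h
    obtain ⟨h1, h2⟩ := h
    have h1 := pair_none_inj h1
    have h2 := pair_none_inj h2
    subst h1
    rw [hπ _ _ _ h2]

lemma triple_inj {a b b' : G} (hb : b ≠ a) (hb' : b' ≠ a)
    (h : ({none, some a, some b} : Finset (Option G)) = {none, some a, some b'}) : b = b' := by
  have : some b ∈ ({none, some a, some b'} : Finset (Option G)) := by rw [← h]; simp
  simp only [mem_insert, mem_singleton, Option.some.injEq, reduceCtorEq, false_or] at this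
  rcases this with h | h
  · exact absurd h hb
  · exact h

lemma sum_offdiag (f : G → ℝ) (x : G → ℝ) (k : G → G) :
    ∑ q ∈ (univ : Finset (G × G)).filter (fun q => q.2 ≠ k q.1), f q.1 * x q.2 =
      ∑ g, f g * (∑ g', x g' - x (k g)) := by
  rw [Finset.sum_filter, Fintype.sum_prod_type]
  refine Finset.sum_congr rfl fun g _ => ?_
  simp only [ne_eq, ite_not]
  have : ∀ g', (if g' = k g then (0 : ℝ) else f g * x g') =
      f g * x g' - (if g' = k g then f g * x g' else 0) := by
    intro g'; split_ifs <;> ring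
  simp only [this]
  rw [Finset.sum_sub_distrib, Finset.sum_ite_eq' univ (k g)]
  simp only [mem_univ, if_true]
  rw [← Finset.mul_sum]
  ring

lemma sum_pairs2 (y : Vert G D → ℝ) (c : Fin D) :
    ∑ p ∈ pairs2 π c, pv y p =
      y1 y * y2 y * ∑ g, xx y g * ww y (π c g) * (X y - xx y g) := by
  unfold pairs2
  rw [Finset.sum_image]
  · have h := sum_offdiag (fun g => y1 y * y2 y * (xx y g * ww y (π c g))) (fun g => xx y g) id
    rw [Finset.mul_sum]
    have h2 : ∑ q ∈ (univ : Finset (G × G)).filter (fun q => q.2 ≠ q.1),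
        pv y (({none, some q.1, some q.2}, {none, some (π c q.1)}) :
          Finset (Option G) × Finset (Option G)) =
        ∑ q ∈ (univ : Finset (G × G)).filter (fun q => q.2 ≠ id q.1),
          (y1 y * y2 y * (xx y q.1 * ww y (π c q.1))) * xx y q.2 := by
      refine Finset.sum_congr rfl fun q hq => ?_
      simp only [mem_filter, mem_univ, true_and] at hq
      simp only [pv]
      rw [Finset.prod_insert (by simp), Finset.prod_pair (by simpa using hq.symm),
        Finset.prod_pair (by simp)]
      simp only [y1, y2, xx, ww]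
      ring
    rw [h2, h]
    refine Finset.sum_congr rfl fun g _ => ?_
    simp only [id]
    unfold X
    ring
  · rintro ⟨g, g'⟩ hg ⟨k, k'⟩ hk h
    simp only [coe_filter, mem_univ, true_and, Set.mem_ofPred_eq] at hg hk
    simp only [Prod.mk.injEq] at h
    obtain ⟨h1, h2⟩ := h
    have h2 := (π c).injective (pair_none_inj h2)
    subst h2
    rw [triple_inj hg hk h1]

lemma sum_pairs3 (y : Vert G D → ℝ) (c : Fin D) :
    ∑ p ∈ pairs3 π c, pv y p =
      y1 y * y2 y * ∑ g, xx y g * ww y (π c g) * (W y - ww y (π c g)) := by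
  unfold pairs3
  rw [Finset.sum_image]
  · have h := sum_offdiag (fun g => y1 y * y2 y * (xx y g * ww y (π c g))) (fun g => ww y g) (π c)
    rw [Finset.mul_sum]
    have h2 : ∑ q ∈ (univ : Finset (G × G)).filter (fun q => q.2 ≠ π c q.1),
        pv y (({none, some q.1}, {none, some (π c q.1), some q.2}) :
          Finset (Option G) × Finset (Option G)) =
        ∑ q ∈ (univ : Finset (G × G)).filter (fun q => q.2 ≠ π c q.1),
          (y1 y * y2 y * (xx y q.1 * ww y (π c q.1))) * ww y q.2 := by
      refine Finset.sum_congr rfl fun q hq => ?_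
      simp only [mem_filter, mem_univ, true_and] at hq
      simp only [pv]
      rw [Finset.prod_pair (by simp), Finset.prod_insert (by simp),
        Finset.prod_pair (by simpa using hq.symm)]
      simp only [y1, y2, xx, ww]
      ring
    rw [h2, h]
    refine Finset.sum_congr rfl fun g _ => ?_
    unfold W
    ring
  · rintro ⟨g, g'⟩ hg ⟨k, k'⟩ hk h
    simp only [coe_filter, mem_univ, true_and, Set.mem_ofPred_eq] at hg hk
    simp only [Prod.mk.injEq] at h
    obtain ⟨h1, h2⟩ := h
    have h1 := pair_none_inj h1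
    subst h1
    rw [triple_inj hg hk h2]

lemma sum_T_none (hπ : ∀ g c c', π c g = π c' g → c = c') (y : Vert G D → ℝ) :
    ∑ t ∈ T π none, val y t = F0 π y := by
  simp only [T]
  rw [Finset.sum_union, sum_prod_val, sum_prod_val, sum01_02, sum01_12, sum_pairs0 π hπ,
    Finset.sum_singleton]
  · simp only [pv, Finset.prod_singleton, F0, y1, y2]
    ring
  · rw [Finset.disjoint_left]
    rintro ⟨⟨a, b⟩, t⟩ h1 h2
    simp only [mem_product, mem_singleton, Prod.mk.injEq] at h1 h2
    obtain ⟨⟨ha, hb⟩, -⟩ := h1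
    obtain ⟨h2, -⟩ := h2
    subst ha hb
    simp only [pairs0, mem_image, mem_filter, mem_univ, true_and, Prod.mk.injEq,
      Finset.singleton_inj] at h2
    obtain ⟨⟨p, q⟩, hp, hp1, hp2⟩ := h2
    simp only at hp1 hp2
    subst hp1 hp2
    exact hp (Or.inl rfl)

lemma sum_T_some (hπ : ∀ g c c', π c g = π c' g → c = c') (y : Vert G D → ℝ) (i : Idx D) :
    ∑ t ∈ T π (some i), val y t = bb π y i := by
  rcases i with (_ | _) | ⟨_ | _, c⟩
  · simp only [T, bb]
    rw [sum_prod_val, sum01_12, sum_pairs1 π hπ]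
  · simp only [T, bb]
    rw [sum_prod_val, sum12, sum_pairs1 π hπ]
  · simp only [T, bb]
    rw [sum_prod_val, sum01_12, sum_pairs2]
    ring
  · simp only [T, bb]
    rw [sum_prod_val, sum01_12, sum_pairs3]
    ring

lemma card_none_two {g : G} : ({none, some g} : Finset (Option G)).card = 2 :=
  Finset.card_pair (by simp)

lemma card_three {g g' : G} (h : g' ≠ g) : ({none, some g, some g'} : Finset (Option G)).card = 3 := by
  rw [Finset.card_insert_of_notMem (by simp), Finset.card_pair (by simpa using h.symm)]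

lemma card01_12 {b : Finset (Fin 3)} (h : b ∈ ({{0, 1}, {1, 2}} : Finset (Finset (Fin 3)))) :
    b.card = 2 := by
  simp only [mem_insert, mem_singleton] at h
  rcases h with rfl | rfl <;> decide

lemma card01_02 {b : Finset (Fin 3)} (h : b ∈ ({{0, 1}, {0, 2}} : Finset (Finset (Fin 3)))) :
    b.card = 2 := by
  simp only [mem_insert, mem_singleton] at h
  rcases h with rfl | rfl <;> decide

lemma card_T (m : Option (Idx D)) (t : Tri G) (ht : t ∈ T π m) :
    t.1.1.card + t.1.2.card + t.2.card = 4 + m.elim 0 sz := by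
  rcases t with ⟨⟨a, b⟩, d⟩
  rcases m with _ | (_ | _) | ⟨_ | _, c⟩
  · simp only [T, mem_union, mem_product, mem_singleton, Prod.mk.injEq] at ht
    simp only [Option.elim]
    rcases ht with ⟨⟨rfl, rfl⟩, h⟩ | ⟨h1, h⟩
    · rw [card01_02 h]; simp
    · rw [card01_12 h]
      simp only [pairs0, mem_image, mem_filter, mem_univ, true_and, Prod.mk.injEq] at h1
      obtain ⟨p, -, rfl, rfl⟩ := h1
      simp
  · simp only [T, mem_product, pairs1, mem_image, mem_univ, true_and, Prod.mk.injEq] at ht
    obtain ⟨⟨p, rfl, rfl⟩, h⟩ := ht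
    simp only [Option.elim, sz]
    rw [card01_12 h, card_none_two, card_none_two]
  · simp only [T, mem_product, pairs1, mem_image, mem_univ, true_and, Prod.mk.injEq,
      mem_singleton] at ht
    obtain ⟨⟨p, rfl, rfl⟩, rfl⟩ := ht
    simp only [Option.elim, sz]
    rw [card_none_two, card_none_two]
    decide
  · simp only [T, mem_product, pairs2, mem_image, mem_filter, mem_univ, true_and,
      Prod.mk.injEq] at ht
    obtain ⟨⟨p, hp, rfl, rfl⟩, h⟩ := ht
    simp only [Option.elim, sz]
    rw [card01_12 h, card_none_two, card_three hp]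
  · simp only [T, mem_product, pairs3, mem_image, mem_filter, mem_univ, true_and,
      Prod.mk.injEq] at ht
    obtain ⟨⟨p, hp, rfl, rfl⟩, h⟩ := ht
    simp only [Option.elim, sz]
    rw [card01_12 h, card_none_two, card_three hp]

end HypAux

open HypAux in
theorem exists_hyp (G : Type) [Fintype G] [DecidableEq G] (D : ℕ) (π : Fin D → Equiv.Perm G)
    (hπ : ∀ g c c', π c g = π c' g → c = c') :
    ∃ E : Finset (Finset (Vert G D)), (∀ e ∈ E, e.card = 6 * D + 8) ∧
      ∀ y : Vert G D → ℝ, lag E y =
        (∏ i, rho y i) * F0 π y + ∑ i, bb π y i * ∏ j ∈ univ.erase i, rho y j := by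
  classical
  refine ⟨((univ : Finset (Option (Idx D))).sigma (fun m => T π m)).image mk, ?_, ?_⟩
  · intro e he
    simp only [mem_image, mem_sigma, mem_univ, true_and] at he
    obtain ⟨q, hq, rfl⟩ := he
    have h1 := card_mk q
    have h2 := card_T π q.1 q.2 hq
    omega
  · intro y
    unfold lag
    rw [Finset.sum_image (mk_inj.injOn), Finset.sum_sigma, Fintype.sum_option]
    have h0 : ∑ s ∈ T π none, ∏ v ∈ mk (⟨none, s⟩ : Σ _ : Option (Idx D), Tri G), y v =
        (∏ i, rho y i) * F0 π y := by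
      simp only [prod_mkq]
      rw [← Finset.sum_mul, sum_T_none π hπ, mul_comm]
      rfl
    rw [h0]
    congr 1
    refine Finset.sum_congr rfl fun i _ => ?_
    simp only [prod_mkq]
    rw [← Finset.sum_mul, sum_T_some π hπ]
    rfl

end Pool.Agent.H62.Jump
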