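import Pool.Agent.H62.Jump.Basic

/-! M8: lower bound: explicit integer weights. -/

namespace Pool.Agent.H62.Jump

open Finset

namespace LowerAux

variable {G : Type} [Fintype G]

/-- the weights: `1` on `J` and `K`, `N - n` on `1` and `2`, `N` on `s`, `N - 8` on `h`, `8` on `z`
and `N` on the heavy sets -/
def wt (n N : ℕ) {G : Type} {D : ℕ} : Vert G D → ℕ
  | Sum.inl none => N - n
  | Sum.inl (some _) => 1
  | Sum.inr (Sum.inl none) => N - n
  | Sum.inr (Sum.inl (some _)) => 1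
  | Sum.inr (Sum.inr (Sum.inl 0)) => N
  | Sum.inr (Sum.inr (Sum.inl 1)) => N - 8
  | Sum.inr (Sum.inr (Sum.inl 2)) => 8
  | Sum.inr (Sum.inr (Sum.inr _)) => N

lemma sum_sz : ∑ i : Idx 32, sz i = 196 := by
  rw [Fintype.sum_sum_type, Fintype.sum_prod_type]
  simp [sz]

lemma poly_ineq (n : ℝ) (hn : 1 ≤ n) :
    let N := 64 * n ^ 2
    let V := (N - n) * (N - n)
    N ^ 200 < N ^ 196 * (V * N * (N - 8 + 8) +
        ((N - n + n) * (N - n + n) - V - 32 * n) * ((N - 8) * (N + 8))) +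
      ((V * (32 * n) * ((N - 8) * (N + 8)) * N ^ 194 + V * (32 * n) * ((N - 8) * 8) * N ^ 194) +
      (32 * (V * ((N - 8) * (N + 8)) * (n * (n - 1)) * N ^ 193) +
        32 * (V * ((N - 8) * (N + 8)) * (n * (n - 1)) * N ^ 193))) := by
  intro N V
  have hN : 0 < N := by positivity
  have key : 0 < N ^ 3 * ((V * N * (N - 8 + 8) +
        ((N - n + n) * (N - n + n) - V - 32 * n) * ((N - 8) * (N + 8)))) +
      (V * (32 * n) * ((N - 8) * (N + 8)) * N + V * (32 * n) * ((N - 8) * 8) * N) +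
      (32 * (V * ((N - 8) * (N + 8)) * (n * (n - 1))) +
        32 * (V * ((N - 8) * (N + 8)) * (n * (n - 1)))) - N ^ 7 := by
    obtain ⟨m, rfl⟩ : ∃ m : ℝ, n = m + 1 := ⟨n - 1, by ring⟩
    have hm : 0 ≤ m := by linarith
    simp only [N, V]
    ring_nf
    positivity
  have h193 : 0 < N ^ 193 := by positivity
  have := mul_pos h193 key
  have e : N ^ 193 * (N ^ 3 * ((V * N * (N - 8 + 8) +
        ((N - n + n) * (N - n + n) - V - 32 * n) * ((N - 8) * (N + 8)))) +
      (V * (32 * n) * ((N - 8) * (N + 8)) * N + V * (32 * n) * ((N - 8) * 8) * N) +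
      (32 * (V * ((N - 8) * (N + 8)) * (n * (n - 1))) +
        32 * (V * ((N - 8) * (N + 8)) * (n * (n - 1)))) - N ^ 7) =
      (N ^ 196 * (V * N * (N - 8 + 8) +
        ((N - n + n) * (N - n + n) - V - 32 * n) * ((N - 8) * (N + 8))) +
      ((V * (32 * n) * ((N - 8) * (N + 8)) * N ^ 194 + V * (32 * n) * ((N - 8) * 8) * N ^ 194) +
      (32 * (V * ((N - 8) * (N + 8)) * (n * (n - 1)) * N ^ 193) +
        32 * (V * ((N - 8) * (N + 8)) * (n * (n - 1)) * N ^ 193)))) - N ^ 200 := by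
    clear_value N V
    ring
  rw [e] at this
  linarith

end LowerAux

open LowerAux in
theorem lower (G : Type) [Fintype G] [DecidableEq G] [Nonempty G] (π : Fin 32 → Equiv.Perm G)
    (E : Finset (Finset (Vert G 32)))
    (hE : ∀ y : Vert G 32 → ℝ, lag E y =
        (∏ i, rho y i) * F0 π y + ∑ i, bb π y i * ∏ j ∈ univ.erase i, rho y j) :
    ∃ a : Vert G 32 → ℕ, (((6 * 32 + 8 : ℕ) : ℝ)⁻¹) ^ (6 * 32 + 8) * (∑ v, (a v : ℝ)) ^ (6 * 32 + 8)
      < lag E (fun v => (a v : ℝ)) := by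
  classical
  set n : ℕ := Fintype.card G with hndef
  have hn1 : 1 ≤ n := Fintype.card_pos
  set N : ℕ := 64 * n ^ 2 with hNdef
  have hNn : n ≤ N := by nlinarith
  have hN8 : 8 ≤ N := by nlinarith
  have hcN : ((N : ℕ) : ℝ) = 64 * (n : ℝ) ^ 2 := by rw [hNdef]; push_cast; ring
  refine ⟨wt n N, ?_⟩
  rw [hE]
  set y : Vert G 32 → ℝ := fun v => ((wt n N v : ℕ) : ℝ) with hy
  have e1 : y1 y = (N : ℝ) - n := by
    simp only [y1, hy, wt]; rw [Nat.cast_sub hNn]
  have e2 : y2 y = (N : ℝ) - n := by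
    simp only [y2, hy, wt]; rw [Nat.cast_sub hNn]
  have ex : ∀ g, xx y g = 1 := by intro g; simp [xx, hy, wt]
  have ew : ∀ g, ww y g = 1 := by intro g; simp [ww, hy, wt]
  have es : ys y = N := by simp [ys, hy, wt]
  have eh : yh y = (N : ℝ) - 8 := by
    simp only [yh, hy, wt]; rw [Nat.cast_sub hN8]; norm_num
  have ez : yz y = 8 := by simp [yz, hy, wt]
  have eX : X y = n := by simp [X, ex, hndef]
  have eW : W y = n := by simp [W, ew, hndef]
  have er : ∀ i, rho y i = (N : ℝ) ^ sz i := by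
    intro i
    simp [rho, su, hy, wt]
  have eP : PP π y = 32 * n := by
    simp [PP, Pc, ex, ew, hndef]
  have erp : ∏ i, rho y i = (N : ℝ) ^ 196 := by
    simp only [er]
    rw [Finset.prod_pow_eq_pow_sum, sum_sz]
  have ere : ∀ i, ∏ j ∈ univ.erase i, rho y j = (N : ℝ) ^ (196 - sz i) := by
    intro i
    simp only [er]
    rw [Finset.prod_pow_eq_pow_sum]
    congr 1
    have := Finset.sum_erase_add univ (fun i : Idx 32 => sz i) (mem_univ i)
    rw [sum_sz] at this
    omega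
  have esum : (∑ v, y v) = 200 * N := by
    rw [Fintype.sum_sum_type, Fintype.sum_sum_type, Fintype.sum_sum_type, Fintype.sum_option,
      Fintype.sum_option, Fin.sum_univ_three]
    have h1 : ∑ g, y (Sum.inl (some g)) = n := eX
    have h2 : ∑ g, y (Sum.inr (Sum.inl (some g))) = n := eW
    have h3 : ∑ p : (Σ i : Idx 32, Fin (sz i)), y (Sum.inr (Sum.inr (Sum.inr p))) = 196 * N := by
      rw [Fintype.sum_sigma]
      have : ∀ i : Idx 32, ∑ l : Fin (sz i), y (Sum.inr (Sum.inr (Sum.inr ⟨i, l⟩))) =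
          (sz i : ℝ) * N := by
        intro i
        simp [hy, wt]
      simp only [this]
      rw [← Finset.sum_mul]
      have h4 : (∑ i : Idx 32, (sz i : ℝ)) = 196 := by
        have := congrArg (Nat.cast : ℕ → ℝ) sum_sz
        push_cast at this
        exact this
      rw [h4]
    rw [h1, h2, h3]
    have k1 : y (Sum.inl none) = (N : ℝ) - n := e1
    have k2 : y (Sum.inr (Sum.inl none)) = (N : ℝ) - n := e2
    have k3 : y (Sum.inr (Sum.inr (Sum.inl 0))) = N := es
    have k4 : y (Sum.inr (Sum.inr (Sum.inl 1))) = (N : ℝ) - 8 := eh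
    have k5 : y (Sum.inr (Sum.inr (Sum.inl 2))) = 8 := ez
    rw [k1, k2, k3, k4, k5]
    ring
  have hlhs : (((6 * 32 + 8 : ℕ) : ℝ)⁻¹) ^ (6 * 32 + 8) * (∑ v, y v) ^ (6 * 32 + 8) =
      (N : ℝ) ^ 200 := by
    rw [esum, ← mul_pow]
    congr 1
    push_cast
    ring
  rw [hlhs, erp]
  have eb1 : bb π y (Sum.inl false) = ((N : ℝ) - n) * (N - n) * (32 * n) * ((N - 8) * (N + 8)) := by
    simp only [bb, e1, e2, eP, eh, es, ez]
  have eb2 : bb π y (Sum.inl true) = ((N : ℝ) - n) * (N - n) * (32 * n) * ((N - 8) * 8) := by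
    simp only [bb, e1, e2, eP, eh, ez]
  have eb3 : ∀ c, bb π y (Sum.inr (false, c)) =
      ((N : ℝ) - n) * (N - n) * ((N - 8) * (N + 8)) * (n * (n - 1)) := by
    intro c
    simp only [bb, e1, e2, eh, es, ez, ex, ew, eX, mul_one, one_mul]
    rw [Finset.sum_const, Finset.card_univ, ← hndef, nsmul_eq_mul]
  have eb4 : ∀ c, bb π y (Sum.inr (true, c)) =
      ((N : ℝ) - n) * (N - n) * ((N - 8) * (N + 8)) * (n * (n - 1)) := by
    intro c
    simp only [bb, e1, e2, eh, es, ez, ex, ew, eW, mul_one, one_mul]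
    rw [Finset.sum_const, Finset.card_univ, ← hndef, nsmul_eq_mul]
  have ebs : ∑ i, bb π y i * ∏ j ∈ univ.erase i, rho y j =
      (((N : ℝ) - n) * (N - n) * (32 * n) * ((N - 8) * (N + 8)) * N ^ 194
        + ((N : ℝ) - n) * (N - n) * (32 * n) * ((N - 8) * 8) * N ^ 194) +
      (32 * (((N : ℝ) - n) * (N - n) * ((N - 8) * (N + 8)) * (n * (n - 1)) * N ^ 193) +
        32 * (((N : ℝ) - n) * (N - n) * ((N - 8) * (N + 8)) * (n * (n - 1)) * N ^ 193)) := by
    simp only [ere]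
    rw [Fintype.sum_sum_type, Fintype.sum_prod_type]
    simp only [Fintype.sum_bool, eb1, eb2, eb3, eb4]
    have s1 : sz (Sum.inl true : Idx 32) = 2 := rfl
    have s2 : sz (Sum.inl false : Idx 32) = 2 := rfl
    have s3 : ∀ c, sz (Sum.inr (true, c) : Idx 32) = 3 := fun _ => rfl
    have s4 : ∀ c, sz (Sum.inr (false, c) : Idx 32) = 3 := fun _ => rfl
    simp only [s1, s2, s3, s4]
    simp only [Finset.sum_const, Finset.card_univ, Fintype.card_fin, nsmul_eq_mul]
    norm_num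
    ring
  rw [ebs]
  have eF : F0 π y = ((N : ℝ) - n) * (N - n) * N * (N - 8 + 8) +
      ((N - n + n) * (N - n + n) - ((N : ℝ) - n) * (N - n) - 32 * n) * ((N - 8) * (N + 8)) := by
    simp only [F0, e1, e2, eX, eW, es, eh, ez, eP]
  rw [eF, hcN]
  exact poly_ineq (n : ℝ) (by exact_mod_cast hn1)

end Pool.Agent.H62.Jump
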