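import Pool.Agent.H62.Jump.Basic

/-! M2: sampling. If the Lagrangian bound holds for all weightings with support of size at most `t`,
it holds up to the factor `t^r / (t)_r` for all weightings.
Proof: for `φ : Fin t → V` with weight `∏ i, y (φ i)` and counting vector `c_φ v = #{i | φ i = v}`,
`∑_φ (∏ i, y (φ i)) * lag E c_φ = (t)_r * lag E y * (∑ y)^(t-r)`, and `lag E c_φ ≤ B * t^r`. -/

namespace Pool.Agent.H62.Jump

open Finset

namespace Samp

variable {V : Type} [Fintype V] [DecidableEq V]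

/-- number of indices mapped to `v` -/
def cnt {t : ℕ} (φ : Fin t → V) (v : V) : ℝ := ((univ.filter (fun i => φ i = v)).card : ℝ)

theorem cnt_eq {t : ℕ} (φ : Fin t → V) (v : V) : cnt φ v = ∑ i, if φ i = v then (1 : ℝ) else 0 := by
  unfold cnt
  rw [Finset.card_filter]
  push_cast
  rfl

theorem inner {t : ℕ} (e : Finset V) (y : V → ℝ) (ψ : e ↪ Fin t) :
    ∑ φ : Fin t → V, (∏ i, y (φ i)) * ∏ v : e, (if φ (ψ v) = v then (1 : ℝ) else 0) =
      (∏ v ∈ e, y v) * (∑ v, y v) ^ (t - e.card) := by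
  classical
  let g : Fin t → V → ℝ := fun i u => y u * ∏ v : e, (if ψ v = i then (if u = v then (1 : ℝ) else 0) else 1)
  have h1 : ∀ φ : Fin t → V, (∏ i, y (φ i)) * ∏ v : e, (if φ (ψ v) = v then (1 : ℝ) else 0) =
      ∏ i, g i (φ i) := by
    intro φ
    simp only [g]
    rw [Finset.prod_mul_distrib, Finset.prod_comm]
    congr 1
    apply Finset.prod_congr rfl
    intro v _
    rw [Finset.prod_ite_eq]
    simp
  rw [Finset.sum_congr rfl (fun φ _ => h1 φ)]
  have h2 : ∑ φ : Fin t → V, ∏ i, g i (φ i) = ∏ i, ∑ u, g i u := by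
    rw [Finset.prod_univ_sum]
    rw [Fintype.piFinset_univ]
  rw [h2, ← Finset.prod_mul_prod_compl (univ.map ψ) (fun i => ∑ u, g i u), Finset.prod_map]
  congr 1
  · rw [← Finset.prod_coe_sort e]
    apply Finset.prod_congr rfl
    intro v0 _
    have h3 : ∀ u, g (ψ v0) u = if u = v0 then y u else 0 := by
      intro u
      simp only [g, EmbeddingLike.apply_eq_iff_eq]
      rw [Finset.prod_ite_eq']
      simp
    rw [Finset.sum_congr rfl (fun u _ => h3 u), Finset.sum_ite_eq']
    simp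
  · have h4 : ∀ i ∈ (univ.map ψ)ᶜ, ∑ u, g i u = ∑ v, y v := by
      intro i hi
      apply Finset.sum_congr rfl
      intro u _
      simp only [g]
      rw [Finset.prod_eq_one, mul_one]
      intro v _
      rw [if_neg]
      rintro rfl
      simp at hi
    rw [Finset.prod_congr rfl h4, Finset.prod_const, Finset.card_compl, Finset.card_map]
    simp

theorem key {t : ℕ} (e : Finset V) (y : V → ℝ) (hy : ∀ v, 0 ≤ y v) :
    (t.descFactorial e.card : ℝ) * ((∏ v ∈ e, y v) * (∑ v, y v) ^ (t - e.card)) ≤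
      ∑ φ : Fin t → V, (∏ i, y (φ i)) * ∏ v ∈ e, cnt φ v := by
  classical
  have h1 : ∀ φ : Fin t → V, ∑ ψ : e ↪ Fin t, ∏ v : e, (if φ (ψ v) = v then (1 : ℝ) else 0) ≤
      ∏ v ∈ e, cnt φ v := by
    intro φ
    rw [← Finset.prod_coe_sort e]
    simp only [cnt_eq]
    rw [Finset.prod_univ_sum, Fintype.piFinset_univ]
    have h2 : ∑ ψ : e ↪ Fin t, ∏ v : e, (if φ (ψ v) = v then (1 : ℝ) else 0) =
        ∑ f ∈ univ.map ⟨fun ψ : e ↪ Fin t => (ψ : e → Fin t), DFunLike.coe_injective⟩,
          ∏ v : e, (if φ (f v) = v then (1 : ℝ) else 0) := by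
      rw [Finset.sum_map]
      rfl
    rw [h2]
    apply Finset.sum_le_sum_of_subset_of_nonneg (Finset.subset_univ _)
    intro f _ _
    apply Finset.prod_nonneg
    intro v _
    split_ifs <;> norm_num
  calc (t.descFactorial e.card : ℝ) * ((∏ v ∈ e, y v) * (∑ v, y v) ^ (t - e.card))
      = ∑ ψ : e ↪ Fin t, ∑ φ : Fin t → V,
          (∏ i, y (φ i)) * ∏ v : e, (if φ (ψ v) = v then (1 : ℝ) else 0) := by
        rw [Finset.sum_congr rfl (fun ψ _ => inner e y ψ), Finset.sum_const, Finset.card_univ,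
          Fintype.card_embedding_eq]
        simp
    _ = ∑ φ : Fin t → V, (∏ i, y (φ i)) *
          ∑ ψ : e ↪ Fin t, ∏ v : e, (if φ (ψ v) = v then (1 : ℝ) else 0) := by
        rw [Finset.sum_comm]
        apply Finset.sum_congr rfl
        intro φ _
        rw [Finset.mul_sum]
    _ ≤ _ := by
        apply Finset.sum_le_sum
        intro φ _
        exact mul_le_mul_of_nonneg_left (h1 φ) (Finset.prod_nonneg fun i _ => hy _)

theorem sum_cnt {t : ℕ} (φ : Fin t → V) : ∑ v, cnt φ v = t := by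
  simp only [cnt_eq]
  rw [Finset.sum_comm]
  simp

theorem supp_cnt {t : ℕ} (φ : Fin t → V) : (univ.filter (fun v => cnt φ v ≠ 0)).card ≤ t := by
  classical
  have h : (univ.filter (fun v => cnt φ v ≠ 0)) ⊆ univ.image φ := by
    intro v hv
    rw [Finset.mem_filter] at hv
    have h1 : (univ.filter (fun i => φ i = v)).card ≠ 0 := by
      intro h0
      apply hv.2
      unfold cnt
      rw [h0, Nat.cast_zero]
    obtain ⟨i, hi⟩ := Finset.card_ne_zero.1 h1
    rw [Finset.mem_filter] at hi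
    exact Finset.mem_image.2 ⟨i, Finset.mem_univ _, hi.2⟩
  calc _ ≤ (univ.image φ).card := Finset.card_le_card h
    _ ≤ (univ : Finset (Fin t)).card := Finset.card_image_le
    _ = t := by simp

end Samp

open Samp in
theorem sampling {V : Type} [Fintype V] [DecidableEq V] (E : Finset (Finset V)) (r t : ℕ)
    (hrt : r ≤ t) (hE : ∀ e ∈ E, e.card = r) (B : ℝ)
    (h : ∀ y : V → ℝ, (∀ v, 0 ≤ y v) → (univ.filter (fun v => y v ≠ 0)).card ≤ t →
      lag E y ≤ B * (∑ v, y v) ^ r)
    (y : V → ℝ) (hy : ∀ v, 0 ≤ y v) :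
    (t.descFactorial r : ℝ) * lag E y ≤ (t : ℝ) ^ r * B * (∑ v, y v) ^ r := by
  have hlag : 0 ≤ lag E y := Finset.sum_nonneg fun e _ => Finset.prod_nonneg fun v _ => hy v
  rcases (Finset.sum_nonneg fun v (_ : v ∈ univ) => hy v).eq_or_lt with h0 | hpos
  · have hy0 : ∀ v, y v = 0 := by
      intro v
      exact (Finset.sum_eq_zero_iff_of_nonneg (fun v _ => hy v)).1 h0.symm v (Finset.mem_univ v)
    have h1 := h y hy (by simp [hy0])
    have h2 : (t.descFactorial r : ℝ) ≤ (t : ℝ) ^ r := by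
      exact_mod_cast Nat.descFactorial_le_pow t r
    calc (t.descFactorial r : ℝ) * lag E y ≤ (t : ℝ) ^ r * lag E y :=
          mul_le_mul_of_nonneg_right h2 hlag
      _ ≤ (t : ℝ) ^ r * (B * (∑ v, y v) ^ r) := mul_le_mul_of_nonneg_left h1 (by positivity)
      _ = _ := by ring
  · have h1 : (t.descFactorial r : ℝ) * (lag E y * (∑ v, y v) ^ (t - r)) ≤
        ∑ φ : Fin t → V, (∏ i, y (φ i)) * lag E (cnt φ) := by
      unfold lag
      simp only [Finset.mul_sum, Finset.sum_mul]
      rw [Finset.sum_comm]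
      apply Finset.sum_le_sum
      intro e he
      have := key (t := t) e y hy
      rw [hE e he] at this
      exact this
    have h2 : ∑ φ : Fin t → V, (∏ i, y (φ i)) * lag E (cnt φ) ≤
        ∑ φ : Fin t → V, (∏ i, y (φ i)) * (B * (t : ℝ) ^ r) := by
      apply Finset.sum_le_sum
      intro φ _
      apply mul_le_mul_of_nonneg_left _ (Finset.prod_nonneg fun i _ => hy _)
      have := h (cnt φ) (fun v => by unfold cnt; positivity) (supp_cnt φ)
      rwa [sum_cnt] at this
    have h3 : ∑ φ : Fin t → V, (∏ i, y (φ i)) * (B * (t : ℝ) ^ r) =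
        (∑ v, y v) ^ t * (B * (t : ℝ) ^ r) := by
      rw [← Finset.sum_mul]
      congr 1
      have := Finset.prod_univ_sum (fun _ : Fin t => (univ : Finset V)) (fun _ v => y v)
      rw [Fintype.piFinset_univ, Finset.prod_const, Finset.card_univ, Fintype.card_fin] at this
      exact this.symm
    have h4 : (∑ v, y v) ^ t = (∑ v, y v) ^ r * (∑ v, y v) ^ (t - r) := by
      rw [← pow_add, Nat.add_sub_cancel' hrt]
    have h5 := h1.trans (h2.trans_eq h3)
    rw [h4] at h5
    have h6 : 0 < (∑ v, y v) ^ (t - r) := pow_pos hpos _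
    have h7 : ((t.descFactorial r : ℝ) * lag E y) * (∑ v, y v) ^ (t - r) ≤
        ((t : ℝ) ^ r * B * (∑ v, y v) ^ r) * (∑ v, y v) ^ (t - r) := by
      calc _ = (t.descFactorial r : ℝ) * (lag E y * (∑ v, y v) ^ (t - r)) := by ring
        _ ≤ _ := h5
        _ = _ := by ring
    exact le_of_mul_le_mul_right h7 h6

end Pool.Agent.H62.Jump
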