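import Pool.Agent.H62.Jump.Sets
import Pool.Agent.H62.Jump.Core
import Pool.Agent.H62.Jump.Hyp

/-! M7: upper bound. -/

namespace Pool.Agent.H62.Jump

open Finset

section aux
variable {G : Type} [Fintype G] [DecidableEq G] {D : ℕ}

theorem PP_le (π : Fin D → Equiv.Perm G) (hπ : ∀ g c c', π c g = π c' g → c = c')
    (x w : G → ℝ) (hx : ∀ g, 0 ≤ x g) (hw : ∀ g, 0 ≤ w g) :
    ∑ c, ∑ g, x g * w (π c g) ≤ (∑ g, x g) * ∑ g, w g := by
  rw [Finset.sum_comm, Finset.sum_mul]
  apply Finset.sum_le_sum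
  intro g _
  rw [← Finset.mul_sum]
  apply mul_le_mul_of_nonneg_left _ (hx g)
  have : ∑ c, w (π c g) = ∑ g' ∈ univ.image (fun c => π c g), w g' := by
    rw [Finset.sum_image]
    intro c _ c' _ h
    exact hπ g c c' h
  rw [this]
  exact Finset.sum_le_sum_of_subset_of_nonneg (subset_univ _) (fun g' _ _ => hw g')

theorem betaJ_nonneg (σ : Equiv.Perm G) (x w : G → ℝ) (hx : ∀ g, 0 ≤ x g) (hw : ∀ g, 0 ≤ w g) :
    0 ≤ ∑ g, x g * w (σ g) * ((∑ g, x g) - x g) := by
  apply Finset.sum_nonneg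
  intro g _
  have : x g ≤ ∑ g, x g := Finset.single_le_sum (fun g _ => hx g) (mem_univ g)
  have h1 := hx g
  have h2 := hw (σ g)
  have h3 : 0 ≤ (∑ g, x g) - x g := by linarith
  positivity

theorem betaJ_le (σ : Equiv.Perm G) (x w : G → ℝ) (hw : ∀ g, 0 ≤ w g) :
    ∑ g, x g * w (σ g) * ((∑ g, x g) - x g) ≤ (∑ g, x g) ^ 2 / 4 * ∑ g, w g := by
  rw [← Equiv.sum_comp σ w, Finset.mul_sum]
  apply Finset.sum_le_sum
  intro g _
  have h2 := hw (σ g)
  have h3 : x g * ((∑ g, x g) - x g) ≤ (∑ g, x g) ^ 2 / 4 := by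
    nlinarith [sq_nonneg ((∑ g, x g) - 2 * x g)]
  have := mul_le_mul_of_nonneg_right h3 h2
  linarith

theorem betaK_nonneg (σ : Equiv.Perm G) (x w : G → ℝ) (hx : ∀ g, 0 ≤ x g) (hw : ∀ g, 0 ≤ w g) :
    0 ≤ ∑ g, x g * w (σ g) * ((∑ g, w g) - w (σ g)) := by
  apply Finset.sum_nonneg
  intro g _
  have : w (σ g) ≤ ∑ g, w g := Finset.single_le_sum (fun g _ => hw g) (mem_univ (σ g))
  have h1 := hx g
  have h2 := hw (σ g)
  have h3 : 0 ≤ (∑ g, w g) - w (σ g) := by linarith
  positivity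

theorem betaK_le (σ : Equiv.Perm G) (x w : G → ℝ) (hx : ∀ g, 0 ≤ x g) :
    ∑ g, x g * w (σ g) * ((∑ g, w g) - w (σ g)) ≤ (∑ g, w g) ^ 2 / 4 * ∑ g, x g := by
  rw [Finset.mul_sum]
  apply Finset.sum_le_sum
  intro g _
  have h2 := hx g
  have h3 : w (σ g) * ((∑ g, w g) - w (σ g)) ≤ (∑ g, w g) ^ 2 / 4 := by
    nlinarith [sq_nonneg ((∑ g, w g) - 2 * w (σ g))]
  have := mul_le_mul_of_nonneg_right h3 h2
  linarith

end aux

/-- slots: products of at most seven numbers. -/
theorem slots6 (a b c d e f : ℝ) (ha : 0 ≤ a) (hb : 0 ≤ b) (hc : 0 ≤ c) (hd : 0 ≤ d) (he : 0 ≤ e)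
    (hf : 0 ≤ f) : a * b * (c * d) * (e * f) ≤ Real.exp (a + b + c + d + e + f - 6) := by
  have h : Real.exp (a + b + c + d + e + f - 6) = Real.exp (a - 1) * Real.exp (b - 1) *
      (Real.exp (c - 1) * Real.exp (d - 1)) * (Real.exp (e - 1) * Real.exp (f - 1)) := by
    simp only [← Real.exp_add]; ring_nf
  rw [h]
  have := le_exp_sub_one a
  have := le_exp_sub_one b
  have := le_exp_sub_one c
  have := le_exp_sub_one d
  have := le_exp_sub_one e
  have := le_exp_sub_one f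
  gcongr

theorem upper_exp (G : Type) [Fintype G] [DecidableEq G] (D : ℕ) (π : Fin D → Equiv.Perm G)
    (E : Finset (Finset (Vert G D)))
    (hE : ∀ y : Vert G D → ℝ, lag E y =
        (∏ i, rho y i) * F0 π y + ∑ i, bb π y i * ∏ j ∈ univ.erase i, rho y j)
    (hπ : ∀ g c c', π c g = π c' g → c = c')
    (y : Vert G D → ℝ) (hy : ∀ v, 0 ≤ y v)
    (hfor : (∑ c, ∑ g, xx y g * ww y (π c g)) ^ 2 ≤
        (∑ g, xx y g + ∑ g, ww y g) * ∑ c, ∑ g, xx y g * ww y (π c g) * (xx y g + ww y (π c g))) :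
    lag E y ≤ Real.exp (∑ v, y v - (6 * D + 8 : ℕ)) := by
  have hx : ∀ g, 0 ≤ xx y g := fun g => hy _
  have hw : ∀ g, 0 ≤ ww y g := fun g => hy _
  have h1 : 0 ≤ y1 y := hy _
  have h2 : 0 ≤ y2 y := hy _
  have hs : 0 ≤ ys y := hy _
  have hh : 0 ≤ yh y := hy _
  have hz : 0 ≤ yz y := hy _
  have hX : 0 ≤ X y := Finset.sum_nonneg fun g _ => hx g
  have hW : 0 ≤ W y := Finset.sum_nonneg fun g _ => hw g
  have hP : 0 ≤ PP π y := Finset.sum_nonneg fun c _ => Finset.sum_nonneg fun g _ =>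
    mul_nonneg (hx g) (hw _)
  have hPXW : PP π y ≤ X y * W y := PP_le π hπ (xx y) (ww y) hx hw
  obtain ⟨T, hT⟩ : ∃ T : ℝ, T = Real.exp (y1 y + X y + y2 y + W y + ys y + yh y + yz y - 4) :=
    ⟨_, rfl⟩
  have hTpos : 0 < T := hT ▸ Real.exp_pos _
  let β : Bool × Fin D → ℝ := fun p => match p with
    | (false, c) => ∑ g, xx y g * ww y (π c g) * (X y - xx y g)
    | (true, c) => ∑ g, xx y g * ww y (π c g) * (W y - ww y (π c g))
  have hβ0 : ∀ p, 0 ≤ β p := by
    rintro ⟨b, c⟩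
    cases b
    · exact betaJ_nonneg (π c) (xx y) (ww y) hx hw
    · exact betaK_nonneg (π c) (xx y) (ww y) hx hw
  have hβJ : ∀ c, β (false, c) ≤ X y ^ 2 / 4 * W y := fun c =>
    betaJ_le (π c) (xx y) (ww y) hw
  have hβK : ∀ c, β (true, c) ≤ W y ^ 2 / 4 * X y := fun c =>
    betaK_le (π c) (xx y) (ww y) hx
  have hβ1 : ∀ p, β p ≤ X y * W y * (X y + W y) / 4 := by
    rintro ⟨b, c⟩
    have hXW := mul_nonneg hX hW
    cases b
    · refine (hβJ c).trans ?_
      have : 0 ≤ X y * W y * W y := mul_nonneg hXW hW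
      linarith
    · refine (hβK c).trans ?_
      have : 0 ≤ X y * W y * X y := mul_nonneg hXW hX
      linarith
  obtain ⟨S, hS⟩ : ∃ S : ℝ, S = ∑ c, ∑ g, xx y g * ww y (π c g) * (xx y g + ww y (π c g)) :=
    ⟨_, rfl⟩
  have hS0 : 0 ≤ S := by
    rw [hS]
    refine Finset.sum_nonneg fun c _ => Finset.sum_nonneg fun g _ => ?_
    have := hx g; have := hw (π c g); positivity
  have hsumβ : ∑ p, β p = PP π y * (X y + W y) - S := by
    rw [Fintype.sum_prod_type, Fintype.sum_bool, hS]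
    simp only [β, PP, Pc]
    rw [Finset.sum_mul, ← Finset.sum_add_distrib, ← Finset.sum_sub_distrib]
    apply Finset.sum_congr rfl
    intro c _
    rw [Finset.sum_mul, ← Finset.sum_add_distrib, ← Finset.sum_sub_distrib]
    apply Finset.sum_congr rfl
    intro g _
    ring
  have hcore := core (y1 y) (y2 y) (X y) (W y) (ys y) (yh y) (yz y) (PP π y) S β h1 h2 hX hW hs hh hz
    hP hPXW hS0 (by rw [hS]; exact hfor) hβ0 hβ1 hsumβ
  rw [← hT] at hcore
  have hU : 0 ≤ (y1 y + X y) * (y2 y + W y) - y1 y * y2 y - PP π y := by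
    have := mul_nonneg h1 hW
    have := mul_nonneg hX h2
    nlinarith
  have hF0 : 0 ≤ F0 π y := by
    unfold F0
    have := mul_nonneg hU (mul_nonneg hh (add_nonneg hs hz))
    have : 0 ≤ y1 y * y2 y * ys y * (yh y + yz y) := by positivity
    linarith
  have hbb0 : ∀ i, 0 ≤ bb π y i := by
    rintro (b | ⟨b, c⟩)
    · cases b
      · show 0 ≤ y1 y * y2 y * PP π y * (yh y * (ys y + yz y)); positivity
      · show 0 ≤ y1 y * y2 y * PP π y * (yh y * yz y); positivity
    · cases b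
      · show 0 ≤ y1 y * y2 y * (yh y * (ys y + yz y)) * β (false, c)
        have := hβ0 (false, c); positivity
      · show 0 ≤ y1 y * y2 y * (yh y * (ys y + yz y)) * β (true, c)
        have := hβ0 (true, c); positivity
  have hsz1 : ∀ b : Bool, sz (Sum.inl b : Idx D) = 2 := fun b => rfl
  have hsz2 : ∀ p : Bool × Fin D, sz (Sum.inr p : Idx D) = 3 := fun p => rfl
  have hbb1 : ∀ i, bb π y i ≤ Real.exp (-(sz i : ℝ)) * T := by
    rintro (b | ⟨b, c⟩)
    · rw [hsz1]
      cases b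
      · show y1 y * y2 y * PP π y * (yh y * (ys y + yz y)) ≤ _
        calc y1 y * y2 y * PP π y * (yh y * (ys y + yz y))
            ≤ y1 y * y2 y * (X y * W y) * (yh y * (ys y + yz y)) := by gcongr
          _ ≤ _ := slots6 _ _ _ _ _ _ h1 h2 hX hW hh (add_nonneg hs hz)
          _ = _ := by rw [hT, ← Real.exp_add]; congr 1; push_cast; ring
      · show y1 y * y2 y * PP π y * (yh y * yz y) ≤ _
        calc y1 y * y2 y * PP π y * (yh y * yz y)
            ≤ y1 y * y2 y * (X y * W y) * (yh y * yz y) := by gcongr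
          _ ≤ _ := slots6 _ _ _ _ _ _ h1 h2 hX hW hh hz
          _ ≤ _ := by
            rw [hT, ← Real.exp_add]
            apply Real.exp_le_exp.2
            push_cast
            linarith
    · rw [hsz2]
      have hsl : ∀ p q : ℝ, 0 ≤ p → 0 ≤ q → y1 y * y2 y * (yh y * (ys y + yz y)) * (p ^ 2 / 4 * q) ≤
          Real.exp (y1 y + y2 y + yh y + (ys y + yz y) + p + q - 7) := by
        intro p q hp hq
        have e1 := slots6 _ _ _ _ _ _ h1 h2 hh (add_nonneg hs hz) (by positivity : 0 ≤ p / 2)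
          (by positivity : 0 ≤ p / 2)
        have e2 := le_exp_sub_one q
        calc y1 y * y2 y * (yh y * (ys y + yz y)) * (p ^ 2 / 4 * q)
            = (y1 y * y2 y * (yh y * (ys y + yz y)) * (p / 2 * (p / 2))) * q := by ring
          _ ≤ Real.exp (y1 y + y2 y + yh y + (ys y + yz y) + p / 2 + p / 2 - 6) *
              Real.exp (q - 1) := mul_le_mul e1 e2 hq (Real.exp_pos _).le
          _ = _ := by rw [← Real.exp_add]; congr 1; ring
      cases b
      · show y1 y * y2 y * (yh y * (ys y + yz y)) * β (false, c) ≤ _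
        calc y1 y * y2 y * (yh y * (ys y + yz y)) * β (false, c)
            ≤ y1 y * y2 y * (yh y * (ys y + yz y)) * (X y ^ 2 / 4 * W y) :=
              mul_le_mul_of_nonneg_left (hβJ c) (by positivity)
          _ ≤ _ := hsl _ _ hX hW
          _ = _ := by rw [hT, ← Real.exp_add]; congr 1; push_cast; ring
      · show y1 y * y2 y * (yh y * (ys y + yz y)) * β (true, c) ≤ _
        calc y1 y * y2 y * (yh y * (ys y + yz y)) * β (true, c)
            ≤ y1 y * y2 y * (yh y * (ys y + yz y)) * (W y ^ 2 / 4 * X y) :=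
              mul_le_mul_of_nonneg_left (hβK c) (by positivity)
          _ ≤ _ := hsl _ _ hW hX
          _ = _ := by rw [hT, ← Real.exp_add]; congr 1; push_cast; ring
  have hk2 : kap 2 = 7 / 4 := by simp [kap]
  have hk3 : kap 3 = 9 / 4 := by simp [kap]
  have hsum : F0 π y + ∑ i, (bb π y i + kap (sz i) * bb π y i ^ 2 / T) ≤ T := by
    rw [Fintype.sum_sum_type, Fintype.sum_bool]
    simp only [hsz1, hsz2, hk2, hk3]
    have e : ∑ p : Bool × Fin D, (bb π y (Sum.inr p) + 9 / 4 * bb π y (Sum.inr p) ^ 2 / T) =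
        ∑ p : Bool × Fin D, (y1 y * y2 y * (yh y * (ys y + yz y)) * β p +
          9 / 4 * (y1 y * y2 y * (yh y * (ys y + yz y)) * β p) ^ 2 / T) := by
      apply Finset.sum_congr rfl
      rintro ⟨b, c⟩ _
      cases b <;> rfl
    rw [e]
    have e2 : bb π y (Sum.inl false) = y1 y * y2 y * PP π y * (yh y * (ys y + yz y)) := rfl
    have e3 : bb π y (Sum.inl true) = y1 y * y2 y * PP π y * (yh y * yz y) := rfl
    rw [e2, e3]
    unfold F0
    linarith
  have hel := elim_sets (fun i : Idx D => sz i) (by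
      rintro (b | p)
      · left; rfl
      · right; rfl) (fun i l => su y i l) (fun i l => hy _) T (F0 π y) (bb π y) hTpos hF0 hbb0 hbb1
      hsum
  rw [hE]
  refine hel.trans (le_of_eq ?_)
  rw [hT, ← Real.exp_add]
  congr 1
  have hcnt : ∑ i : Idx D, ∑ l : Fin (sz i), (su y i l - 1) =
      ∑ i : Idx D, ∑ l : Fin (sz i), su y i l - (6 * D + 4) := by
    simp only [Finset.sum_sub_distrib, Finset.sum_const, Finset.card_univ, Fintype.card_fin]
    congr 1
    rw [Fintype.sum_sum_type]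
    simp only [hsz1, hsz2, Finset.sum_const, Finset.card_univ, Fintype.card_bool,
      Fintype.card_prod, Fintype.card_fin, nsmul_eq_mul]
    push_cast; ring
  rw [hcnt]
  have hall : ∑ v, y v = (y1 y + X y) + ((y2 y + W y) + ((ys y + yh y + yz y) +
      ∑ i : Idx D, ∑ l : Fin (sz i), su y i l)) := by
    rw [Fintype.sum_sum_type, Fintype.sum_sum_type, Fintype.sum_sum_type, Fintype.sum_option,
      Fintype.sum_option, Fin.sum_univ_three, Fintype.sum_sigma]
    rfl
  rw [hall]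
  push_cast
  ring

theorem lag_const_smul {V : Type} [DecidableEq V] (E : Finset (Finset V)) (r : ℕ)
    (hE : ∀ e ∈ E, e.card = r) (c : ℝ) (y : V → ℝ) :
    lag E (fun v => c * y v) = c ^ r * lag E y := by
  unfold lag
  rw [Finset.mul_sum]
  apply Finset.sum_congr rfl
  intro e he
  rw [Finset.prod_mul_distrib, Finset.prod_const, hE e he]

theorem upper (G : Type) [Fintype G] [DecidableEq G] (D : ℕ) (π : Fin D → Equiv.Perm G)
    (E : Finset (Finset (Vert G D))) (hcard : ∀ e ∈ E, e.card = 6 * D + 8)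
    (hE : ∀ y : Vert G D → ℝ, lag E y =
        (∏ i, rho y i) * F0 π y + ∑ i, bb π y i * ∏ j ∈ univ.erase i, rho y j)
    (hπ : ∀ g c c', π c g = π c' g → c = c')
    (y : Vert G D → ℝ) (hy : ∀ v, 0 ≤ y v)
    (hfor : (∑ c, ∑ g, xx y g * ww y (π c g)) ^ 2 ≤
        (∑ g, xx y g + ∑ g, ww y g) * ∑ c, ∑ g, xx y g * ww y (π c g) * (xx y g + ww y (π c g))) :
    lag E y ≤ (((6 * D + 8 : ℕ) : ℝ)⁻¹) ^ (6 * D + 8) * (∑ v, y v) ^ (6 * D + 8) := by
  classical
  obtain ⟨r, hr⟩ : ∃ r : ℕ, r = 6 * D + 8 := ⟨_, rfl⟩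
  rw [← hr] at hcard ⊢
  have hr0 : (0 : ℝ) < r := by rw [hr]; positivity
  have hσ0 : 0 ≤ ∑ v, y v := Finset.sum_nonneg fun v _ => hy v
  rcases hσ0.eq_or_lt with h0 | h0
  · have hy0 : ∀ v, y v = 0 := by
      intro v
      exact (Finset.sum_eq_zero_iff_of_nonneg (fun v _ => hy v)).1 h0.symm v (mem_univ v)
    have : lag E y = 0 := by
      unfold lag
      apply Finset.sum_eq_zero
      intro e he
      have hne : e.Nonempty := by
        rw [← Finset.card_pos, hcard e he, hr]; positivity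
      obtain ⟨v, hv⟩ := hne
      exact Finset.prod_eq_zero hv (hy0 v)
    rw [this]
    positivity
  · obtain ⟨σ, hσ⟩ : ∃ σ : ℝ, σ = ∑ v, y v := ⟨_, rfl⟩
    rw [← hσ] at h0 ⊢
    have hc : 0 < (r : ℝ) / σ := by positivity
    obtain ⟨c, hcdef⟩ : ∃ c : ℝ, c = (r : ℝ) / σ := ⟨_, rfl⟩
    rw [← hcdef] at hc
    have key := upper_exp G D π E hE hπ (fun v => c * y v) (fun v => mul_nonneg hc.le (hy v)) (by
      have ex : ∀ g, xx (fun v => c * y v) g = c * xx y g := fun g => rfl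
      have ew : ∀ g, ww (fun v => c * y v) g = c * ww y g := fun g => rfl
      simp only [ex, ew]
      have e1 : ∑ c_1, ∑ g, c * xx y g * (c * ww y (π c_1 g)) =
          c ^ 2 * ∑ c_1, ∑ g, xx y g * ww y (π c_1 g) := by
        simp only [Finset.mul_sum]
        apply Finset.sum_congr rfl; intro _ _; apply Finset.sum_congr rfl; intro _ _; ring
      have e2 : ∑ c_1, ∑ g, c * xx y g * (c * ww y (π c_1 g)) * (c * xx y g + c * ww y (π c_1 g)) =
          c ^ 3 * ∑ c_1, ∑ g, xx y g * ww y (π c_1 g) * (xx y g + ww y (π c_1 g)) := by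
        simp only [Finset.mul_sum]
        apply Finset.sum_congr rfl; intro _ _; apply Finset.sum_congr rfl; intro _ _; ring
      rw [e1, e2, ← Finset.mul_sum, ← Finset.mul_sum]
      have := mul_le_mul_of_nonneg_left hfor (by positivity : 0 ≤ c ^ 4)
      calc _ = c ^ 4 * (∑ c_1, ∑ g, xx y g * ww y (π c_1 g)) ^ 2 := by ring
        _ ≤ _ := this
        _ = _ := by ring)
    rw [lag_const_smul E r hcard, ← Finset.mul_sum, ← hσ, ← hr] at key
    have hcσ : c * σ = r := by rw [hcdef]; field_simp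
    rw [hcσ, sub_self, Real.exp_zero] at key
    have hcr : (c ^ r) * ((r : ℝ)⁻¹ ^ r * σ ^ r) = 1 := by
      rw [← mul_pow, ← mul_pow]
      have : c * ((r : ℝ)⁻¹ * σ) = 1 := by
        rw [hcdef]; field_simp
      rw [this, one_pow]
    have hcrpos : 0 < c ^ r := by positivity
    have : c ^ r * lag E y ≤ c ^ r * ((r : ℝ)⁻¹ ^ r * σ ^ r) := by rw [hcr]; exact key
    exact le_of_mul_le_mul_left this hcrpos

end Pool.Agent.H62.Jump
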