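import Pool.Agent.H62.Jump.Red
import Pool.Agent.H62.Jump.Samp
import Pool.Agent.H62.Jump.Graph
import Pool.Agent.H62.Jump.Upper
import Pool.Agent.H62.Jump.Lower

/-! M9: assembly. -/

namespace Pool.Agent.H62.Jump

open Finset Filter

/-- the factor lost in sampling tends to one -/
lemma exists_t (c : ℝ) (hc : ((200 : ℕ) : ℝ)⁻¹ ^ 200 < c) : ∃ t : ℕ, 200 ≤ t ∧
    (t : ℝ) ^ 200 * ((200 : ℕ) : ℝ)⁻¹ ^ 200 < c * (t.descFactorial 200 : ℝ) := by
  set B : ℝ := ((200 : ℕ) : ℝ)⁻¹ ^ 200 with hB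
  have hB0 : 0 ≤ B := by positivity
  have hc0 : 0 < c := lt_of_le_of_lt hB0 hc
  have hcB : 0 < c - B := by linarith
  obtain ⟨t, ht⟩ := exists_nat_gt (max 200 (39800 * c / (c - B)))
  have ht1 : (200 : ℝ) < t := lt_of_le_of_lt (le_max_left _ _) ht
  have ht2 : 39800 * c / (c - B) < t := lt_of_le_of_lt (le_max_right _ _) ht
  have ht3 : 200 ≤ t := by exact_mod_cast ht1.le
  have ht0 : (0 : ℝ) < t := by linarith
  refine ⟨t, ht3, ?_⟩
  have h1 : (((t + 1 - 200) ^ 200 : ℕ) : ℝ) ≤ (t.descFactorial 200 : ℝ) := by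
    exact_mod_cast Nat.pow_sub_le_descFactorial t 200
  have h2 : (((t + 1 - 200) ^ 200 : ℕ) : ℝ) = ((t : ℝ) - 199) ^ 200 := by
    rw [Nat.cast_pow, Nat.cast_sub (by omega)]
    push_cast
    congr 1
    ring
  have h3 : (1 : ℝ) + ((200 : ℕ) : ℝ) * (-(199 / (t : ℝ))) ≤ (1 + -(199 / (t : ℝ))) ^ 200 := by
    refine one_add_mul_le_pow ?_ 200
    have : 199 / (t : ℝ) ≤ 1 := by
      rw [div_le_one ht0]
      linarith
    linarith
  have h4 : ((t : ℝ) - 199) ^ 200 = (t : ℝ) ^ 200 * (1 + -(199 / (t : ℝ))) ^ 200 := by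
    rw [← mul_pow]
    congr 1
    field_simp
    ring
  have h5 : B < c * (1 - 39800 / t) := by
    rw [div_lt_iff₀ hcB] at ht2
    have : c * (39800 / t) < c - B := by
      rw [mul_div_assoc', div_lt_iff₀ ht0]
      linarith
    linarith
  have h6 : c * (1 - 39800 / (t : ℝ)) ≤ c * (1 + -(199 / (t : ℝ))) ^ 200 := by
    refine mul_le_mul_of_nonneg_left ?_ hc0.le
    refine le_trans (le_of_eq ?_) h3
    push_cast
    ring
  have hpos : 0 < (t : ℝ) ^ 200 := by positivity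
  calc (t : ℝ) ^ 200 * B < (t : ℝ) ^ 200 * (c * (1 + -(199 / (t : ℝ))) ^ 200) :=
        mul_lt_mul_of_pos_left (lt_of_lt_of_le h5 h6) hpos
    _ = c * ((t : ℝ) - 199) ^ 200 := by rw [h4]; ring
    _ ≤ c * (t.descFactorial 200 : ℝ) := by
        rw [← h2]
        exact mul_le_mul_of_nonneg_left h1 hc0.le

theorem exists_lag (c : ℝ) (hc : ((200 : ℕ) : ℝ)⁻¹ ^ 200 < c) :
    ∃ (V : Type) (_ : Fintype V) (_ : DecidableEq V)
      (E : Finset (Finset V)), (∀ e ∈ E, e.card = 200) ∧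
      (∃ c' : ℝ, c' < c ∧ ∀ y : V → ℝ, (∀ v, 0 ≤ y v) → lag E y ≤ c' * (∑ v, y v) ^ 200) ∧
      (∃ a : V → ℕ, ((200 : ℕ) : ℝ)⁻¹ ^ 200 * (∑ v, (a v : ℝ)) ^ 200 < lag E (fun v => (a v : ℝ))) := by
  obtain ⟨t, ht, htc⟩ := exists_t c hc
  obtain ⟨G, hG1, hG2, hG3, π, hπ, hfor⟩ := exists_graph 32 t
  obtain ⟨E, hE1, hE2⟩ := exists_hyp G 32 π hπ
  let _ : DecidableEq (Vert G 32) := Classical.decEq _
  refine ⟨Vert G 32, inferInstance, inferInstance, E, hE1, ?_, ?_⟩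
  · have hd : 0 < (t.descFactorial 200 : ℝ) := by
      exact_mod_cast Nat.descFactorial_pos.mpr ht
    refine ⟨(t : ℝ) ^ 200 * ((200 : ℕ) : ℝ)⁻¹ ^ 200 / (t.descFactorial 200 : ℝ), ?_, ?_⟩
    · rw [div_lt_iff₀ hd]
      exact htc
    · intro y hy
      have h := sampling E 200 t ht hE1 (((200 : ℕ) : ℝ)⁻¹ ^ 200) (by
        intro y hy hcard
        refine upper G 32 π E hE1 hE2 hπ y hy ?_
        refine hfor (xx y) (ww y) (fun g => hy _) (fun g => hy _) (le_trans ?_ hcard)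
        rw [← card_disjSum]
        refine card_le_card_of_injOn (fun p : G ⊕ G => (match p with
          | Sum.inl g => Sum.inl (some g)
          | Sum.inr g => Sum.inr (Sum.inl (some g)) : Vert G 32)) ?_ ?_
        · intro p hp
          rcases p with g | g
          · simp only [mem_coe, inl_mem_disjSum, mem_filter, mem_univ, true_and] at hp ⊢
            exact hp
          · simp only [mem_coe, inr_mem_disjSum, mem_filter, mem_univ, true_and] at hp ⊢
            exact hp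
        · intro p _ q _ hpq
          rcases p with g | g <;> rcases q with g' | g' <;> simp at hpq ⊢
          · exact hpq
          · exact hpq) y hy
      rw [div_mul_eq_mul_div, le_div_iff₀ hd, mul_comm]
      exact h
  · exact lower G π E hE2

theorem main :
    ¬ (∀ r : ℕ, 3 ≤ r → ∃ c : ℝ, (r : ℝ)⁻¹ ^ r < c ∧ ∀ ε : ℝ, 0 < ε →
      ∃ m : ℕ → ℕ, Tendsto m atTop atTop ∧ ∀ᶠ n : ℕ in atTop, ∀ H : Finset (Finset (Fin n)),
        H.IsUniform r → (1 + ε) * ((n : ℝ) / r) ^ r ≤ H.card →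
          ∃ S : Finset (Fin n), S.card = m n ∧ c * (S.card : ℝ) ^ r ≤ (H.hypergraphInduce S).card) :=
  reduction 200 (by norm_num) exists_lag

end Pool.Agent.H62.Jump
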