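import Pool.Agent.H62.Jump.Basic
import Pool.Prelude.Def_F_56b3cb1b

/-! M1: reduction of the frozen negation to the existence of finite r-graphs with Lagrangian
slightly above `r^{-r}` (blow-ups on `Fin (N*q)`). -/

namespace Pool.Agent.H62.Jump

open Finset Filter

theorem card_transversals {α V : Type} [DecidableEq α] [DecidableEq V] (p : α → V)
    (T : Finset α) (e : Finset V) :
    (T.powerset.filter (fun S => S.card = e.card ∧ S.image p = e)).card
      = ∏ v ∈ e, (T.filter (fun x => p x = v)).card := by
  classical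
  have key : T.powerset.filter (fun S => S.card = e.card ∧ S.image p = e)
      = (e.pi (fun v => T.filter (fun x => p x = v))).image
          (fun g => e.attach.image (fun v => g v.1 v.2)) := by
    ext S
    simp only [mem_filter, mem_powerset, mem_image, Finset.mem_pi]
    constructor
    · rintro ⟨hST, hc, hi⟩
      have hex : ∀ v, v ∈ e → ∃ s ∈ S, p s = v := by
        intro v hv
        rw [← hi, mem_image] at hv
        exact hv
      choose g hg1 hg2 using hex
      refine ⟨g, fun v hv => ⟨hST (hg1 v hv), hg2 v hv⟩, ?_⟩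
      apply Finset.eq_of_subset_of_card_le
      · intro x hx
        rw [mem_image] at hx
        obtain ⟨v, _, rfl⟩ := hx
        exact hg1 _ _
      · rw [Finset.card_image_of_injective, card_attach, hc]
        intro v w hvw
        apply Subtype.ext
        have h1 := hg2 v.1 v.2
        have h2 := hg2 w.1 w.2
        have h3 : g v.1 v.2 = g w.1 w.2 := hvw
        rw [← h1, ← h2, h3]
    · rintro ⟨g, hg, rfl⟩
      have hinj : Function.Injective (fun v : {x // x ∈ e} => g v.1 v.2) := by
        intro v w hvw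
        apply Subtype.ext
        have h1 := (hg v.1 v.2).2
        have h2 := (hg w.1 w.2).2
        have h3 : g v.1 v.2 = g w.1 w.2 := hvw
        rw [← h1, ← h2, h3]
      refine ⟨?_, ?_, ?_⟩
      · intro x hx
        rw [mem_image] at hx
        obtain ⟨v, _, rfl⟩ := hx
        exact (hg v.1 v.2).1
      · rw [Finset.card_image_of_injective _ hinj, card_attach]
      · ext v
        simp only [mem_image, mem_attach, true_and, Subtype.exists]
        constructor
        · rintro ⟨x, ⟨w, hw, rfl⟩, rfl⟩
          rw [(hg w hw).2]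
          exact hw
        · intro hv
          exact ⟨g v hv, ⟨v, hv, rfl⟩, (hg v hv).2⟩
  rw [key, Finset.card_image_of_injOn, Finset.card_pi]
  intro g hg g' hg' hgg
  simp only [Finset.mem_coe, Finset.mem_pi, mem_filter] at hg hg'
  funext v hv
  have h1 : g v hv ∈ e.attach.image (fun v => g v.1 v.2) :=
    mem_image.2 ⟨⟨v, hv⟩, mem_attach _ _, rfl⟩
  have h2 : e.attach.image (fun v => g v.1 v.2) = e.attach.image (fun v => g' v.1 v.2) := hgg
  rw [h2, mem_image] at h1
  obtain ⟨⟨w, hw⟩, _, h3⟩ := h1
  have h4 := (hg v hv).2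
  have h5 := (hg' w hw).2
  have h6 : w = v := by
    rw [← h4, ← h5]
    exact congrArg p h3
  subst h6
  exact h3.symm

/-- the blow-up hypergraph -/
noncomputable def blowup {α V : Type} [Fintype α] [DecidableEq α] [DecidableEq V] (p : α → V)
    (E : Finset (Finset V)) (r : ℕ) : Finset (Finset α) :=
  univ.filter (fun S => S.card = r ∧ S.image p ∈ E)

theorem blowup_card {α V : Type} [Fintype α] [DecidableEq α] [DecidableEq V] (p : α → V)
    (E : Finset (Finset V)) (r : ℕ) (hE : ∀ e ∈ E, e.card = r) (T : Finset α) :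
    (((blowup p E r).filter (fun S => S ⊆ T)).card : ℝ)
      = lag E (fun v => ((T.filter (fun x => p x = v)).card : ℝ)) := by
  classical
  have h1 : ((blowup p E r).filter (fun S => S ⊆ T)).card
      = ∑ e ∈ E, (((blowup p E r).filter (fun S => S ⊆ T)).filter (fun S => S.image p = e)).card := by
    apply Finset.card_eq_sum_card_fiberwise
    intro S hS
    simp only [blowup, coe_filter, mem_filter, mem_univ, true_and, Set.mem_ofPred_eq] at hS
    exact hS.1.2
  rw [h1, lag, Nat.cast_sum]
  apply Finset.sum_congr rfl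
  intro e he
  rw [← Nat.cast_prod, ← card_transversals p T e]
  congr 2
  ext S
  simp only [blowup, mem_filter, mem_univ, true_and, mem_powerset]
  constructor
  · rintro ⟨⟨⟨h1, _⟩, h3⟩, h4⟩
    exact ⟨h3, by rw [h1, hE e he], h4⟩
  · rintro ⟨h1, h2, h3⟩
    exact ⟨⟨⟨by rw [h2, hE e he], by rw [h3]; exact he⟩, h1⟩, h3⟩

theorem lag_smul {V : Type} (E : Finset (Finset V)) (r : ℕ) (hE : ∀ e ∈ E, e.card = r)
    (a : V → ℝ) (q : ℝ) : lag E (fun v => a v * q) = q ^ r * lag E a := by
  unfold lag
  rw [Finset.mul_sum]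
  apply Finset.sum_congr rfl
  intro e he
  rw [Finset.prod_mul_distrib, Finset.prod_const, hE e he, mul_comm]

/-- a map `Fin (∑ a) → V` with prescribed fibre sizes -/
theorem exists_map {V : Type} [Fintype V] [DecidableEq V] (a : V → ℕ) :
    ∃ p : Fin (∑ v, a v) → V, ∀ v, (univ.filter (fun x => p x = v)).card = a v := by
  classical
  have e : Fin (∑ v, a v) ≃ (Σ v, Fin (a v)) := (Fintype.equivFinOfCardEq (by simp)).symm
  refine ⟨fun x => (e x).1, fun v => ?_⟩
  have h : (univ.filter (fun x => (e x).1 = v)).card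
      = (univ.filter (fun y : (Σ v, Fin (a v)) => y.1 = v)).card := by
    apply Finset.card_bij (fun x _ => e x)
    · intro x hx
      simpa using hx
    · intro x _ y _ hxy
      exact e.injective hxy
    · intro y hy
      refine ⟨e.symm y, ?_, by simp⟩
      simpa using hy
  rw [h]
  have h2 : (univ.filter (fun y : (Σ v, Fin (a v)) => y.1 = v))
      = (univ : Finset (Fin (a v))).map ⟨fun i => (⟨v, i⟩ : Σ v, Fin (a v)), by
          intro i j hij
          simpa using hij⟩ := by
    ext ⟨w, i⟩
    simp only [mem_filter, mem_univ, true_and, Finset.mem_map, Function.Embedding.coeFn_mk]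
    constructor
    · intro hw
      subst hw
      exact ⟨i, rfl⟩
    · rintro ⟨j, hj⟩
      exact (congrArg Sigma.fst hj).symm
  rw [h2, card_map, card_univ, Fintype.card_fin]

theorem reduction (r : ℕ) (hr : 3 ≤ r)
    (h : ∀ c : ℝ, (r : ℝ)⁻¹ ^ r < c → ∃ (V : Type) (_ : Fintype V) (_ : DecidableEq V)
      (E : Finset (Finset V)), (∀ e ∈ E, e.card = r) ∧
      (∃ c' : ℝ, c' < c ∧ ∀ y : V → ℝ, (∀ v, 0 ≤ y v) → lag E y ≤ c' * (∑ v, y v) ^ r) ∧
      (∃ a : V → ℕ, (r : ℝ)⁻¹ ^ r * (∑ v, (a v : ℝ)) ^ r < lag E (fun v => (a v : ℝ)))) :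
    ¬ (∀ r : ℕ, 3 ≤ r → ∃ c : ℝ, (r : ℝ)⁻¹ ^ r < c ∧ ∀ ε : ℝ, 0 < ε →
      ∃ m : ℕ → ℕ, Tendsto m atTop atTop ∧ ∀ᶠ n : ℕ in atTop, ∀ H : Finset (Finset (Fin n)),
        H.IsUniform r → (1 + ε) * ((n : ℝ) / r) ^ r ≤ H.card →
          ∃ S : Finset (Fin n), S.card = m n ∧ c * (S.card : ℝ) ^ r ≤ (H.hypergraphInduce S).card) := by
  classical
  intro hj
  obtain ⟨c, hc, hj⟩ := hj r hr
  obtain ⟨V, iF, iD, E, hE, ⟨c', hc', hup⟩, a, ha⟩ := h c hc
  have hr0 : r ≠ 0 := by omega
  set N : ℕ := ∑ v, a v with hN
  have hNr : (∑ v, (a v : ℝ)) = (N : ℝ) := by rw [hN]; push_cast; rfl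
  rw [hNr] at ha
  have hNpos : 0 < N := by
    rcases Nat.eq_zero_or_pos N with h0 | h0
    · exfalso
      have h1 : ∀ v, a v = 0 := by
        intro v
        have := Finset.sum_eq_zero_iff.1 (hN.symm.trans h0) v (mem_univ v)
        exact this
      have h2 : lag E (fun v => (a v : ℝ)) = 0 := by
        unfold lag
        apply Finset.sum_eq_zero
        intro e he
        have hne : e.Nonempty := by
          rw [← Finset.card_pos, hE e he]
          omega
        obtain ⟨v, hv⟩ := hne
        exact Finset.prod_eq_zero hv (by rw [h1 v]; simp)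
      rw [h2, h0] at ha
      simp [hr0] at ha
    · exact h0
  have hNR : (0 : ℝ) < N := by exact_mod_cast hNpos
  have hrR : (0 : ℝ) < r := by
    have : 0 < r := by omega
    exact_mod_cast this
  set B : ℝ := (r : ℝ)⁻¹ ^ r * (N : ℝ) ^ r with hB
  have hBpos : 0 < B := by positivity
  set L : ℝ := lag E (fun v => (a v : ℝ)) with hL
  obtain ⟨m, hm, hev⟩ := hj (L / B - 1) (by
    rw [sub_pos, lt_div_iff₀ hBpos]
    linarith)
  have hm1 : ∀ᶠ n : ℕ in atTop, 1 ≤ m n := hm.eventually_ge_atTop 1
  have htend : Tendsto (fun q : ℕ => N * q) atTop atTop :=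
    Filter.tendsto_atTop_mono (fun q => Nat.le_mul_of_pos_left q hNpos) tendsto_id
  obtain ⟨q, hq1, hq2⟩ := ((htend.eventually hev).and (htend.eventually hm1)).exists
  obtain ⟨p, hp⟩ := exists_map a
  let π : Fin (N * q) → V := fun x => p (finProdFinEquiv.symm x).1
  have hfib : ∀ v, (univ.filter (fun x : Fin (N * q) => π x = v)).card = a v * q := by
    intro v
    have h1 : (univ.filter (fun x : Fin (N * q) => π x = v)).card
        = ((univ.filter (fun x => p x = v)) ×ˢ (univ : Finset (Fin q))).card := by
      apply Finset.card_bij (fun x _ => finProdFinEquiv.symm x)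
      · intro x hx
        simp only [mem_filter, mem_univ, true_and, mem_product, and_true] at hx ⊢
        exact hx
      · intro x _ y _ hxy
        exact finProdFinEquiv.symm.injective hxy
      · rintro ⟨x, i⟩ hx
        simp only [mem_filter, mem_univ, true_and, mem_product, and_true] at hx
        refine ⟨finProdFinEquiv (x, i), ?_, by simp⟩
        simp only [mem_filter, mem_univ, true_and, π, Equiv.symm_apply_apply]
        exact hx
    rw [h1, card_product, hp v, card_univ, Fintype.card_fin]
  obtain ⟨S, hS1, hS2⟩ := hq1 (blowup π E r) (by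
      intro S hS
      simp only [blowup, mem_filter] at hS
      exact hS.2.1) (by
      have h1 := blowup_card π E r hE (univ : Finset (Fin (N * q)))
      have h2 : (blowup π E r).filter (fun S => S ⊆ univ) = blowup π E r := by
        apply Finset.filter_true_of_mem
        intro S _
        exact Finset.subset_univ S
      rw [h2] at h1
      rw [h1]
      have h3 : (fun v => ((univ.filter (fun x : Fin (N * q) => π x = v)).card : ℝ))
          = fun v => (a v : ℝ) * (q : ℝ) := by
        funext v
        rw [hfib v]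
        push_cast
        ring
      rw [h3, lag_smul E r hE, ← hL]
      have h4 : (((N * q : ℕ) : ℝ) / r) ^ r = B * (q : ℝ) ^ r := by
        rw [hB]
        push_cast
        rw [div_eq_mul_inv, mul_pow, mul_pow]
        ring
      rw [h4]
      have h5 : (1 + (L / B - 1)) * (B * (q : ℝ) ^ r) = (q : ℝ) ^ r * L := by
        field_simp
        ring
      rw [h5])
  have h6 : (((blowup π E r).hypergraphInduce S).card : ℝ)
      = lag E (fun v => ((S.filter (fun x => π x = v)).card : ℝ)) := by
    rw [← blowup_card π E r hE S]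
    rfl
  have h7 := hup (fun v => ((S.filter (fun x => π x = v)).card : ℝ)) (fun v => by positivity)
  have h8 : ∑ v, ((S.filter (fun x => π x = v)).card : ℝ) = (S.card : ℝ) := by
    rw [← Nat.cast_sum]
    congr 1
    exact (Finset.card_eq_sum_card_fiberwise (f := π) (s := S) (t := univ)
      (fun x _ => by simp)).symm
  rw [h8] at h7
  rw [h6] at hS2
  have h9 : (0 : ℝ) < (S.card : ℝ) ^ r := by
    have : 0 < S.card := by rw [hS1]; exact hq2
    have : (0 : ℝ) < (S.card : ℝ) := by exact_mod_cast this
    positivity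
  nlinarith

end Pool.Agent.H62.Jump
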