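import Pool.Agent.H62.Jump.Basic

/-! M5: elimination of the heavy sets. -/

namespace Pool.Agent.H62.Jump

open Finset

noncomputable def kap (k : ℕ) : ℝ := if k = 2 then 7 / 4 else 9 / 4

theorem m5_exp_neg_lower (x : ℝ) (h0 : 0 ≤ x) (h1 : x ≤ 1) :
    1 - x + x ^ 2 / 2 - x ^ 3 / 6 ≤ Real.exp (-x) := by
  have h := Real.exp_bound (x := -x) (by rw [abs_neg, abs_of_nonneg h0]; exact h1)
    (n := 5) (by norm_num)
  rw [abs_le] at h
  have h2 := h.1
  simp only [Finset.sum_range_succ, Finset.sum_range_zero, abs_neg, abs_of_nonneg h0,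
    Nat.factorial] at h2
  norm_num at h2
  have h3 : x ^ 5 ≤ x ^ 4 := by
    have : x ^ 5 = x ^ 4 * x := by ring
    rw [this]
    exact mul_le_of_le_one_right (by positivity) h1
  have h4 : 0 ≤ x ^ 4 := by positivity
  nlinarith

theorem m5_exp_neg_two : (13533 / 100000 : ℝ) ≤ Real.exp (-2) := by
  have h1 : Real.exp 1 < 2.7182818286 := Real.exp_one_lt_d9
  have h2 : Real.exp (-2) = (Real.exp 1 ^ 2)⁻¹ := by
    rw [← Real.exp_nat_mul, ← Real.exp_neg]; norm_num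
  rw [h2, le_inv_comm₀ (by norm_num) (by positivity)]
  have h3 : Real.exp 1 ^ 2 ≤ 2.7182818286 ^ 2 :=
    pow_le_pow_left₀ (Real.exp_pos 1).le h1.le 2
  refine h3.trans ?_
  norm_num

theorem m5_exp_neg_three : (4978 / 100000 : ℝ) ≤ Real.exp (-3) := by
  have h1 : Real.exp 1 < 2.7182818286 := Real.exp_one_lt_d9
  have h2 : Real.exp (-3) = (Real.exp 1 ^ 3)⁻¹ := by
    rw [← Real.exp_nat_mul, ← Real.exp_neg]; norm_num
  rw [h2, le_inv_comm₀ (by norm_num) (by positivity)]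
  have h3 : Real.exp 1 ^ 3 ≤ 2.7182818286 ^ 3 :=
    pow_le_pow_left₀ (Real.exp_pos 1).le h1.le 3
  refine h3.trans ?_
  norm_num

theorem m5_exp_neg_two_upper : Real.exp (-2) ≤ (13534 / 100000 : ℝ) := by
  have h1 : 2.7182818283 < Real.exp 1 := Real.exp_one_gt_d9
  have h2 : Real.exp (-2) = (Real.exp 1 ^ 2)⁻¹ := by
    rw [← Real.exp_nat_mul, ← Real.exp_neg]; norm_num
  rw [h2, inv_le_comm₀ (by positivity) (by norm_num)]
  have h3 : (2.7182818283 : ℝ) ^ 2 ≤ Real.exp 1 ^ 2 :=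
    pow_le_pow_left₀ (by norm_num) h1.le 2
  refine le_trans ?_ h3
  norm_num

theorem m5_exp_neg_three_upper : Real.exp (-3) ≤ (49788 / 1000000 : ℝ) := by
  have h1 : 2.7182818283 < Real.exp 1 := Real.exp_one_gt_d9
  have h2 : Real.exp (-3) = (Real.exp 1 ^ 3)⁻¹ := by
    rw [← Real.exp_nat_mul, ← Real.exp_neg]; norm_num
  rw [h2, inv_le_comm₀ (by positivity) (by norm_num)]
  have h3 : (2.7182818283 : ℝ) ^ 3 ≤ Real.exp 1 ^ 3 :=
    pow_le_pow_left₀ (by norm_num) h1.le 3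
  refine le_trans ?_ h3
  norm_num

/-- SV_2 -/
theorem sv2 (t b : ℝ) (ht : 0 ≤ t) (ht1 : t ≤ 1) (hb : 0 ≤ b) (hb1 : b ≤ Real.exp (-2)) :
    b * (1 - t ^ 2) - 7 / 4 * b ^ 2 * t ^ 2 ≤ Real.exp (2 * (t - 1)) - t ^ 2 := by
  rcases le_total t (4 / 5) with h | h
  · -- decreasing in `b`
    set q := Real.exp (-2) with hq
    have hq1 : (13533 / 100000 : ℝ) ≤ q := m5_exp_neg_two
    have hq2 : q ≤ (13534 / 100000 : ℝ) := m5_exp_neg_two_upper
    have hE : Real.exp (2 * (t - 1)) = q * Real.exp (2 * t) := by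
      rw [hq, ← Real.exp_add]; ring_nf
    have hT := Real.sum_le_exp_of_nonneg (x := 2 * t) (by linarith) 8
    simp only [Finset.sum_range_succ, Finset.sum_range_zero, Nat.factorial] at hT
    norm_num at hT
    have hstep : b * (1 - t ^ 2) - 7 / 4 * b ^ 2 * t ^ 2 ≤
        q * (1 - t ^ 2) - 7 / 4 * q ^ 2 * t ^ 2 := by
      have h1 : 7 / 4 * (q + b) * t ^ 2 ≤ 1 - t ^ 2 := by
        have h2 : t ^ 2 ≤ 16 / 25 := by nlinarith
        have h3 : 0 ≤ t ^ 2 := sq_nonneg t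
        nlinarith
      have h4 : 0 ≤ (q - b) * ((1 - t ^ 2) - 7 / 4 * (q + b) * t ^ 2) :=
        mul_nonneg (by linarith) (by linarith)
      nlinarith
    refine hstep.trans ?_
    rw [hE]
    have hP : 0 ≤ (13533 / 100000) * (2 + 2 * t + 4 / 3 * t ^ 2 + 2 / 3 * t ^ 3 + 4 / 15 * t ^ 4
        + 4 / 45 * t ^ 5 + 8 / 315 * t ^ 6) + t * (13533 / 100000)
        + 7 / 4 * (13533 / 100000) ^ 2 * t - t := by
      have h5 : 0 ≤ 4 / 5 - t := by linarith
      have h6 : (13533 / 100000) * (2 + 2 * t + 4 / 3 * t ^ 2 + 2 / 3 * t ^ 3 + 4 / 15 * t ^ 4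
        + 4 / 45 * t ^ 5 + 8 / 315 * t ^ 6) + t * (13533 / 100000)
        + 7 / 4 * (13533 / 100000) ^ 2 * t - t =
        (67665 / 65536) * t ^ 0 * (4 / 5 - t) ^ 6 +
      (58719594623 / 13107200000) * t ^ 1 * (4 / 5 - t) ^ 5 +
      (19275410623 / 2621440000) * t ^ 2 * (4 / 5 - t) ^ 4 +
      (7128189823 / 1310720000) * t ^ 3 * (4 / 5 - t) ^ 3 +
      (2052340447 / 1310720000) * t ^ 4 * (4 / 5 - t) ^ 2 +
      (1519326577 / 39321600000) * t ^ 5 * (4 / 5 - t) ^ 1 +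
      (12550259671 / 1376256000000) * t ^ 6 * (4 / 5 - t) ^ 0 := by ring
      rw [h6]
      positivity
    have hS : 0 ≤ 2 + 2 * t + 4 / 3 * t ^ 2 + 2 / 3 * t ^ 3 + 4 / 15 * t ^ 4
        + 4 / 45 * t ^ 5 + 8 / 315 * t ^ 6 := by positivity
    -- replace the constant by `q`
    have hQ : 0 ≤ q * (2 + 2 * t + 4 / 3 * t ^ 2 + 2 / 3 * t ^ 3 + 4 / 15 * t ^ 4
        + 4 / 45 * t ^ 5 + 8 / 315 * t ^ 6) + t * q + 7 / 4 * q ^ 2 * t - t := by
      have h7 : (13533 / 100000) * (2 + 2 * t + 4 / 3 * t ^ 2 + 2 / 3 * t ^ 3 + 4 / 15 * t ^ 4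
        + 4 / 45 * t ^ 5 + 8 / 315 * t ^ 6) ≤ q * (2 + 2 * t + 4 / 3 * t ^ 2 + 2 / 3 * t ^ 3
        + 4 / 15 * t ^ 4 + 4 / 45 * t ^ 5 + 8 / 315 * t ^ 6) :=
        mul_le_mul_of_nonneg_right hq1 hS
      have h8 : t * (13533 / 100000) ≤ t * q := mul_le_mul_of_nonneg_left hq1 ht
      have h9 : 7 / 4 * (13533 / 100000) ^ 2 * t ≤ 7 / 4 * q ^ 2 * t := by
        have : (13533 / 100000 : ℝ) ^ 2 ≤ q ^ 2 := pow_le_pow_left₀ (by norm_num) hq1 2
        nlinarith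
      linarith
    have hmul := mul_nonneg ht hQ
    have hT2 : q * (1 + (2 * t + 2 * t ^ 2 + 4 / 3 * t ^ 3 + 2 / 3 * t ^ 4 + 4 / 15 * t ^ 5
        + 4 / 45 * t ^ 6 + 8 / 315 * t ^ 7)) ≤ q * Real.exp (2 * t) := by
      apply mul_le_mul_of_nonneg_left _ (Real.exp_pos _).le
      refine le_trans (le_of_eq ?_) hT
      ring
    nlinarith
  · -- the discriminant is negative
    set δ := 1 - t with hδ
    have hδ0 : 0 ≤ δ := by linarith
    have hδ1 : δ ≤ 1 / 5 := by linarith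
    have ht' : t = 1 - δ := by linarith
    have hE := m5_exp_neg_lower (2 * δ) (by linarith) (by linarith)
    have hE' : Real.exp (2 * (t - 1)) = Real.exp (-(2 * δ)) := by
      congr 1; rw [ht']; ring
    rw [hE']
    have h1 : δ ^ 2 * (1 - 4 / 3 * δ) ≤ Real.exp (-(2 * δ)) - t ^ 2 := by
      rw [ht']
      nlinarith
    refine le_trans ?_ h1
    rw [ht']
    have hcub : 0 ≤ 7 * (1 - δ) ^ 2 * (1 - 4 / 3 * δ) - (2 - δ) ^ 2 := by
      have h2 : 0 ≤ 1 / 5 - δ := by linarith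
      nlinarith [mul_nonneg hδ0 h2, mul_nonneg (mul_nonneg hδ0 hδ0) h2, mul_nonneg hδ0 hδ0]
    have hpos : 0 < 7 * (1 - δ) ^ 2 := by
      have : 0 < 1 - δ := by linarith
      positivity
    have hsq : 0 ≤ (7 / 2 * (1 - δ) ^ 2 * b - δ * (2 - δ)) ^ 2 := sq_nonneg _
    have hd2 : 0 ≤ δ ^ 2 * (7 * (1 - δ) ^ 2 * (1 - 4 / 3 * δ) - (2 - δ) ^ 2) :=
      mul_nonneg (sq_nonneg _) hcub
    have hfin : 0 ≤ (7 * (1 - δ) ^ 2) * (δ ^ 2 * (1 - 4 / 3 * δ) -
        (b * (1 - (1 - δ) ^ 2) - 7 / 4 * b ^ 2 * (1 - δ) ^ 2)) := by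
      nlinarith
    have := nonneg_of_mul_nonneg_right hfin hpos
    linarith

/-- SV_3 -/
theorem sv3 (t b : ℝ) (ht : 0 ≤ t) (ht1 : t ≤ 1) (hb : 0 ≤ b) (hb1 : b ≤ Real.exp (-3)) :
    b * (1 - t ^ 3) - 9 / 4 * b ^ 2 * t ^ 3 ≤ Real.exp (3 * (t - 1)) - t ^ 3 := by
  rcases le_total t (9 / 10) with h | h
  · set q := Real.exp (-3) with hq
    have hq1 : (4978 / 100000 : ℝ) ≤ q := m5_exp_neg_three
    have hq2 : q ≤ (49788 / 1000000 : ℝ) := m5_exp_neg_three_upper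
    have hE : Real.exp (3 * (t - 1)) = q * Real.exp (3 * t) := by
      rw [hq, ← Real.exp_add]; ring_nf
    have hT := Real.sum_le_exp_of_nonneg (x := 3 * t) (by linarith) 10
    simp only [Finset.sum_range_succ, Finset.sum_range_zero, Nat.factorial] at hT
    norm_num at hT
    have ht3 : t ^ 3 ≤ 729 / 1000 := by
      have := pow_le_pow_left₀ ht h 3
      norm_num at this
      linarith
    have ht30 : 0 ≤ t ^ 3 := by positivity
    have hstep : b * (1 - t ^ 3) - 9 / 4 * b ^ 2 * t ^ 3 ≤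
        q * (1 - t ^ 3) - 9 / 4 * q ^ 2 * t ^ 3 := by
      have h1 : 9 / 4 * (q + b) * t ^ 3 ≤ 1 - t ^ 3 := by
        nlinarith
      have h4 : 0 ≤ (q - b) * ((1 - t ^ 3) - 9 / 4 * (q + b) * t ^ 3) :=
        mul_nonneg (by linarith) (by linarith)
      nlinarith
    refine hstep.trans ?_
    rw [hE]
    set S := 3 + 9 / 2 * t + 9 / 2 * t ^ 2 + 27 / 8 * t ^ 3 + 81 / 40 * t ^ 4
        + 81 / 80 * t ^ 5 + 243 / 560 * t ^ 6 + 729 / 4480 * t ^ 7 + 243 / 4480 * t ^ 8 with hSdef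
    have hP : 0 ≤ (4978 / 100000) * S + t ^ 2 * (4978 / 100000)
        + 9 / 4 * (4978 / 100000) ^ 2 * t ^ 2 - t ^ 2 := by
      have h5 : 0 ≤ 9 / 10 - t := by linarith
      have h6 : (4978 / 100000) * S + t ^ 2 * (4978 / 100000)
        + 9 / 4 * (4978 / 100000) ^ 2 * t ^ 2 - t ^ 2 =
        (4978000 / 14348907) * t ^ 0 * (9 / 10 - t) ^ 8 +
      (46544300 / 14348907) * t ^ 1 * (9 / 10 - t) ^ 7 +
      (1669689714403 / 143489070000) * t ^ 2 * (9 / 10 - t) ^ 6 +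
      (1536170554459 / 71744535000) * t ^ 3 * (9 / 10 - t) ^ 5 +
      (628862154539 / 28697814000) * t ^ 4 * (9 / 10 - t) ^ 4 +
      (701888785811 / 57395628000) * t ^ 5 * (9 / 10 - t) ^ 3 +
      (12898372943899 / 4017693960000) * t ^ 6 * (9 / 10 - t) ^ 2 +
      (72246163232323 / 321415516800000) * t ^ 7 * (9 / 10 - t) ^ 1 +
      (15895017762119 / 3214155168000000) * t ^ 8 * (9 / 10 - t) ^ 0 := by
        rw [hSdef]; ring
      rw [h6]
      positivity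
    have hS : 0 ≤ S := by rw [hSdef]; positivity
    have hQ : 0 ≤ q * S + t ^ 2 * q + 9 / 4 * q ^ 2 * t ^ 2 - t ^ 2 := by
      have h7 : (4978 / 100000) * S ≤ q * S := mul_le_mul_of_nonneg_right hq1 hS
      have h8 : t ^ 2 * (4978 / 100000) ≤ t ^ 2 * q :=
        mul_le_mul_of_nonneg_left hq1 (sq_nonneg t)
      have h9 : 9 / 4 * (4978 / 100000) ^ 2 * t ^ 2 ≤ 9 / 4 * q ^ 2 * t ^ 2 := by
        have : (4978 / 100000 : ℝ) ^ 2 ≤ q ^ 2 := pow_le_pow_left₀ (by norm_num) hq1 2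
        have h10 : 0 ≤ t ^ 2 := sq_nonneg t
        nlinarith
      linarith
    have hmul := mul_nonneg ht hQ
    have hT2 : q * (1 + t * S) ≤ q * Real.exp (3 * t) := by
      apply mul_le_mul_of_nonneg_left _ (Real.exp_pos _).le
      refine le_trans (le_of_eq ?_) hT
      rw [hSdef]
      ring
    nlinarith
  · set δ := 1 - t with hδ
    have hδ0 : 0 ≤ δ := by linarith
    have hδ1 : δ ≤ 1 / 10 := by linarith
    have ht' : t = 1 - δ := by linarith
    have hE := m5_exp_neg_lower (3 * δ) (by linarith) (by linarith)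
    have hE' : Real.exp (3 * (t - 1)) = Real.exp (-(3 * δ)) := by
      congr 1; rw [ht']; ring
    rw [hE']
    have h1 : δ ^ 2 * (3 / 2 - 7 / 2 * δ) ≤ Real.exp (-(3 * δ)) - t ^ 3 := by
      rw [ht']
      nlinarith
    refine le_trans ?_ h1
    rw [ht']
    have hcub : 0 ≤ 9 * (1 - δ) ^ 3 * (3 / 2 - 7 / 2 * δ) - (3 - 3 * δ + δ ^ 2) ^ 2 := by
      have h2 : 0 ≤ 1 / 10 - δ := by linarith
      nlinarith [mul_nonneg hδ0 h2, mul_nonneg (mul_nonneg hδ0 hδ0) h2, mul_nonneg hδ0 hδ0,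
        mul_nonneg (mul_nonneg (mul_nonneg hδ0 hδ0) hδ0) h2, pow_nonneg hδ0 3, pow_nonneg hδ0 4]
    have hpos : 0 < 9 * (1 - δ) ^ 3 := by
      have : 0 < 1 - δ := by linarith
      positivity
    have hsq : 0 ≤ (9 / 2 * (1 - δ) ^ 3 * b - δ * (3 - 3 * δ + δ ^ 2)) ^ 2 := sq_nonneg _
    have hd2 : 0 ≤ δ ^ 2 * (9 * (1 - δ) ^ 3 * (3 / 2 - 7 / 2 * δ) - (3 - 3 * δ + δ ^ 2) ^ 2) :=
      mul_nonneg (sq_nonneg _) hcub
    have hfin : 0 ≤ (9 * (1 - δ) ^ 3) * (δ ^ 2 * (3 / 2 - 7 / 2 * δ) -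
        (b * (1 - (1 - δ) ^ 3) - 9 / 4 * b ^ 2 * (1 - δ) ^ 3)) := by
      have hid : (9 * (1 - δ) ^ 3) * (δ ^ 2 * (3 / 2 - 7 / 2 * δ) -
        (b * (1 - (1 - δ) ^ 3) - 9 / 4 * b ^ 2 * (1 - δ) ^ 3)) =
        (9 / 2 * (1 - δ) ^ 3 * b - δ * (3 - 3 * δ + δ ^ 2)) ^ 2 +
        δ ^ 2 * (9 * (1 - δ) ^ 3 * (3 / 2 - 7 / 2 * δ) - (3 - 3 * δ + δ ^ 2) ^ 2) := by ring
      rw [hid]
      exact add_nonneg hsq hd2
    have := nonneg_of_mul_nonneg_right hfin hpos
    linarith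

/-- one set -/
theorem m5_one (k : ℕ) (hk : k = 2 ∨ k = 3) (u : Fin k → ℝ) (hu : ∀ l, 0 ≤ u l) (a β : ℝ)
    (hβ : 0 ≤ β) (hβ1 : β ≤ Real.exp (-(k : ℝ)))
    (hsum : a + (β + kap k * β ^ 2) ≤ 1) :
    (∏ l, u l) * a + β ≤ Real.exp (∑ l, (u l - 1)) := by
  have hβ2 : β ≤ 1 := hβ1.trans (Real.exp_le_one_iff.2 (by simp))
  have key : ∀ (t κ ρ : ℝ), 0 ≤ t → 0 ≤ κ → 0 ≤ ρ → ρ ≤ t ^ k →
      a + (β + κ * β ^ 2) ≤ 1 →
      (t ≤ 1 → β * (1 - t ^ k) - κ * β ^ 2 * t ^ k ≤ Real.exp (k * (t - 1)) - t ^ k) →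
      ρ * a + β ≤ Real.exp (k * (t - 1)) := by
    intro t κ ρ ht hκ hρ hρt hs hsv
    have htk : 0 ≤ t ^ k := pow_nonneg ht k
    have hlow : t ^ k ≤ Real.exp (k * (t - 1)) := by
      rw [Real.exp_nat_mul]
      exact pow_le_pow_left₀ ht (by linarith [Real.add_one_le_exp (t - 1)]) k
    rcases le_or_gt a 0 with ha | ha
    · -- the first term is nonpositive
      have h1 : ρ * a ≤ 0 := mul_nonpos_of_nonneg_of_nonpos hρ ha
      have h2 : β ≤ Real.exp (k * (t - 1)) := by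
        refine hβ1.trans (Real.exp_le_exp.2 ?_)
        have : 0 ≤ (k : ℝ) * t := by positivity
        linarith
      linarith
    · have h1 : ρ * a ≤ t ^ k * a := mul_le_mul_of_nonneg_right hρt ha.le
      have h2 : t ^ k * a ≤ t ^ k * (1 - β - κ * β ^ 2) :=
        mul_le_mul_of_nonneg_left (by linarith) htk
      rcases le_total t 1 with ht1 | ht1
      · have h3 := hsv ht1
        nlinarith
      · have h3 : 1 ≤ t ^ k := one_le_pow₀ ht1
        have h4 : 0 ≤ t ^ k * (κ * β ^ 2) := by positivity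
        have h5 : 0 ≤ (t ^ k - 1) * β := mul_nonneg (by linarith) hβ
        nlinarith
  rcases hk with rfl | rfl
  · have hκ : kap 2 = 7 / 4 := by simp [kap]
    rw [hκ] at hsum
    rw [Fin.prod_univ_two, Fin.sum_univ_two]
    have h0 := hu 0
    have h1 := hu 1
    have h := key ((u 0 + u 1) / 2) (7 / 4) (u 0 * u 1) (by positivity) (by norm_num)
      (by positivity) (by nlinarith [sq_nonneg (u 0 - u 1)]) hsum
      (fun ht1 => sv2 _ β (by positivity) ht1 hβ (by simpa using hβ1))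
    refine h.trans (le_of_eq ?_)
    congr 1
    push_cast
    ring
  · have hκ : kap 3 = 9 / 4 := by simp [kap]
    rw [hκ] at hsum
    rw [Fin.prod_univ_three, Fin.sum_univ_three]
    have h0 := hu 0
    have h1 := hu 1
    have h2 := hu 2
    have h := key ((u 0 + u 1 + u 2) / 3) (9 / 4) (u 0 * u 1 * u 2) (by positivity) (by norm_num)
      (by positivity)
      (by
        nlinarith [mul_nonneg h0 (sq_nonneg (u 1 - u 2)), mul_nonneg h1 (sq_nonneg (u 0 - u 2)),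
          mul_nonneg h2 (sq_nonneg (u 0 - u 1)), mul_nonneg h0 (sq_nonneg (u 0 - u 1)),
          mul_nonneg h0 (sq_nonneg (u 0 - u 2)), mul_nonneg h1 (sq_nonneg (u 0 - u 1)),
          mul_nonneg h1 (sq_nonneg (u 1 - u 2)), mul_nonneg h2 (sq_nonneg (u 0 - u 2)),
          mul_nonneg h2 (sq_nonneg (u 1 - u 2))]) hsum
      (fun ht1 => sv3 _ β (by positivity) ht1 hβ (by simpa using hβ1))
    refine h.trans (le_of_eq ?_)
    congr 1
    push_cast
    ring

/-- elimination lemma, induction over a finset of sets -/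
theorem m5_elim {ι : Type} [DecidableEq ι] (k : ι → ℕ) (hk : ∀ i, k i = 2 ∨ k i = 3)
    (u : (i : ι) → Fin (k i) → ℝ) (hu : ∀ i l, 0 ≤ u i l) (E : ℝ) (hE : 0 < E)
    (s : Finset ι) : ∀ (F : ℝ) (b : ι → ℝ), 0 ≤ F → (∀ i, 0 ≤ b i) →
    (∀ i, b i ≤ Real.exp (-(k i : ℝ)) * E) →
    F + ∑ i ∈ s, (b i + kap (k i) * b i ^ 2 / E) ≤ E →
    (∏ i ∈ s, ∏ l, u i l) * F + ∑ i ∈ s, b i * ∏ j ∈ s.erase i, ∏ l, u j l
      ≤ E * Real.exp (∑ i ∈ s, ∑ l, (u i l - 1)) := by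
  induction s using Finset.induction_on with
  | empty =>
    intro F b hF hb hb1 hs
    simpa using hs
  | insert i s hi ih =>
    intro F b hF hb hb1 hs
    have hkap : ∀ j, 0 ≤ kap (k j) := by
      intro j
      unfold kap
      split_ifs <;> norm_num
    set ρ := ∏ l, u i l with hρ
    set w := Real.exp (∑ l, (u i l - 1)) with hw
    have hw0 : 0 < w := Real.exp_pos _
    have hρ0 : 0 ≤ ρ := Finset.prod_nonneg fun l _ => hu i l
    have hρw : ρ ≤ w := by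
      rw [hρ, hw, Real.exp_sum]
      exact Finset.prod_le_prod (fun l _ => hu i l)
        (fun l _ => by linarith [Real.add_one_le_exp (u i l - 1)])
    have hratio : ρ / w ≤ 1 := (div_le_one hw0).2 hρw
    have hratio0 : 0 ≤ ρ / w := div_nonneg hρ0 hw0.le
    rw [Finset.sum_insert hi] at hs
    -- the one-set inequality
    set a := (F + ∑ j ∈ s, (b j + kap (k j) * b j ^ 2 / E)) / E with ha
    have hone : ρ * a + b i / E ≤ w := by
      apply m5_one (k i) (hk i) (u i) (hu i) a (b i / E) (div_nonneg (hb i) hE.le)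
      · rw [div_le_iff₀ hE]; exact hb1 i
      · rw [ha]
        have : (F + ∑ j ∈ s, (b j + kap (k j) * b j ^ 2 / E)) / E +
            (b i / E + kap (k i) * (b i / E) ^ 2) =
            (F + (b i + kap (k i) * b i ^ 2 / E +
              ∑ j ∈ s, (b j + kap (k j) * b j ^ 2 / E))) / E := by
          field_simp
          ring
        rw [this, div_le_one hE]
        exact hs
    -- apply the induction hypothesis with rescaled data
    have hF' : 0 ≤ (ρ * F + b i) / w :=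
      div_nonneg (add_nonneg (mul_nonneg hρ0 hF) (hb i)) hw0.le
    have hb' : ∀ j, 0 ≤ ρ / w * b j := fun j => mul_nonneg hratio0 (hb j)
    have hb1' : ∀ j, ρ / w * b j ≤ Real.exp (-(k j : ℝ)) * E := fun j =>
      (mul_le_of_le_one_left (hb j) hratio).trans (hb1 j)
    have hs' : (ρ * F + b i) / w +
        ∑ j ∈ s, (ρ / w * b j + kap (k j) * (ρ / w * b j) ^ 2 / E) ≤ E := by
      have h1 : ∑ j ∈ s, (ρ / w * b j + kap (k j) * (ρ / w * b j) ^ 2 / E) ≤
          ρ / w * ∑ j ∈ s, (b j + kap (k j) * b j ^ 2 / E) := by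
        rw [Finset.mul_sum]
        apply Finset.sum_le_sum
        intro j _
        have h2 : 0 ≤ kap (k j) * b j ^ 2 / E :=
          div_nonneg (mul_nonneg (hkap j) (sq_nonneg _)) hE.le
        have h3 : kap (k j) * (ρ / w * b j) ^ 2 / E =
            (ρ / w) * ((ρ / w) * (kap (k j) * b j ^ 2 / E)) := by ring
        rw [h3, mul_add]
        have h4 : (ρ / w) * (kap (k j) * b j ^ 2 / E) ≤ kap (k j) * b j ^ 2 / E :=
          mul_le_of_le_one_left h2 hratio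
        have h5 := mul_le_mul_of_nonneg_left h4 hratio0
        linarith
      have h6 : (ρ * F + b i) / w + ρ / w * ∑ j ∈ s, (b j + kap (k j) * b j ^ 2 / E) =
          E * (ρ * a + b i / E) / w := by
        rw [ha]
        set SS := ∑ j ∈ s, (b j + kap (k j) * b j ^ 2 / E)
        field_simp
        ring
      calc (ρ * F + b i) / w + ∑ j ∈ s, (ρ / w * b j + kap (k j) * (ρ / w * b j) ^ 2 / E)
          ≤ (ρ * F + b i) / w + ρ / w * ∑ j ∈ s, (b j + kap (k j) * b j ^ 2 / E) := by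
            linarith
        _ = E * (ρ * a + b i / E) / w := h6
        _ ≤ E := by
            rw [div_le_iff₀ hw0]
            exact mul_le_mul_of_nonneg_left hone hE.le
    have hih := ih ((ρ * F + b i) / w) (fun j => ρ / w * b j) hF' hb' hb1' hs'
    -- assemble
    have hL : (∏ j ∈ insert i s, ∏ l, u j l) * F +
        ∑ j ∈ insert i s, b j * ∏ m ∈ (insert i s).erase j, ∏ l, u m l =
        w * ((∏ j ∈ s, ∏ l, u j l) * ((ρ * F + b i) / w) +
          ∑ j ∈ s, ρ / w * b j * ∏ m ∈ s.erase j, ∏ l, u m l) := by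
      rw [Finset.prod_insert hi, Finset.sum_insert hi, Finset.erase_insert hi, mul_add w,
        Finset.mul_sum s _ w, ← hρ]
      have h7 : ∀ j ∈ s, b j * ∏ m ∈ (insert i s).erase j, ∏ l, u m l =
          w * (ρ / w * b j * ∏ m ∈ s.erase j, ∏ l, u m l) := by
        intro j hj
        have hij : i ≠ j := fun h => hi (h ▸ hj)
        rw [Finset.erase_insert_of_ne hij, Finset.prod_insert
          (fun h => hi (Finset.mem_of_mem_erase h)), ← hρ]
        field_simp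
      rw [Finset.sum_congr rfl h7]
      field_simp
      ring
    rw [hL, Finset.sum_insert hi, Real.exp_add, ← hw]
    calc w * _ ≤ w * (E * Real.exp (∑ j ∈ s, ∑ l, (u j l - 1))) :=
          mul_le_mul_of_nonneg_left hih hw0.le
      _ = E * (w * Real.exp (∑ j ∈ s, ∑ l, (u j l - 1))) := by ring

/-- elimination lemma (Lemma T): `u i l` are the weights of the heavy vertices. -/
theorem elim_sets {ι : Type} [Fintype ι] [DecidableEq ι] (k : ι → ℕ) (hk : ∀ i, k i = 2 ∨ k i = 3)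
    (u : (i : ι) → Fin (k i) → ℝ) (hu : ∀ i l, 0 ≤ u i l) (E F : ℝ) (b : ι → ℝ)
    (hE : 0 < E) (hF : 0 ≤ F) (hb : ∀ i, 0 ≤ b i) (hb1 : ∀ i, b i ≤ Real.exp (-(k i : ℝ)) * E)
    (hsum : F + ∑ i, (b i + kap (k i) * b i ^ 2 / E) ≤ E) :
    (∏ i, ∏ l, u i l) * F + ∑ i, b i * ∏ j ∈ univ.erase i, ∏ l, u j l
      ≤ E * Real.exp (∑ i, ∑ l, (u i l - 1)) :=
  m5_elim k hk u hu E hE univ F b hF hb hb1 hsum

end Pool.Agent.H62.Jump
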